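import Pool.Agent.PHW7.Defs7
import Pool.Agent.PHW.Num3
import Pool.Agent.HexWall.FlatF
import Pool.Agent.HexSPR.KillA

/-!
PHW, section S7 (deep returns of giants): numbers for the averages over the pieces.
-/

set_option autoImplicit false

namespace HexObs

open Complex Finset ENNReal

lemma gf_Irr_real (r : ℕ) : gf (Irr r) = ENNReal.ofReal (kk r) := by
  unfold kk kap'
  rw [ENNReal.ofReal_toReal]
  have h2 : gf (Irr r) ≤ BT r := by
    rw [← gf_Brd]
    exact gf_mono (fun t ht => ht.1)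
  refine ne_top_of_le_ne_top ?_ h2
  rw [Wall.BT_ofReal]
  exact ENNReal.ofReal_ne_top

private lemma two_pow_pred {k : ℕ} (hk : 4 ≤ k) : 2 ^ (k - 2) = 2 * 2 ^ (k - 3) ∧ 2 ^ (k - 3) = 2 * 2 ^ (k - 4) ∧
    2 ^ k = 8 * 2 ^ (k - 3) := by
  obtain ⟨j, rfl⟩ : ∃ j, k = j + 4 := ⟨k - 4, by omega⟩
  rw [show j + 4 - 2 = j + 2 by omega, show j + 4 - 3 = j + 1 by omega, show j + 4 - 4 = j by omega]
  refine ⟨?_, ?_, ?_⟩ <;> ring

private lemma vk_le_one {k n r : ℕ} (hk : 4 ≤ k) : vk k n r ≤ 1 := by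
  unfold vk
  have hp : (2 : ℝ≥0∞) ^ (k - 2) ≠ 0 := by simp
  have hp' : (2 : ℝ≥0∞) ^ (k - 2) ≠ ∞ := by simp
  refine ENNReal.div_le_of_le_mul ?_
  rw [one_mul]
  have h1 : ((Finset.Ico (2 ^ (k - 3)) (2 ^ (k - 2))).filter (fun l => n ≤ l ∧ l < n + r)).card ≤ 2 ^ (k - 3) := by
    refine (Finset.card_filter_le _ _).trans ?_
    rw [Nat.card_Ico, (two_pow_pred hk).1]
    omega
  calc (((Finset.Ico (2 ^ (k - 3)) (2 ^ (k - 2))).filter (fun l => n ≤ l ∧ l < n + r)).card : ℝ≥0∞)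
      ≤ ((2 ^ (k - 3) : ℕ) : ℝ≥0∞) := by exact_mod_cast h1
    _ = 2 ^ (k - 3) := by push_cast; rfl

private lemma vk_le_div {k n r : ℕ} : vk k n r ≤ (r : ℝ≥0∞) / 2 ^ (k - 3) := by
  unfold vk
  gcongr
  have h : (Finset.Ico (2 ^ (k - 3)) (2 ^ (k - 2))).filter (fun l => n ≤ l ∧ l < n + r) ⊆ Finset.Ico n (n + r) := by
    intro l hl
    rw [Finset.mem_filter] at hl
    rw [Finset.mem_Ico]
    exact hl.2
  refine (Finset.card_le_card h).trans ?_
  rw [Nat.card_Ico]
  omega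

/-- R4n1 (NumV.lean) -/
theorem vk_le_vb {k n r b : ℕ} (hk : 4 ≤ k) (hn : n < 2 ^ b) : vk k n r ≤ vb k b r := by
  unfold vb
  split_ifs with h
  · obtain ⟨h1, h2⟩ := h
    have h3 : 2 ^ b ≤ 2 ^ (k - 4) := Nat.pow_le_pow_right (by norm_num) (by omega)
    have h4 := (two_pow_pred hk).2.1
    have h5 : (Finset.Ico (2 ^ (k - 3)) (2 ^ (k - 2))).filter (fun l => n ≤ l ∧ l < n + r) = ∅ := by
      rw [Finset.filter_eq_empty_iff]
      intro l hl
      rw [Finset.mem_Ico] at hl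
      omega
    unfold vk
    rw [h5]
    simp
  · exact le_min (vk_le_one hk) vk_le_div

private lemma vb_le {k b r : ℕ} : vb k b r ≤ min 1 ((r : ℝ≥0∞) / 2 ^ (k - 3)) := by
  unfold vb
  split_ifs
  · exact zero_le
  · exact le_rfl

private lemma div_ofReal (r k : ℕ) : (r : ℝ≥0∞) / 2 ^ k = ENNReal.ofReal ((r : ℝ) / 2 ^ k) := by
  rw [ENNReal.ofReal_div_of_pos (by positivity), ENNReal.ofReal_natCast, ENNReal.ofReal_pow (by norm_num)]
  norm_num

private lemma tail_kk {R N : ℕ} : ∑ r ∈ Finset.Ico (R + 1) N, kk r ≤ 1 / UU R := by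
  have h := Wall.tail_triv R N
  rw [Finset.sum_congr rfl (fun r _ => gf_Irr_real r), ← ENNReal.ofReal_sum_of_nonneg (fun r _ => kk_nonneg r)] at h
  have hU := Num2Aux.UU_pos R
  exact (ENNReal.ofReal_le_ofReal_iff (by positivity)).1 h

private lemma UU_eight {k : ℕ} (hk : 4 ≤ k) : UU (2 ^ k) ≤ 8 * UU (2 ^ (k - 3)) := by
  have h := two_pow_pred hk
  have h1 := UU_double (2 ^ (k - 3))
  have h2 := UU_double (2 * 2 ^ (k - 3))
  have h3 := UU_double (2 * (2 * 2 ^ (k - 3)))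
  rw [show 2 * (2 * (2 * 2 ^ (k - 3))) = 2 ^ k by omega] at h3
  linarith

/-- small pieces -/
private lemma small_sum {k : ℕ} (hk : 4 ≤ k) (v : ℕ → ℝ≥0∞) (hv : ∀ r, v r ≤ (r : ℝ≥0∞) / 2 ^ (k - 3)) :
    ∑ r ∈ Finset.range (2 ^ (k - 3) + 1), v r * gf (Irr r) ≤ ENNReal.ofReal (24 / UU (2 ^ k)) := by
  have hU1 := Num2Aux.UU_pos (2 ^ (k - 3))
  have hU2 := Num2Aux.UU_pos (2 ^ k)
  calc ∑ r ∈ Finset.range (2 ^ (k - 3) + 1), v r * gf (Irr r)
      ≤ ∑ r ∈ Finset.range (2 ^ (k - 3) + 1), ENNReal.ofReal ((r : ℝ) * kk r / 2 ^ (k - 3)) := by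
        apply Finset.sum_le_sum
        intro r _
        rw [gf_Irr_real]
        calc v r * ENNReal.ofReal (kk r) ≤ ENNReal.ofReal ((r : ℝ) / 2 ^ (k - 3)) * ENNReal.ofReal (kk r) := by
              gcongr
              rw [← div_ofReal]
              exact hv r
          _ = _ := by
              rw [← ENNReal.ofReal_mul (by positivity)]
              congr 1
              ring
    _ = ENNReal.ofReal ((∑ r ∈ Finset.range (2 ^ (k - 3) + 1), (r : ℝ) * kk r) / 2 ^ (k - 3)) := by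
        rw [← ENNReal.ofReal_sum_of_nonneg, Finset.sum_div]
        intro r _
        have := kk_nonneg r
        positivity
    _ ≤ ENNReal.ofReal (24 / UU (2 ^ k)) := by
        apply ENNReal.ofReal_le_ofReal
        have h1 := sum_mul_kk (R := 2 ^ (k - 3)) Nat.one_le_two_pow
        push_cast at h1
        calc (∑ r ∈ Finset.range (2 ^ (k - 3) + 1), (r : ℝ) * kk r) / 2 ^ (k - 3)
            ≤ (3 * (2 ^ (k - 3) / UU (2 ^ (k - 3)))) / 2 ^ (k - 3) := by gcongr
          _ = 3 / UU (2 ^ (k - 3)) := by field_simp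
          _ ≤ 24 / UU (2 ^ k) := by
              rw [div_le_div_iff₀ hU1 hU2]
              have := UU_eight hk
              linarith

/-- R4n2 (NumV.lean): average over the pieces -/
theorem sum_vb : ∃ C : ℝ, 0 < C ∧ ∀ k b N : ℕ, 4 ≤ k →
    ∑ r ∈ Finset.range N, vb k b r * gf (Irr r) ≤ ENNReal.ofReal (C / UU (2 ^ k)) := by
  refine ⟨32, by norm_num, fun k b N hk => ?_⟩
  have hU1 := Num2Aux.UU_pos (2 ^ (k - 3))
  have hU2 := Num2Aux.UU_pos (2 ^ k)
  have h1 : ∑ r ∈ Finset.range N, vb k b r * gf (Irr r) ≤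
      ∑ r ∈ Finset.range (2 ^ (k - 3) + 1), vb k b r * gf (Irr r) +
        ∑ r ∈ Finset.Ico (2 ^ (k - 3) + 1) N, vb k b r * gf (Irr r) := by
    rcases Nat.lt_or_ge N (2 ^ (k - 3) + 1) with h | h
    · refine le_trans (Finset.sum_le_sum_of_subset ?_) le_self_add
      intro r hr
      rw [Finset.mem_range] at hr ⊢
      omega
    · rw [Finset.sum_range_add_sum_Ico _ h]
  refine h1.trans ?_
  have h2 := small_sum hk (vb k b) (fun r => vb_le.trans (min_le_right _ _))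
  have h3 : ∑ r ∈ Finset.Ico (2 ^ (k - 3) + 1) N, vb k b r * gf (Irr r) ≤ ENNReal.ofReal (8 / UU (2 ^ k)) := by
    calc ∑ r ∈ Finset.Ico (2 ^ (k - 3) + 1) N, vb k b r * gf (Irr r)
        ≤ ∑ r ∈ Finset.Ico (2 ^ (k - 3) + 1) N, gf (Irr r) := by
          apply Finset.sum_le_sum
          intro r _
          calc vb k b r * gf (Irr r) ≤ 1 * gf (Irr r) := by
                gcongr
                exact vb_le.trans (min_le_left _ _)
            _ = _ := one_mul _
      _ ≤ ENNReal.ofReal (1 / UU (2 ^ (k - 3))) := Wall.tail_triv _ _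
      _ ≤ ENNReal.ofReal (8 / UU (2 ^ k)) := by
          apply ENNReal.ofReal_le_ofReal
          rw [div_le_div_iff₀ hU1 hU2]
          have := UU_eight hk
          linarith
  calc _ ≤ ENNReal.ofReal (24 / UU (2 ^ k)) + ENNReal.ofReal (8 / UU (2 ^ k)) := add_le_add h2 h3
    _ = ENNReal.ofReal (32 / UU (2 ^ k)) := by
        rw [← ENNReal.ofReal_add (by positivity) (by positivity)]
        congr 1
        ring

/-- R4n3 (NumV.lean): average over the pieces with the rest of the strand, (T1) -/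
theorem sum_vb_u : ∃ C : ℝ, 0 < C ∧ ∀ k x e : ℕ, 4 ≤ k → x < 2 ^ (k - 2) → 2 ^ k ≤ e →
    ∑ r ∈ Finset.range (e + 1 - x), vk k x r * gf (Irr r) * gf (Brd (e - x - r)) ≤
      ENNReal.ofReal (C * (uu (2 ^ k) / UU (2 ^ k))) := by
  have hCW := Num2Aux.CW_pos
  refine ⟨32 * (2 * (6 + CW)) ^ 3, by positivity, fun k x e hk hx he => ?_⟩
  have hU1 := Num2Aux.UU_pos (2 ^ (k - 3))
  have hU2 := Num2Aux.UU_pos (2 ^ k)
  have hu := uu_pos (2 ^ k)
  have hp := two_pow_pred hk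
  obtain ⟨n, hn⟩ : ∃ n, n = e - x := ⟨_, rfl⟩
  have hn1 : 2 ^ (k - 2) ≤ n := by omega
  have hu4 : uu (2 ^ (k - 3)) ≤ (2 * (6 + CW)) ^ 3 * uu (2 ^ k) := by
    have h1 := uu_double (T := 2 ^ (k - 3)) Nat.one_le_two_pow
    have h0 : 1 ≤ 2 ^ (k - 3) := Nat.one_le_two_pow
    have h2 := uu_double (T := 2 * 2 ^ (k - 3)) (by omega)
    have h3 := uu_double (T := 2 * (2 * 2 ^ (k - 3))) (by omega)
    rw [show 2 * (2 * (2 * 2 ^ (k - 3))) = 2 ^ k by omega] at h3
    calc uu (2 ^ (k - 3)) ≤ 2 * (6 + CW) * uu (2 * 2 ^ (k - 3)) := h1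
      _ ≤ 2 * (6 + CW) * (2 * (6 + CW) * uu (2 * (2 * 2 ^ (k - 3)))) := by gcongr
      _ ≤ 2 * (6 + CW) * (2 * (6 + CW) * (2 * (6 + CW) * uu (2 ^ k))) := by gcongr
      _ = _ := by ring
  rw [show e + 1 - x = n + 1 by omega, ← hn]
  rw [← Finset.sum_range_add_sum_Ico _ (show 2 ^ (k - 3) + 1 ≤ n + 1 by omega)]
  have h1 : ∑ r ∈ Finset.range (2 ^ (k - 3) + 1), vk k x r * gf (Irr r) * gf (Brd (n - r)) ≤
      ENNReal.ofReal (24 * (2 * (6 + CW)) ^ 3 * (uu (2 ^ k) / UU (2 ^ k))) := by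
    calc ∑ r ∈ Finset.range (2 ^ (k - 3) + 1), vk k x r * gf (Irr r) * gf (Brd (n - r))
        ≤ ∑ r ∈ Finset.range (2 ^ (k - 3) + 1), vk k x r * gf (Irr r) * ENNReal.ofReal (uu (2 ^ (k - 3))) := by
          apply Finset.sum_le_sum
          intro r hr
          rw [Finset.mem_range] at hr
          gcongr
          rw [gf_Brd, Wall.BT_ofReal]
          exact ENNReal.ofReal_le_ofReal (uu_anti (by omega))
      _ = (∑ r ∈ Finset.range (2 ^ (k - 3) + 1), vk k x r * gf (Irr r)) * ENNReal.ofReal (uu (2 ^ (k - 3))) := by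
          rw [Finset.sum_mul]
      _ ≤ ENNReal.ofReal (24 / UU (2 ^ k)) * ENNReal.ofReal ((2 * (6 + CW)) ^ 3 * uu (2 ^ k)) := by
          gcongr
          exact small_sum hk (vk k x) (fun r => vk_le_div)
      _ = _ := by
          rw [← ENNReal.ofReal_mul (by positivity)]
          congr 1
          ring
  have h2 : ∑ r ∈ Finset.Ico (2 ^ (k - 3) + 1) (n + 1), vk k x r * gf (Irr r) * gf (Brd (n - r)) ≤
      ENNReal.ofReal (8 * (2 * (6 + CW)) ^ 3 * (uu (2 ^ k) / UU (2 ^ k))) := by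
    calc ∑ r ∈ Finset.Ico (2 ^ (k - 3) + 1) (n + 1), vk k x r * gf (Irr r) * gf (Brd (n - r))
        ≤ ∑ r ∈ Finset.Ico (2 ^ (k - 3) + 1) (n + 1), ENNReal.ofReal (kk r * uu (n - r)) := by
          apply Finset.sum_le_sum
          intro r _
          rw [gf_Irr_real, gf_Brd, Wall.BT_ofReal, ENNReal.ofReal_mul (kk_nonneg r)]
          calc vk k x r * ENNReal.ofReal (kk r) * ENNReal.ofReal (uu (n - r))
              ≤ 1 * ENNReal.ofReal (kk r) * ENNReal.ofReal (uu (n - r)) := by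
                gcongr
                exact vk_le_one hk
            _ = _ := by rw [one_mul]
      _ = ENNReal.ofReal (∑ r ∈ Finset.Ico (2 ^ (k - 3) + 1) (n + 1), kk r * uu (n - r)) := by
          rw [← ENNReal.ofReal_sum_of_nonneg]
          intro r _
          exact mul_nonneg (kk_nonneg r) (uu_pos _).le
      _ ≤ _ := by
          apply ENNReal.ofReal_le_ofReal
          have h0 : 1 ≤ 2 ^ (k - 2) := Nat.one_le_two_pow
          have h3 := Ex.T1 (m := n) (R := 2 ^ (k - 3) + 1) (by omega)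
          have h4 : Finset.Ico (2 ^ (k - 3) + 1) (n + 1) = Finset.Icc (2 ^ (k - 3) + 1) n := by
            ext r
            rw [Finset.mem_Ico, Finset.mem_Icc]
            omega
          rw [h4]
          have h5 := UU_mul_KK (2 ^ (k - 3))
          have h6 : KK' (2 ^ (k - 3) + 1) ≤ 8 / UU (2 ^ k) := by
            rw [le_div_iff₀ hU2]
            have h7 := KK_nonneg (2 ^ (k - 3) + 1)
            calc KK' (2 ^ (k - 3) + 1) * UU (2 ^ k) ≤ KK' (2 ^ (k - 3) + 1) * (8 * UU (2 ^ (k - 3))) := by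
                  gcongr
                  exact UU_eight hk
              _ ≤ 8 := by linarith
          have h8 : uu n ≤ (2 * (6 + CW)) ^ 3 * uu (2 ^ k) :=
            (uu_anti (show 2 ^ (k - 3) ≤ n by omega)).trans hu4
          calc _ ≤ uu n * KK' (2 ^ (k - 3) + 1) := h3
            _ ≤ ((2 * (6 + CW)) ^ 3 * uu (2 ^ k)) * (8 / UU (2 ^ k)) := by
                gcongr
                exact KK_nonneg _
            _ = _ := by ring
  calc _ ≤ _ := add_le_add h1 h2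
    _ = _ := by
        rw [← ENNReal.ofReal_add (by positivity) (by positivity)]
        congr 1
        ring

end HexObs
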