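import Pool.Agent.PHW7.Sw
import Pool.Agent.PHW7.NumV

/-!
PHW, section S7 (deep returns of giants), R4b: the gains of the two folds of the middle strand, averaged over the
giants.
-/

set_option autoImplicit false

namespace HexObs

open Complex Finset ENNReal

namespace Quad

lemma fold_left {t0 r : ℕ} {X Y I : List Bool} (hI : I ∈ Irr r) (h : Fold7 t0 (X ++ I) Y) : Fold7 t0 X Y := by
  obtain ⟨X', Y', p', q', p, q, h1, h2, h3, h4, h5, h6, h7⟩ := h
  refine ⟨I ++ X', Y', r + p', q', p, q, Brd_append hI.1 h1, h2, ?_, h4, h5, h6, ?_⟩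
  · rw [← List.append_assoc]
    exact h3
  · rw [← List.append_assoc]
    exact h7

lemma fold_right {t0 r : ℕ} {X Y I : List Bool} (hI : I ∈ Irr r) (h : Fold7 t0 X (Y ++ I)) : Fold7 t0 X Y := by
  obtain ⟨X', Y', p', q', p, q, h1, h2, h3, h4, h5, h6, h7⟩ := h
  refine ⟨X', I ++ Y', p', r + q', p, q, h1, Brd_append hI.1 h2, h3, ?_, h5, h6, ?_⟩
  · rw [← List.append_assoc]
    exact h4
  · rw [← List.append_assoc]
    exact h7

lemma bad_rev {A a b : ℕ} {P : List Bool} (h : Bad A a b (rev P)) : Bad A a b P := by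
  obtain ⟨u, v, h⟩ := h
  refine ⟨u, !v, ?_⟩
  have h1 : Wall.sy u v (rev P) = Wall.sy u (!v) P := by
    cases u <;> cases v <;> simp [Wall.sy, rev_rev]
  rw [← h1]
  exact h

lemma nflat_add (A : ℕ) (t : List Bool) (k0 k1 n : ℕ) :
    Wall.nflat A t k0 (k1 + n) ≤ Wall.nflat A t k0 k1 + n := by
  induction n with
  | zero => exact le_rfl
  | succ n ih =>
    have := Wall.nflat_succ A t k0 (k1 + n)
    rw [← add_assoc]
    omega

lemma UU_sixteen {k : ℕ} (hk : 4 ≤ k) : UU (2 ^ k) ≤ 16 * UU (2 ^ (k - 4)) := by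
  obtain ⟨j, rfl⟩ : ∃ j, k = j + 4 := ⟨k - 4, by omega⟩
  rw [show j + 4 - 4 = j by omega]
  have h0 := UU_double (2 ^ j)
  have h1 := UU_double (2 * 2 ^ j)
  have h2 := UU_double (2 * (2 * 2 ^ j))
  have h3 := UU_double (2 * (2 * (2 * 2 ^ j)))
  rw [show 2 * (2 * (2 * (2 * 2 ^ j))) = 2 ^ (j + 4) by ring] at h3
  linarith

lemma UU_eight {k : ℕ} (hk : 3 ≤ k) : UU (2 ^ k) ≤ 8 * UU (2 ^ (k - 3)) := by
  obtain ⟨j, rfl⟩ : ∃ j, k = j + 3 := ⟨k - 3, by omega⟩
  rw [show j + 3 - 3 = j by omega]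
  have h0 := UU_double (2 ^ j)
  have h1 := UU_double (2 * 2 ^ j)
  have h2 := UU_double (2 * (2 * 2 ^ j))
  rw [show 2 * (2 * (2 * 2 ^ j)) = 2 ^ (j + 3) by ring] at h2
  linarith

lemma quarter (n : ℕ) : ((1 : ℝ) / 4) ^ n = (2 : ℝ) ^ (-(2 * (n : ℝ))) := by
  rw [show (1 : ℝ) / 4 = (2 : ℝ) ^ (-2 : ℝ) by norm_num [Real.rpow_neg], ← Real.rpow_natCast,
    ← Real.rpow_mul (by norm_num)]
  congr 1
  ring

lemma vb_le_one {k b r : ℕ} : vb k b r ≤ 1 := by
  unfold vb
  split_ifs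
  · exact zero_le
  · exact min_le_left _ _

/-- the flat giants -/
lemma flat_avg : ∃ (A : ℕ) (K : ℝ), 0 < K ∧ ∀ k lo hi N : ℕ, 5 ≤ k → lo ≤ hi → hi ≤ k + 1 →
    ∑ r ∈ Finset.range N, vb k lo r * gf {I | I ∈ Irr r ∧ Bad A lo hi I} ≤
      ENNReal.ofReal (K / UU (2 ^ k) * (2 : ℝ) ^ ((k : ℝ) - hi - 2 * ((hi : ℝ) - lo))) := by
  obtain ⟨A, Cf, hCf, hA⟩ := Wall.flat_tail_sy 8 (ε := 1 / 4) (by norm_num)
  obtain ⟨Cv, hCv, hv⟩ := sum_vb
  refine ⟨A, Cv * 2 ^ (81 : ℕ) + 64 * Cf * 2 ^ (11 : ℕ), by positivity, fun k lo hi N hk hlo hhi => ?_⟩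
  have hU := Num2Aux.UU_pos (2 ^ k)
  have hU4 := Num2Aux.UU_pos (2 ^ (k - 4))
  rcases Nat.lt_or_ge (hi - lo) 40 with h40 | h40
  · -- few scales
    have h1 : ∑ r ∈ Finset.range N, vb k lo r * gf {I | I ∈ Irr r ∧ Bad A lo hi I} ≤
        ENNReal.ofReal (Cv / UU (2 ^ k)) := by
      refine le_trans (Finset.sum_le_sum fun r _ => ?_) (hv k lo N (by omega))
      gcongr
      exact gf_mono fun t ht => ht.1
    refine h1.trans (ENNReal.ofReal_le_ofReal ?_)
    have h2 : (2 : ℝ) ^ (-(81 : ℝ)) ≤ (2 : ℝ) ^ ((k : ℝ) - hi - 2 * ((hi : ℝ) - lo)) := by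
      apply Real.rpow_le_rpow_of_exponent_le (by norm_num)
      have h3 : (hi : ℝ) ≤ lo + 40 := by exact_mod_cast (show hi ≤ lo + 40 by omega)
      have h4 : (hi : ℝ) ≤ k + 1 := by exact_mod_cast hhi
      linarith
    have h3 : (2 : ℝ) ^ (81 : ℕ) * (2 : ℝ) ^ (-(81 : ℝ)) = 1 := by
      rw [← Real.rpow_natCast, ← Real.rpow_add (by norm_num)]
      norm_num
    calc Cv / UU (2 ^ k) = Cv * ((2 : ℝ) ^ (81 : ℕ) * (2 : ℝ) ^ (-(81 : ℝ))) / UU (2 ^ k) := by rw [h3, mul_one]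
      _ = (Cv * 2 ^ (81 : ℕ)) / UU (2 ^ k) * (2 : ℝ) ^ (-(81 : ℝ)) := by ring
      _ ≤ (Cv * 2 ^ (81 : ℕ) + 64 * Cf * 2 ^ (11 : ℕ)) / UU (2 ^ k) *
          (2 : ℝ) ^ ((k : ℝ) - hi - 2 * ((hi : ℝ) - lo)) := by
        gcongr
        have : 0 < 64 * Cf * 2 ^ (11 : ℕ) := by positivity
        linarith
  · -- many scales
    obtain ⟨k1, hk1⟩ : ∃ k1, k1 = min hi (k - 4) := ⟨_, rfl⟩
    have hk1a : k1 ≤ hi := by omega
    have hk1b : k1 ≤ k - 4 := by omega
    have hk1c : hi ≤ k1 + 5 := by omega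
    have hk1d : lo + 1 ≤ k1 := by omega
    have hpt : ∀ r, vb k lo r * gf {I | I ∈ Irr r ∧ Bad A lo hi I} ≤
        if r ∈ Finset.Ioc (2 ^ (k - 4)) r then
          ∑ u : Bool, ∑ v : Bool, gf (Wall.FS u v 8 A (lo + 1) k1 r) else 0 := by
      intro r
      split_ifs with hr
      · have h1 : gf {I | I ∈ Irr r ∧ Bad A lo hi I} ≤
            ∑ u : Bool, ∑ v : Bool, gf (Wall.FS u v 8 A (lo + 1) k1 r) := by
          have h2 : {I | I ∈ Irr r ∧ Bad A lo hi I} ⊆
              (Wall.FS false false 8 A (lo + 1) k1 r ∪ Wall.FS false true 8 A (lo + 1) k1 r) ∪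
              (Wall.FS true false 8 A (lo + 1) k1 r ∪ Wall.FS true true 8 A (lo + 1) k1 r) := by
            rintro I ⟨hI, u, v, h⟩
            have h3 : I ∈ Wall.FS u v 8 A (lo + 1) k1 r := by
              refine ⟨hI, ?_⟩
              obtain ⟨n, hn⟩ : ∃ n, hi = k1 + n := ⟨hi - k1, by omega⟩
              have h4 := nflat_add A (Wall.sy u v I) (lo + 1) k1 n
              rw [← hn] at h4
              omega
            cases u <;> cases v
            · exact Or.inl (Or.inl h3)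
            · exact Or.inl (Or.inr h3)
            · exact Or.inr (Or.inl h3)
            · exact Or.inr (Or.inr h3)
          refine (gf_mono h2).trans ?_
          refine (gf_union_le _ _).trans ?_
          refine (add_le_add (gf_union_le _ _) (gf_union_le _ _)).trans ?_
          simp only [Fintype.sum_bool]
          apply le_of_eq
          ring
        calc vb k lo r * gf {I | I ∈ Irr r ∧ Bad A lo hi I} ≤ 1 * gf {I | I ∈ Irr r ∧ Bad A lo hi I} := by
              gcongr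
              exact vb_le_one
          _ ≤ _ := by
              rw [one_mul]
              exact h1
      · rw [Finset.mem_Ioc] at hr
        have h1 : vb k lo r = 0 := by
          unfold vb
          rw [if_pos ⟨by omega, by omega⟩]
        rw [h1, zero_mul]
    have h1 : ∑ r ∈ Finset.range N, vb k lo r * gf {I | I ∈ Irr r ∧ Bad A lo hi I} ≤
        ∑ u : Bool, ∑ v : Bool, ∑ r ∈ Finset.Ioc (2 ^ (k - 4)) N, gf (Wall.FS u v 8 A (lo + 1) k1 r) := by
      calc ∑ r ∈ Finset.range N, vb k lo r * gf {I | I ∈ Irr r ∧ Bad A lo hi I}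
          ≤ ∑ r ∈ Finset.range N, if r ∈ Finset.Ioc (2 ^ (k - 4)) r then
              ∑ u : Bool, ∑ v : Bool, gf (Wall.FS u v 8 A (lo + 1) k1 r) else 0 :=
            Finset.sum_le_sum fun r _ => hpt r
        _ = ∑ r ∈ (Finset.range N).filter (fun r => r ∈ Finset.Ioc (2 ^ (k - 4)) r),
              ∑ u : Bool, ∑ v : Bool, gf (Wall.FS u v 8 A (lo + 1) k1 r) := by rw [Finset.sum_filter]
        _ ≤ ∑ r ∈ Finset.Ioc (2 ^ (k - 4)) N, ∑ u : Bool, ∑ v : Bool, gf (Wall.FS u v 8 A (lo + 1) k1 r) := by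
            apply Finset.sum_le_sum_of_subset
            intro r hr
            simp only [Finset.mem_filter, Finset.mem_range, Finset.mem_Ioc] at hr ⊢
            omega
        _ = _ := by
            rw [Finset.sum_comm]
            refine Finset.sum_congr rfl fun u _ => ?_
            rw [Finset.sum_comm]
    refine h1.trans ?_
    obtain ⟨B, hB⟩ : ∃ B : ℝ, B = Cf / UU (2 ^ (k - 4)) * (((2 ^ (k - 4) : ℕ) : ℝ) / 2 ^ k1) *
        (1 / 4) ^ (k1 + 1 - (lo + 1)) := ⟨_, rfl⟩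
    have hB0 : 0 ≤ B := by rw [hB]; positivity
    have h2 : ∀ u v : Bool, ∑ r ∈ Finset.Ioc (2 ^ (k - 4)) N, gf (Wall.FS u v 8 A (lo + 1) k1 r) ≤
        ENNReal.ofReal B := by
      intro u v
      rw [hB]
      exact hA u v A (lo + 1) k1 (2 ^ (k - 4)) N le_rfl hk1d (Nat.pow_le_pow_right (by norm_num) hk1b)
    have h3 : ∑ u : Bool, ∑ v : Bool, ∑ r ∈ Finset.Ioc (2 ^ (k - 4)) N, gf (Wall.FS u v 8 A (lo + 1) k1 r) ≤
        ENNReal.ofReal (4 * B) := by
      simp only [Fintype.sum_bool]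
      calc _ ≤ (ENNReal.ofReal B + ENNReal.ofReal B) + (ENNReal.ofReal B + ENNReal.ofReal B) := by
            gcongr <;> exact h2 _ _
        _ = ENNReal.ofReal (4 * B) := by
            rw [← ENNReal.ofReal_add hB0 hB0, ← ENNReal.ofReal_add (by linarith) (by linarith)]
            congr 1
            ring
    refine h3.trans (ENNReal.ofReal_le_ofReal ?_)
    have h4 : B = Cf / UU (2 ^ (k - 4)) * (2 : ℝ) ^ (((k - 4 : ℕ) : ℝ) - k1 - 2 * ((k1 - lo : ℕ) : ℝ)) := by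
      rw [hB, show k1 + 1 - (lo + 1) = k1 - lo by omega, quarter]
      push_cast
      rw [← Real.rpow_natCast, ← Real.rpow_natCast (2 : ℝ) k1, mul_assoc, ← Real.rpow_sub (by norm_num),
        ← Real.rpow_add (by norm_num)]
      congr 2
    have h5 : (2 : ℝ) ^ (((k - 4 : ℕ) : ℝ) - k1 - 2 * ((k1 - lo : ℕ) : ℝ)) ≤
        (2 : ℝ) ^ (11 : ℕ) * (2 : ℝ) ^ ((k : ℝ) - hi - 2 * ((hi : ℝ) - lo)) := by
      rw [← Real.rpow_natCast, ← Real.rpow_add (by norm_num)]
      apply Real.rpow_le_rpow_of_exponent_le (by norm_num)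
      rw [Nat.cast_sub (by omega), Nat.cast_sub (by omega)]
      have h6 : (hi : ℝ) ≤ k1 + 5 := by exact_mod_cast hk1c
      push_cast
      linarith
    have h6 : 1 / UU (2 ^ (k - 4)) ≤ 16 / UU (2 ^ k) := by
      rw [div_le_div_iff₀ hU4 hU]
      have := UU_sixteen (k := k) (by omega)
      linarith
    calc 4 * B = 4 * Cf * (1 / UU (2 ^ (k - 4))) *
          (2 : ℝ) ^ (((k - 4 : ℕ) : ℝ) - k1 - 2 * ((k1 - lo : ℕ) : ℝ)) := by rw [h4]; ring
      _ ≤ 4 * Cf * (16 / UU (2 ^ k)) * ((2 : ℝ) ^ (11 : ℕ) * (2 : ℝ) ^ ((k : ℝ) - hi - 2 * ((hi : ℝ) - lo))) := by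
          gcongr
      _ = (64 * Cf * 2 ^ (11 : ℕ)) / UU (2 ^ k) * (2 : ℝ) ^ ((k : ℝ) - hi - 2 * ((hi : ℝ) - lo)) := by ring
      _ ≤ _ := by
          gcongr
          have : 0 < Cv * 2 ^ (81 : ℕ) := by positivity
          linarith

/-- the giants with a return -/
lemma ret_avg {c : ℝ} (hc : 0 < c) : ∃ K : ℝ, 0 < K ∧ ∀ (k lo hi s : ℕ) (X : ℝ), 5 ≤ k → lo < hi → hi ≤ k + 1 →
    1 ≤ X → RetB X c (4 * s + 1) → ∑ r ∈ Finset.range (4 * s + 1), vb k lo r *
      gf {I | I ∈ Irr r ∧ Ret (2 ^ (hi - (hi - lo) / 4 + 2)) (2 ^ (k - 1 - 2)) I} ≤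
      ENNReal.ofReal (K / UU (2 ^ k) * (X * (2 : ℝ) ^ (-(c * ((k : ℝ) - hi + ((hi : ℝ) - lo) / 4))))) := by
  obtain ⟨Cv, hCv, hv⟩ := sum_vb
  obtain ⟨E, hE⟩ : ∃ E : ℝ, E = (2 : ℝ) ^ (c * 6) := ⟨_, rfl⟩
  have hE0 : 0 < E := by rw [hE]; positivity
  refine ⟨(Cv + 8) * E, by positivity, fun k lo hi s X hk hlo hhi hX hR => ?_⟩
  have hU := Num2Aux.UU_pos (2 ^ k)
  have hU3 := Num2Aux.UU_pos (2 ^ (k - 3))
  have hq1 : (((hi - lo) / 4 : ℕ) : ℝ) ≥ ((hi : ℝ) - lo) / 4 - 1 := by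
    have h1 : hi ≤ lo + 4 * ((hi - lo) / 4) + 3 := by omega
    have h2 : (hi : ℝ) ≤ lo + 4 * (((hi - lo) / 4 : ℕ) : ℝ) + 3 := by exact_mod_cast h1
    linarith
  rw [show k - 1 - 2 = k - 3 by omega]
  rcases Nat.lt_or_ge (k - 3) (hi - (hi - lo) / 4 + 2) with h | h
  · -- trivial case
    have h1 : ∑ r ∈ Finset.range (4 * s + 1), vb k lo r *
        gf {I | I ∈ Irr r ∧ Ret (2 ^ (hi - (hi - lo) / 4 + 2)) (2 ^ (k - 3)) I} ≤
        ENNReal.ofReal (Cv / UU (2 ^ k)) := by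
      refine le_trans (Finset.sum_le_sum fun r _ => ?_) (hv k lo (4 * s + 1) (by omega))
      gcongr
      exact gf_mono fun t ht => ht.1
    refine h1.trans (ENNReal.ofReal_le_ofReal ?_)
    have h2 : (k : ℝ) + (((hi - lo) / 4 : ℕ) : ℝ) ≤ hi + 4 := by
      have : k + (hi - lo) / 4 ≤ hi + 4 := by omega
      exact_mod_cast this
    have h3 : 1 ≤ E * (2 : ℝ) ^ (-(c * ((k : ℝ) - hi + ((hi : ℝ) - lo) / 4))) := by
      rw [hE, ← Real.rpow_add (by norm_num)]
      apply Real.one_le_rpow (by norm_num)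
      have h4 : 0 ≤ c * (6 - ((k : ℝ) - hi + ((hi : ℝ) - lo) / 4)) := by
        apply mul_nonneg hc.le
        linarith
      linarith
    calc Cv / UU (2 ^ k) = Cv / UU (2 ^ k) * (1 * 1) := by ring
      _ ≤ Cv / UU (2 ^ k) * (X * (E * (2 : ℝ) ^ (-(c * ((k : ℝ) - hi + ((hi : ℝ) - lo) / 4))))) := by
          gcongr
      _ = Cv * E / UU (2 ^ k) * (X * (2 : ℝ) ^ (-(c * ((k : ℝ) - hi + ((hi : ℝ) - lo) / 4)))) := by ring
      _ ≤ _ := by
          gcongr
          linarith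
  · -- returns
    have h1 : ∑ r ∈ Finset.range (4 * s + 1), vb k lo r *
        gf {I | I ∈ Irr r ∧ Ret (2 ^ (hi - (hi - lo) / 4 + 2)) (2 ^ (k - 3)) I} ≤
        ENNReal.ofReal (X / UU (2 ^ (k - 3)) *
          ((((2 ^ (hi - (hi - lo) / 4 + 2) : ℕ) : ℝ)) / ((2 ^ (k - 3) : ℕ) : ℝ)) ^ c) := by
      refine le_trans (Finset.sum_le_sum fun r _ => ?_) (hR (2 ^ (hi - (hi - lo) / 4 + 2)) (2 ^ (k - 3))
        Nat.one_le_two_pow (Nat.pow_le_pow_right (by norm_num) h))
      calc vb k lo r * gf {I | I ∈ Irr r ∧ Ret (2 ^ (hi - (hi - lo) / 4 + 2)) (2 ^ (k - 3)) I}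
          ≤ 1 * gf {I | I ∈ Irr r ∧ Ret (2 ^ (hi - (hi - lo) / 4 + 2)) (2 ^ (k - 3)) I} := by
            gcongr
            exact vb_le_one
        _ = KR (2 ^ (hi - (hi - lo) / 4 + 2)) (2 ^ (k - 3)) r := by
            rw [one_mul]
            rfl
    refine h1.trans (ENNReal.ofReal_le_ofReal ?_)
    have h2 : (((2 ^ (hi - (hi - lo) / 4 + 2) : ℕ) : ℝ) / ((2 ^ (k - 3) : ℕ) : ℝ)) ^ c =
        (2 : ℝ) ^ (((hi - (hi - lo) / 4 + 2 : ℕ) : ℝ) * c - ((k - 3 : ℕ) : ℝ) * c) := by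
      push_cast
      rw [← Real.rpow_natCast, ← Real.rpow_natCast (2 : ℝ) (k - 3), ← Real.rpow_sub (by norm_num),
        ← Real.rpow_mul (by norm_num)]
      congr 1
      push_cast
      ring
    have h3 : (2 : ℝ) ^ (((hi - (hi - lo) / 4 + 2 : ℕ) : ℝ) * c - ((k - 3 : ℕ) : ℝ) * c) ≤
        E * (2 : ℝ) ^ (-(c * ((k : ℝ) - hi + ((hi : ℝ) - lo) / 4))) := by
      rw [hE, ← Real.rpow_add (by norm_num)]
      apply Real.rpow_le_rpow_of_exponent_le (by norm_num)
      rw [Nat.cast_sub (show 3 ≤ k by omega), Nat.cast_add,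
        Nat.cast_sub (show (hi - lo) / 4 ≤ hi by omega)]
      have h4 : 0 ≤ c * (1 - ((hi : ℝ) - lo) / 4 + (((hi - lo) / 4 : ℕ) : ℝ)) := by
        apply mul_nonneg hc.le
        linarith
      push_cast
      linarith
    have h4 : 1 / UU (2 ^ (k - 3)) ≤ 8 / UU (2 ^ k) := by
      rw [div_le_div_iff₀ hU3 hU]
      have := UU_eight (k := k) (by omega)
      linarith
    rw [h2]
    calc X / UU (2 ^ (k - 3)) * (2 : ℝ) ^ (((hi - (hi - lo) / 4 + 2 : ℕ) : ℝ) * c - ((k - 3 : ℕ) : ℝ) * c)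
        = X * (1 / UU (2 ^ (k - 3))) *
          (2 : ℝ) ^ (((hi - (hi - lo) / 4 + 2 : ℕ) : ℝ) * c - ((k - 3 : ℕ) : ℝ) * c) := by ring
      _ ≤ X * (8 / UU (2 ^ k)) * (E * (2 : ℝ) ^ (-(c * ((k : ℝ) - hi + ((hi : ℝ) - lo) / 4)))) := by
          gcongr
      _ = 8 * E / UU (2 ^ k) * (X * (2 : ℝ) ^ (-(c * ((k : ℝ) - hi + ((hi : ℝ) - lo) / 4)))) := by ring
      _ ≤ _ := by
          gcongr
          linarith

/-- the gain of FoldGain -/
noncomputable def Dg (δ : ℝ) (a b : ℕ) : ℝ := (2 : ℝ) ^ (-(δ * |(a : ℝ) - b|))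

lemma Dg_pos (δ : ℝ) (a b : ℕ) : 0 < Dg δ a b := by
  unfold Dg
  positivity

lemma g2_triv {A : ℕ} {C δ : ℝ} (hF : FoldGain A C δ) {k a b : ℕ} (hk : 4 ≤ k) (ha : a < k - 1) (hb : b < k + 2)
    {R : List Bool → List Bool → Prop} (hR : ∀ X Y, R X Y → Fold7 (2 ^ (k - 1)) X Y) :
    g2 (Bk a) (Bk b) R ≤ ENNReal.ofReal (C * UU (2 ^ max a b)) :=
  (g2_mono subset_rfl subset_rfl fun X Y _ _ h => hR X Y h).trans (hF (k - 1) a b (by omega) ha (by omega)).1

/-- type 1 -/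
lemma g2_t1 {A : ℕ} {C δ : ℝ} (hC : 0 < C) (hF : FoldGain A C δ) {k a b r : ℕ} {J : List Bool} (hk : 4 ≤ k)
    (ha : a < k - 1) (hb : b < k + 2) (hba : b ≤ a) (hJ : J ∈ Irr r)
    {R : List Bool → List Bool → Prop} (hR : ∀ X Y, R X Y → Fold7 (2 ^ (k - 1)) X (Y ++ J)) :
    g2 (Bk a) (Bk b) R ≤ ENNReal.ofReal (C * UU (2 ^ max a b)) *
      min 1 (ENNReal.ofReal (Dg δ a b) + ind (Bad A b a J)) := by
  have hU := Num2Aux.UU_pos (2 ^ max a b)
  have h0 : g2 (Bk a) (Bk b) R ≤ ENNReal.ofReal (C * UU (2 ^ max a b)) :=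
    g2_triv hF hk ha hb fun X Y h => fold_right hJ (hR X Y h)
  by_cases hbad : Bad A b a J
  · rw [ind_true hbad, min_eq_left le_add_self, mul_one]
    exact h0
  · rw [ind_false hbad, add_zero]
    rcases le_total 1 (ENNReal.ofReal (Dg δ a b)) with h1 | h1
    · rw [min_eq_left h1, mul_one]
      exact h0
    · rw [min_eq_right h1]
      refine (g2_mono subset_rfl subset_rfl fun X Y _ _ h => hR X Y h).trans ?_
      refine ((hF (k - 1) a b (by omega) ha (by omega)).2.1 hba r J hJ hbad).trans ?_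
      rw [← ENNReal.ofReal_mul (by positivity), max_eq_left hba]
      apply ENNReal.ofReal_le_ofReal
      unfold Dg
      have h2 : |(a : ℝ) - b| = a - b := abs_of_nonneg (by
        have : (b : ℝ) ≤ a := by exact_mod_cast hba
        linarith)
      rw [h2]

/-- type 2 -/
lemma g2_t2 {A : ℕ} {C δ : ℝ} (hC : 0 < C) (hF : FoldGain A C δ) {k a b r : ℕ} {I : List Bool} (hk : 4 ≤ k)
    (ha : a < k - 1) (hb : b < k + 2) (hab : a < b) (hI : I ∈ Irr r)
    {R : List Bool → List Bool → Prop} (hR : ∀ X Y, R X Y → Fold7 (2 ^ (k - 1)) (X ++ I) Y) :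
    g2 (Bk a) (Bk b) R ≤ ENNReal.ofReal (C * UU (2 ^ max a b)) *
      (ENNReal.ofReal (Dg δ a b) + ind (Bad A a b I) + ind (Ret (2 ^ (b - (b - a) / 4 + 2)) (2 ^ (k - 1 - 2)) I)) := by
  have hU := Num2Aux.UU_pos (2 ^ max a b)
  have h0 : g2 (Bk a) (Bk b) R ≤ ENNReal.ofReal (C * UU (2 ^ max a b)) * 1 := by
    rw [mul_one]
    exact g2_triv hF hk ha hb fun X Y h => fold_left hI (hR X Y h)
  by_cases hbad : Bad A a b I
  · refine h0.trans ?_
    gcongr
    rw [ind_true hbad, add_assoc]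
    exact le_add_left le_self_add
  · by_cases hret : Ret (2 ^ (b - (b - a) / 4 + 2)) (2 ^ (k - 1 - 2)) I
    · refine h0.trans ?_
      gcongr
      rw [ind_true hret]
      exact le_add_self
    · rw [ind_false hbad, ind_false hret, add_zero, add_zero]
      refine (g2_mono subset_rfl subset_rfl fun X Y _ _ h => hR X Y h).trans ?_
      refine ((hF (k - 1) a b (by omega) ha (by omega)).2.2 hab r I hI hbad hret).trans ?_
      rw [← ENNReal.ofReal_mul (by positivity), max_eq_right hab.le]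
      apply ENNReal.ofReal_le_ofReal
      unfold Dg
      have h2 : |(a : ℝ) - b| = b - a := by
        rw [abs_sub_comm]
        exact abs_of_nonneg (by
          have : (a : ℝ) ≤ b := by exact_mod_cast hab.le
          linarith)
      rw [h2]

lemma GA_split (δ c X : ℝ) (k a b : ℕ) : GA δ c X k a b = Dg δ a b +
    (2 : ℝ) ^ ((k : ℝ) - (max a b : ℕ) - 2 * |(a : ℝ) - b|) +
      X * (2 : ℝ) ^ (-(c * ((k : ℝ) - (max a b : ℕ) + |(a : ℝ) - b| / 4))) := rfl

lemma GA_pos {δ c X : ℝ} (hX : 1 ≤ X) (k a b : ℕ) : 0 < GA δ c X k a b := by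
  unfold GA
  have hX0 : 0 < X := by linarith
  positivity

/-- average of the type 1 gains -/
lemma avg_t1 {A : ℕ} {K Cv δ c X : ℝ} (hK : 0 < K) (hCv : 0 < Cv) (hX : 1 ≤ X) {k a b N : ℕ}
    (hk : 5 ≤ k) (hba : b ≤ a) (ha : a ≤ k + 1)
    (hflat : ∀ k lo hi N : ℕ, 5 ≤ k → lo ≤ hi → hi ≤ k + 1 →
      ∑ r ∈ Finset.range N, vb k lo r * gf {I | I ∈ Irr r ∧ Bad A lo hi I} ≤
        ENNReal.ofReal (K / UU (2 ^ k) * (2 : ℝ) ^ ((k : ℝ) - hi - 2 * ((hi : ℝ) - lo))))
    (hv : ∀ k b N : ℕ, 4 ≤ k → ∑ r ∈ Finset.range N, vb k b r * gf (Irr r) ≤ ENNReal.ofReal (Cv / UU (2 ^ k))) :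
    ∑ r ∈ Finset.range N, vb k b r * sw (Irr r) (fun I => ENNReal.ofReal (Dg δ a b) + ind (Bad A b a I)) ≤
      ENNReal.ofReal ((K + Cv) / UU (2 ^ k) * GA δ c X k a b) := by
  have hU := Num2Aux.UU_pos (2 ^ k)
  have hD := Dg_pos δ a b
  have h1 : ∀ r, vb k b r * sw (Irr r) (fun I => ENNReal.ofReal (Dg δ a b) + ind (Bad A b a I)) =
      vb k b r * gf (Irr r) * ENNReal.ofReal (Dg δ a b) + vb k b r * gf {I | I ∈ Irr r ∧ Bad A b a I} := by
    intro r
    rw [sw_add, sw_const, sw_ind]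
    ring
  rw [Finset.sum_congr rfl fun r _ => h1 r, Finset.sum_add_distrib, ← Finset.sum_mul]
  have hab : |(a : ℝ) - b| = a - b := abs_of_nonneg (by
    have : (b : ℝ) ≤ a := by exact_mod_cast hba
    linarith)
  calc _ ≤ ENNReal.ofReal (Cv / UU (2 ^ k)) * ENNReal.ofReal (Dg δ a b) +
        ENNReal.ofReal (K / UU (2 ^ k) * (2 : ℝ) ^ ((k : ℝ) - a - 2 * ((a : ℝ) - b))) := by
        gcongr
        · exact hv k b N (by omega)
        · exact hflat k b a N hk hba ha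
    _ = ENNReal.ofReal (Cv / UU (2 ^ k) * Dg δ a b +
          K / UU (2 ^ k) * (2 : ℝ) ^ ((k : ℝ) - a - 2 * ((a : ℝ) - b))) := by
        rw [← ENNReal.ofReal_mul (by positivity), ← ENNReal.ofReal_add (by positivity) (by positivity)]
    _ ≤ _ := by
        apply ENNReal.ofReal_le_ofReal
        rw [GA_split, max_eq_left hba, hab]
        obtain ⟨Q, hQ⟩ : ∃ Q : ℝ, Q = (2 : ℝ) ^ ((k : ℝ) - a - 2 * ((a : ℝ) - b)) := ⟨_, rfl⟩
        obtain ⟨W, hW⟩ : ∃ W : ℝ, W = (2 : ℝ) ^ (-(c * ((k : ℝ) - a + ((a : ℝ) - b) / 4))) := ⟨_, rfl⟩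
        have hQ0 : 0 < Q := by rw [hQ]; positivity
        have hW0 : 0 < W := by rw [hW]; positivity
        have hX0 : 0 < X := by linarith
        rw [← hQ, ← hW]
        calc Cv / UU (2 ^ k) * Dg δ a b + K / UU (2 ^ k) * Q ≤
              (K + Cv) / UU (2 ^ k) * Dg δ a b + (K + Cv) / UU (2 ^ k) * Q := by
              gcongr <;> linarith
          _ = (K + Cv) / UU (2 ^ k) * (Dg δ a b + Q) := by ring
          _ ≤ (K + Cv) / UU (2 ^ k) * (Dg δ a b + Q + X * W) := by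
              apply mul_le_mul_of_nonneg_left _ (by positivity)
              have : 0 < X * W := by positivity
              linarith

/-- average of the type 2 gains -/
lemma avg_t2 {A : ℕ} {K Kr Cv δ c X : ℝ} (hK : 0 < K) (hKr : 0 < Kr) (hCv : 0 < Cv) (hX : 1 ≤ X) {k a b s : ℕ}
    (hk : 5 ≤ k) (hab : a < b) (hb : b ≤ k + 1) (hR : RetB X c (4 * s + 1))
    (hflat : ∀ k lo hi N : ℕ, 5 ≤ k → lo ≤ hi → hi ≤ k + 1 →
      ∑ r ∈ Finset.range N, vb k lo r * gf {I | I ∈ Irr r ∧ Bad A lo hi I} ≤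
        ENNReal.ofReal (K / UU (2 ^ k) * (2 : ℝ) ^ ((k : ℝ) - hi - 2 * ((hi : ℝ) - lo))))
    (hret : ∀ (k lo hi s : ℕ) (X : ℝ), 5 ≤ k → lo < hi → hi ≤ k + 1 →
      1 ≤ X → RetB X c (4 * s + 1) → ∑ r ∈ Finset.range (4 * s + 1), vb k lo r *
      gf {I | I ∈ Irr r ∧ Ret (2 ^ (hi - (hi - lo) / 4 + 2)) (2 ^ (k - 1 - 2)) I} ≤
      ENNReal.ofReal (Kr / UU (2 ^ k) * (X * (2 : ℝ) ^ (-(c * ((k : ℝ) - hi + ((hi : ℝ) - lo) / 4))))))
    (hv : ∀ k b N : ℕ, 4 ≤ k → ∑ r ∈ Finset.range N, vb k b r * gf (Irr r) ≤ ENNReal.ofReal (Cv / UU (2 ^ k))) :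
    ∑ r ∈ Finset.range (4 * s + 1), vb k a r * sw (Irr r) (fun I => ENNReal.ofReal (Dg δ a b) + ind (Bad A a b I) +
      ind (Ret (2 ^ (b - (b - a) / 4 + 2)) (2 ^ (k - 1 - 2)) I)) ≤
      ENNReal.ofReal ((K + Kr + Cv) / UU (2 ^ k) * GA δ c X k a b) := by
  have hU := Num2Aux.UU_pos (2 ^ k)
  have hD := Dg_pos δ a b
  have h1 : ∀ r, vb k a r * sw (Irr r) (fun I => ENNReal.ofReal (Dg δ a b) + ind (Bad A a b I) +
      ind (Ret (2 ^ (b - (b - a) / 4 + 2)) (2 ^ (k - 1 - 2)) I)) =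
      vb k a r * gf (Irr r) * ENNReal.ofReal (Dg δ a b) + vb k a r * gf {I | I ∈ Irr r ∧ Bad A a b I} +
      vb k a r * gf {I | I ∈ Irr r ∧ Ret (2 ^ (b - (b - a) / 4 + 2)) (2 ^ (k - 1 - 2)) I} := by
    intro r
    rw [sw_add, sw_add, sw_const, sw_ind, sw_ind]
    ring
  rw [Finset.sum_congr rfl fun r _ => h1 r, Finset.sum_add_distrib, Finset.sum_add_distrib, ← Finset.sum_mul]
  have hX0 : 0 < X := by linarith
  have hab' : |(a : ℝ) - b| = b - a := by
    rw [abs_sub_comm]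
    exact abs_of_nonneg (by
      have : (a : ℝ) ≤ b := by exact_mod_cast hab.le
      linarith)
  obtain ⟨Q, hQ⟩ : ∃ Q : ℝ, Q = (2 : ℝ) ^ ((k : ℝ) - b - 2 * ((b : ℝ) - a)) := ⟨_, rfl⟩
  obtain ⟨W, hW⟩ : ∃ W : ℝ, W = (2 : ℝ) ^ (-(c * ((k : ℝ) - b + ((b : ℝ) - a) / 4))) := ⟨_, rfl⟩
  have hQ0 : 0 < Q := by rw [hQ]; positivity
  have hW0 : 0 < W := by rw [hW]; positivity
  calc _ ≤ ENNReal.ofReal (Cv / UU (2 ^ k)) * ENNReal.ofReal (Dg δ a b) + ENNReal.ofReal (K / UU (2 ^ k) * Q) +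
        ENNReal.ofReal (Kr / UU (2 ^ k) * (X * W)) := by
        rw [hQ, hW]
        gcongr
        · exact hv k a _ (by omega)
        · exact hflat k a b _ hk hab.le hb
        · exact hret k a b s X hk hab hb hX hR
    _ = ENNReal.ofReal (Cv / UU (2 ^ k) * Dg δ a b + K / UU (2 ^ k) * Q + Kr / UU (2 ^ k) * (X * W)) := by
        rw [← ENNReal.ofReal_mul (by positivity), ← ENNReal.ofReal_add (by positivity) (by positivity),
          ← ENNReal.ofReal_add (by positivity) (by positivity)]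
    _ ≤ _ := by
        apply ENNReal.ofReal_le_ofReal
        rw [GA_split, max_eq_right hab.le, hab', ← hQ, ← hW]
        calc Cv / UU (2 ^ k) * Dg δ a b + K / UU (2 ^ k) * Q + Kr / UU (2 ^ k) * (X * W) ≤
              (K + Kr + Cv) / UU (2 ^ k) * Dg δ a b + (K + Kr + Cv) / UU (2 ^ k) * Q +
                (K + Kr + Cv) / UU (2 ^ k) * (X * W) := by
              gcongr <;> linarith
          _ = _ := by ring

/-- the giants of the strand X: type 2 -/
lemma sum_t2 {A : ℕ} {C G Cv δ c X : ℝ} (hC : 0 < C) (hG : 0 < G) (hCv : 0 < Cv) (hX : 1 ≤ X)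
    (hF : FoldGain A C δ) {k a b s q : ℕ} {I : List Bool} (hk : 5 ≤ k) (ha : a < k - 1) (hb : b < k + 2) (hab : a < b)
    (hI : I ∈ Irr q)
    (havg : ∑ r ∈ Finset.range (4 * s + 1), vb k a r * sw (Irr r) (fun I => ENNReal.ofReal (Dg δ a b) +
      ind (Bad A a b I) + ind (Ret (2 ^ (b - (b - a) / 4 + 2)) (2 ^ (k - 1 - 2)) I)) ≤
      ENNReal.ofReal (G / UU (2 ^ k) * GA δ c X k a b))
    (hv : ∀ k b N : ℕ, 4 ≤ k → ∑ r ∈ Finset.range N, vb k b r * gf (Irr r) ≤ ENNReal.ofReal (Cv / UU (2 ^ k))) :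
    ∑ r ∈ Finset.range (4 * s + 1), vb k a r * sw (Irr r) (fun I1 =>
      g2 (Bk a) (Bk b) (fun X Y => Fold7 (2 ^ (k - 1)) (X ++ I1) (Y ++ I))) ≤
      ENNReal.ofReal ((G + Cv) * C * (UU (2 ^ max a b) / UU (2 ^ k)) * min 1 (GA δ c X k a b)) := by
  have hU := Num2Aux.UU_pos (2 ^ k)
  have hU' := Num2Aux.UU_pos (2 ^ max a b)
  have hGA := GA_pos (δ := δ) (c := c) hX k a b
  have h1 : ∑ r ∈ Finset.range (4 * s + 1), vb k a r * sw (Irr r) (fun I1 =>
      g2 (Bk a) (Bk b) (fun X Y => Fold7 (2 ^ (k - 1)) (X ++ I1) (Y ++ I))) ≤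
      ENNReal.ofReal ((G + Cv) * C * (UU (2 ^ max a b) / UU (2 ^ k)) * 1) := by
    calc _ ≤ ∑ r ∈ Finset.range (4 * s + 1), vb k a r * gf (Irr r) * ENNReal.ofReal (C * UU (2 ^ max a b)) := by
          apply Finset.sum_le_sum
          intro r _
          rw [mul_assoc, ← sw_const]
          gcongr
          refine sw_mono subset_rfl fun I1 hI1 => ?_
          exact g2_triv hF (by omega) ha hb fun X Y h => fold_left hI1 (fold_right hI h)
      _ = (∑ r ∈ Finset.range (4 * s + 1), vb k a r * gf (Irr r)) * ENNReal.ofReal (C * UU (2 ^ max a b)) := by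
          rw [Finset.sum_mul]
      _ ≤ ENNReal.ofReal (Cv / UU (2 ^ k)) * ENNReal.ofReal (C * UU (2 ^ max a b)) := by
          gcongr
          exact hv k a _ (by omega)
      _ = ENNReal.ofReal (Cv * C * (UU (2 ^ max a b) / UU (2 ^ k)) * 1) := by
          rw [← ENNReal.ofReal_mul (by positivity)]
          congr 1
          ring
      _ ≤ _ := by
          apply ENNReal.ofReal_le_ofReal
          gcongr
          linarith
  have h2 : ∑ r ∈ Finset.range (4 * s + 1), vb k a r * sw (Irr r) (fun I1 =>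
      g2 (Bk a) (Bk b) (fun X Y => Fold7 (2 ^ (k - 1)) (X ++ I1) (Y ++ I))) ≤
      ENNReal.ofReal ((G + Cv) * C * (UU (2 ^ max a b) / UU (2 ^ k)) * GA δ c X k a b) := by
    calc _ ≤ ∑ r ∈ Finset.range (4 * s + 1), ENNReal.ofReal (C * UU (2 ^ max a b)) *
          (vb k a r * sw (Irr r) (fun I => ENNReal.ofReal (Dg δ a b) +
            ind (Bad A a b I) + ind (Ret (2 ^ (b - (b - a) / 4 + 2)) (2 ^ (k - 1 - 2)) I))) := by
          apply Finset.sum_le_sum
          intro r _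
          rw [mul_left_comm]
          refine mul_le_mul' le_rfl ?_
          rw [← sw_mul_left]
          refine sw_mono subset_rfl fun I1 hI1 => ?_
          exact g2_t2 hC hF (by omega) ha hb hab hI1 fun X Y h => fold_right hI h
      _ ≤ ENNReal.ofReal (C * UU (2 ^ max a b)) * ENNReal.ofReal (G / UU (2 ^ k) * GA δ c X k a b) := by
          rw [← Finset.mul_sum]
          gcongr
      _ = ENNReal.ofReal (G * C * (UU (2 ^ max a b) / UU (2 ^ k)) * GA δ c X k a b) := by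
          rw [← ENNReal.ofReal_mul (by positivity)]
          congr 1
          ring
      _ ≤ _ := by
          apply ENNReal.ofReal_le_ofReal
          gcongr
          linarith
  rcases le_total 1 (GA δ c X k a b) with h | h
  · rw [min_eq_left h]
    exact h1
  · rw [min_eq_right h]
    exact h2

lemma ofReal_min_one {x : ℝ} : ENNReal.ofReal (min 1 x) = min 1 (ENNReal.ofReal x) := by
  rcases le_total 1 x with h | h
  · rw [min_eq_left h, min_eq_left, ENNReal.ofReal_one]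
    rw [← ENNReal.ofReal_one]
    exact ENNReal.ofReal_le_ofReal h
  · rw [min_eq_right h, min_eq_right]
    rw [← ENNReal.ofReal_one]
    exact ENNReal.ofReal_le_ofReal h

/-- the lower fold -/
lemma low_bound {A : ℕ} {C δ c : ℝ} (hC : 0 < C) (hc : 0 < c) (hF : FoldGain A C δ)
    {K : ℝ} (hK : 0 < K) (hflat : ∀ k lo hi N : ℕ, 5 ≤ k → lo ≤ hi → hi ≤ k + 1 →
      ∑ r ∈ Finset.range N, vb k lo r * gf {I | I ∈ Irr r ∧ Bad A lo hi I} ≤
        ENNReal.ofReal (K / UU (2 ^ k) * (2 : ℝ) ^ ((k : ℝ) - hi - 2 * ((hi : ℝ) - lo)))) :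
    ∃ L : ℝ, 0 < L ∧ ∀ (k s : ℕ) (X : ℝ), 5 ≤ k → 1 ≤ X → RetB X c (4 * s + 1) → ∀ a b : ℕ, a < k - 1 → b < k + 2 →
      ∃ f : List Bool → ℝ≥0∞, (∀ r, ∀ I ∈ Irr r, LowT k s a b (rev I) ≤
        ENNReal.ofReal (L * (UU (2 ^ max a b) / UU (2 ^ k))) * min 1 (f I)) ∧
        ∀ N, ∑ r ∈ Finset.range N, vb k b r * sw (Irr r) f ≤ ENNReal.ofReal (L / UU (2 ^ k) * GA δ c X k a b) := by
  obtain ⟨Cv, hCv, hv⟩ := sum_vb
  obtain ⟨Kr, hKr, hret⟩ := ret_avg hc
  obtain ⟨G, hG⟩ : ∃ G : ℝ, G = K + Kr + Cv := ⟨_, rfl⟩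
  have hG0 : 0 < G := by rw [hG]; positivity
  refine ⟨(G + Cv) * C + (G + Cv), by positivity, fun k s X hk hX hR a b ha hb => ?_⟩
  have hU := Num2Aux.UU_pos (2 ^ k)
  have hU' := Num2Aux.UU_pos (2 ^ max a b)
  have hGA := GA_pos (δ := δ) (c := c) hX k a b
  rcases Nat.lt_or_ge a b with hab | hab
  · -- type 2
    refine ⟨fun _ => ENNReal.ofReal (GA δ c X k a b), fun r I hI => ?_, fun N => ?_⟩
    · have h1 := avg_t2 (δ := δ) hK hKr hCv hX hk hab (by omega) hR hflat hret hv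
      rw [← hG] at h1
      have h2 := sum_t2 hC hG0 hCv hX hF hk ha hb hab (Irr_rev hI) h1 hv
      unfold LowT
      refine h2.trans ?_
      rw [ENNReal.ofReal_mul (by positivity), ofReal_min_one]
      gcongr
      have : 0 < G + Cv := by positivity
      linarith
    · rw [Finset.sum_congr rfl fun r _ => show vb k b r * sw (Irr r) (fun _ => ENNReal.ofReal (GA δ c X k a b)) =
        vb k b r * gf (Irr r) * ENNReal.ofReal (GA δ c X k a b) by rw [sw_const, mul_assoc], ← Finset.sum_mul]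
      calc _ ≤ ENNReal.ofReal (Cv / UU (2 ^ k)) * ENNReal.ofReal (GA δ c X k a b) := by
            gcongr
            exact hv k b N (by omega)
        _ = ENNReal.ofReal (Cv / UU (2 ^ k) * GA δ c X k a b) := by rw [← ENNReal.ofReal_mul (by positivity)]
        _ ≤ _ := by
            apply ENNReal.ofReal_le_ofReal
            gcongr
            have : 0 < (G + Cv) * C := by positivity
            linarith
  · -- type 1
    refine ⟨fun I => ENNReal.ofReal (Dg δ a b) + ind (Bad A b a (rev I)), fun r I hI => ?_, fun N => ?_⟩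
    · unfold LowT
      calc _ ≤ ∑ r ∈ Finset.range (4 * s + 1), vb k a r * gf (Irr r) * (ENNReal.ofReal (C * UU (2 ^ max a b)) *
            min 1 (ENNReal.ofReal (Dg δ a b) + ind (Bad A b a (rev I)))) := by
            apply Finset.sum_le_sum
            intro r _
            rw [mul_assoc, ← sw_const]
            gcongr
            refine sw_mono subset_rfl fun I1 hI1 => ?_
            exact g2_t1 hC hF (by omega) ha hb hab (Irr_rev hI) fun X Y h => fold_left hI1 h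
        _ ≤ ENNReal.ofReal (Cv / UU (2 ^ k)) * (ENNReal.ofReal (C * UU (2 ^ max a b)) *
            min 1 (ENNReal.ofReal (Dg δ a b) + ind (Bad A b a (rev I)))) := by
            rw [← Finset.sum_mul]
            gcongr
            exact hv k a _ (by omega)
        _ = ENNReal.ofReal (Cv * C * (UU (2 ^ max a b) / UU (2 ^ k))) *
            min 1 (ENNReal.ofReal (Dg δ a b) + ind (Bad A b a (rev I))) := by
            rw [← mul_assoc, ← ENNReal.ofReal_mul (by positivity)]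
            congr 2
            ring
        _ ≤ _ := by
            gcongr
            have : 0 < G * C + (G + Cv) := by positivity
            linarith
    · have h1 := avg_t1 (A := A) (δ := δ) (c := c) (N := N) hK hCv hX hk hab (by omega) hflat hv
      calc _ ≤ ∑ r ∈ Finset.range N, vb k b r * sw (Irr r) (fun I => ENNReal.ofReal (Dg δ a b) +
            ind (Bad A b a I)) := by
            apply Finset.sum_le_sum
            intro r _
            gcongr
            refine sw_mono subset_rfl fun I _ => ?_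
            gcongr
            exact ind_mono fun h => bad_rev h
        _ ≤ _ := h1
        _ ≤ _ := by
            apply ENNReal.ofReal_le_ofReal
            have h2 : 0 < (G + Cv) * C := by positivity
            have h3 : K ≤ G := by rw [hG]; linarith
            have h4 : K + Cv ≤ (G + Cv) * C + (G + Cv) := by linarith
            exact mul_le_mul_of_nonneg_right (div_le_div_of_nonneg_right h4 hU.le) hGA.le

/-- the upper fold -/
lemma up_bound {A : ℕ} {C δ c : ℝ} (hC : 0 < C) (hc : 0 < c) (hF : FoldGain A C δ)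
    {K : ℝ} (hK : 0 < K) (hflat : ∀ k lo hi N : ℕ, 5 ≤ k → lo ≤ hi → hi ≤ k + 1 →
      ∑ r ∈ Finset.range N, vb k lo r * gf {I | I ∈ Irr r ∧ Bad A lo hi I} ≤
        ENNReal.ofReal (K / UU (2 ^ k) * (2 : ℝ) ^ ((k : ℝ) - hi - 2 * ((hi : ℝ) - lo)))) :
    ∃ L : ℝ, 0 < L ∧ ∀ (k m0 s : ℕ) (X : ℝ), 5 ≤ k → 1 ≤ m0 → 8 * (m0 + 2) ≤ 2 ^ k → 1 ≤ X → RetB X c (4 * s + 1) →
      ∀ a b : ℕ, a < k - 1 → b < k → ∃ f : List Bool → ℝ≥0∞, (∀ r, ∀ I ∈ Irr r, UpT k m0 s a b I ≤
        ENNReal.ofReal (L * (m0 * (uu (2 ^ k) / UU (2 ^ k))) * UU (2 ^ max a b)) * min 1 (f I)) ∧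
        ∀ N, ∑ r ∈ Finset.range N, vb k b r * sw (Irr r) f ≤
          ENNReal.ofReal (L / UU (2 ^ k) * (2 ^ k / m0 * GA δ c X k a b)) := by
  obtain ⟨Cv, hCv, hv⟩ := sum_vb
  obtain ⟨Kr, hKr, hret⟩ := ret_avg hc
  obtain ⟨G, hG⟩ : ∃ G : ℝ, G = K + Kr + Cv := ⟨_, rfl⟩
  have hG0 : 0 < G := by rw [hG]; positivity
  have hCW := Num2Aux.CW_pos
  refine ⟨C + (G + Cv) + Cv * ((6 + CW) * (G + Cv)), by positivity, fun k m0 s X hk hm hm8 hX hR a b ha hb => ?_⟩
  obtain ⟨L, hL⟩ : ∃ L : ℝ, L = C + (G + Cv) + Cv * ((6 + CW) * (G + Cv)) := ⟨_, rfl⟩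
  rw [← hL]
  have hL1 : C ≤ L := by
    have h1 : 0 < (G + Cv) + Cv * ((6 + CW) * (G + Cv)) := by positivity
    linarith
  have hL2 : K + Cv ≤ L := by
    have h1 : 0 < C + Kr + Cv + Cv * ((6 + CW) * (G + Cv)) := by positivity
    linarith
  have hL3 : Cv * ((6 + CW) * (G + Cv)) ≤ L := by
    have h1 : 0 < C + (G + Cv) := by positivity
    linarith
  have hL0 : 0 < L := hC.trans_le hL1
  have hU := Num2Aux.UU_pos (2 ^ k)
  have hU' := Num2Aux.UU_pos (2 ^ max a b)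
  have hu := uu_pos (2 ^ k)
  have hGA := GA_pos (δ := δ) (c := c) hX k a b
  have hm' : (1 : ℝ) ≤ m0 := by exact_mod_cast hm
  have hm0 : (0 : ℝ) < m0 := by linarith
  have hmk : (m0 : ℝ) ≤ 2 ^ k := by
    have : m0 ≤ 2 ^ k := by omega
    exact_mod_cast this
  have hρ : 1 ≤ (2 : ℝ) ^ k / m0 := by
    rw [le_div_iff₀ hm0]
    linarith
  rcases Nat.lt_or_ge a b with hab | hab
  · -- type 2
    refine ⟨fun _ => ENNReal.ofReal ((6 + CW) * (G + Cv) * (2 ^ k / m0 * GA δ c X k a b)), fun r I hI => ?_,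
      fun N => ?_⟩
    · have h1 := avg_t2 (δ := δ) hK hKr hCv hX hk hab (by omega) hR hflat hret hv
      rw [← hG] at h1
      have h2 := sum_t2 hC hG0 hCv hX hF hk ha (by omega) hab hI h1 hv
      have h3 : UpT k m0 s a b I ≤ ENNReal.ofReal (C * (m0 * (uu (2 ^ k) / UU (2 ^ k))) * UU (2 ^ max a b)) * 1 := by
        unfold UpT
        refine (min_le_left _ _).trans ?_
        calc _ ≤ ENNReal.ofReal (m0 * (uu (2 ^ k) / UU (2 ^ k))) * ENNReal.ofReal (C * UU (2 ^ max a b)) := by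
              gcongr
              exact g2_triv hF (by omega) ha (by omega) fun X Y h => fold_right hI h
          _ = _ := by
              rw [← ENNReal.ofReal_mul (by positivity), mul_one]
              congr 1
              ring
      have h4 : UpT k m0 s a b I ≤ ENNReal.ofReal (C * (m0 * (uu (2 ^ k) / UU (2 ^ k))) * UU (2 ^ max a b)) *
          ENNReal.ofReal ((6 + CW) * (G + Cv) * (2 ^ k / m0 * GA δ c X k a b)) := by
        unfold UpT
        refine (min_le_right _ _).trans ?_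
        have hUm := Num2Aux.UU_pos m0
        calc _ ≤ ENNReal.ofReal (UU m0) *
              ENNReal.ofReal ((G + Cv) * C * (UU (2 ^ max a b) / UU (2 ^ k)) * min 1 (GA δ c X k a b)) := by
              gcongr
          _ ≤ ENNReal.ofReal ((6 + CW) * (2 ^ k * uu (2 ^ k))) *
              ENNReal.ofReal ((G + Cv) * C * (UU (2 ^ max a b) / UU (2 ^ k)) * GA δ c X k a b) := by
              gcongr
              · have h5 := Num2Aux.UU_mono (show m0 ≤ 2 ^ k by omega)
                have h6 := UU_le_mul (T := 2 ^ k) Nat.one_le_two_pow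
                push_cast at h6
                linarith
              · exact min_le_right _ _
          _ = _ := by
              rw [← ENNReal.ofReal_mul (by positivity), ← ENNReal.ofReal_mul (by positivity)]
              congr 1
              field_simp
      have h5 : UpT k m0 s a b I ≤ ENNReal.ofReal (C * (m0 * (uu (2 ^ k) / UU (2 ^ k))) * UU (2 ^ max a b)) *
          min 1 (ENNReal.ofReal ((6 + CW) * (G + Cv) * (2 ^ k / m0 * GA δ c X k a b))) := by
        rcases le_total 1 (ENNReal.ofReal ((6 + CW) * (G + Cv) * (2 ^ k / m0 * GA δ c X k a b))) with h | h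
        · rw [min_eq_left h]
          exact h3
        · rw [min_eq_right h]
          exact h4
      refine h5.trans ?_
      gcongr
    · rw [Finset.sum_congr rfl fun r _ => show vb k b r * sw (Irr r) (fun _ =>
        ENNReal.ofReal ((6 + CW) * (G + Cv) * (2 ^ k / m0 * GA δ c X k a b))) = vb k b r * gf (Irr r) *
          ENNReal.ofReal ((6 + CW) * (G + Cv) * (2 ^ k / m0 * GA δ c X k a b)) by rw [sw_const]; ring,
        ← Finset.sum_mul]
      calc _ ≤ ENNReal.ofReal (Cv / UU (2 ^ k)) *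
            ENNReal.ofReal ((6 + CW) * (G + Cv) * (2 ^ k / m0 * GA δ c X k a b)) := by
            gcongr
            exact hv k b N (by omega)
        _ = ENNReal.ofReal (Cv * ((6 + CW) * (G + Cv)) / UU (2 ^ k) * (2 ^ k / m0 * GA δ c X k a b)) := by
            rw [← ENNReal.ofReal_mul (by positivity)]
            congr 1
            ring
        _ ≤ _ := by
            apply ENNReal.ofReal_le_ofReal
            gcongr
  · -- type 1
    refine ⟨fun I => ENNReal.ofReal (Dg δ a b) + ind (Bad A b a I), fun r I hI => ?_, fun N => ?_⟩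
    · unfold UpT
      refine (min_le_left _ _).trans ?_
      calc _ ≤ ENNReal.ofReal (m0 * (uu (2 ^ k) / UU (2 ^ k))) * (ENNReal.ofReal (C * UU (2 ^ max a b)) *
            min 1 (ENNReal.ofReal (Dg δ a b) + ind (Bad A b a I))) := by
            gcongr
            exact g2_t1 hC hF (by omega) ha (by omega) hab hI fun X Y h => h
        _ = ENNReal.ofReal (C * (m0 * (uu (2 ^ k) / UU (2 ^ k))) * UU (2 ^ max a b)) *
            min 1 (ENNReal.ofReal (Dg δ a b) + ind (Bad A b a I)) := by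
            rw [← mul_assoc, ← ENNReal.ofReal_mul (by positivity)]
            congr 2
            ring
        _ ≤ _ := by gcongr
    · have h1 := avg_t1 (A := A) (δ := δ) (c := c) (N := N) hK hCv hX hk hab (by omega) hflat hv
      refine h1.trans (ENNReal.ofReal_le_ofReal ?_)
      calc (K + Cv) / UU (2 ^ k) * GA δ c X k a b = (K + Cv) / UU (2 ^ k) * (1 * GA δ c X k a b) := by ring
        _ ≤ _ := by gcongr

end Quad

open Quad in
/-- R4b (Quad.lean): the gains, averaged over the giants (Cauchy-Schwarz for the giant I of the middle strand) -/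
theorem quad_le (hF : ∀ A : ℕ, ∃ C δ : ℝ, 0 < C ∧ 0 < δ ∧ FoldGain A C δ) {c : ℝ} (hc : 0 < c) :
    ∃ δ K : ℝ, 0 < δ ∧ 0 < K ∧ ∀ (k m0 s : ℕ) (X : ℝ), 5 ≤ k → 1 ≤ m0 → 8 * (m0 + 2) ≤ 2 ^ k → 2 ^ k ≤ 4 * s →
      1 ≤ X → RetB X c (4 * s + 1) → ∀ a b a' b' : ℕ, a < k - 1 → b < k → a' < k - 1 → b' < k + 2 →
      ∑ r ∈ Finset.range (2 ^ (k + 1)), min (vb k b r) (vb k b' r) * sw (Irr r) (fun I =>
        UpT k m0 s a b I * LowT k s a' b' (rev I)) ≤
      ENNReal.ofReal (K * (m0 * (uu (2 ^ k) / UU (2 ^ k))) *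
        (UU (2 ^ max a b) / UU (2 ^ k) * Real.sqrt (min 1 (2 ^ k / m0 * GA δ c X k a b))) *
        (UU (2 ^ max a' b') / UU (2 ^ k) * Real.sqrt (min 1 (GA δ c X k a' b')))) := by
  obtain ⟨A, Kf, hKf, hflat⟩ := flat_avg
  obtain ⟨C, δ, hC, hδ, hF1⟩ := hF A
  obtain ⟨Cv, hCv, hv⟩ := sum_vb
  obtain ⟨L1, hL1, hup⟩ := up_bound hC hc hF1 hKf hflat
  obtain ⟨L2, hL2, hlow⟩ := low_bound hC hc hF1 hKf hflat
  refine ⟨δ, L1 * L2 * (L1 + L2 + Cv), hδ, by positivity, fun k m0 s X hk hm hm8 _ hX hR a b a' b' ha hb ha' hb' => ?_⟩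
  obtain ⟨f, hf1, hf2⟩ := hup k m0 s X hk hm hm8 hX hR a b ha hb
  obtain ⟨g, hg1, hg2⟩ := hlow k s X hk hX hR a' b' ha' hb'
  have hU := Num2Aux.UU_pos (2 ^ k)
  have hUa := Num2Aux.UU_pos (2 ^ max a b)
  have hUb := Num2Aux.UU_pos (2 ^ max a' b')
  have hu := uu_pos (2 ^ k)
  have hm' : (1 : ℝ) ≤ m0 := by exact_mod_cast hm
  have hm0 : (0 : ℝ) < m0 := by linarith
  have hGA1 := GA_pos (δ := δ) (c := c) hX k a b
  have hGA2 := GA_pos (δ := δ) (c := c) hX k a' b'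
  obtain ⟨x, hx⟩ : ∃ x : ℝ, x = min 1 (2 ^ k / m0 * GA δ c X k a b) := ⟨_, rfl⟩
  obtain ⟨y, hy⟩ : ∃ y : ℝ, y = min 1 (GA δ c X k a' b') := ⟨_, rfl⟩
  have hx0 : 0 < x := by rw [hx]; exact lt_min one_pos (by positivity)
  have hy0 : 0 < y := by rw [hy]; exact lt_min one_pos hGA2
  obtain ⟨S, hS⟩ : ∃ S : ℝ≥0∞, S = ∑ r ∈ Finset.range (2 ^ (k + 1)), min (vb k b r) (vb k b' r) *
    sw (Irr r) (fun I => min 1 (f I) * min 1 (g I)) := ⟨_, rfl⟩
  have hS0 : S ≤ ENNReal.ofReal (Cv / UU (2 ^ k)) := by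
    rw [hS]
    refine le_trans (Finset.sum_le_sum fun r _ => ?_) (hv k b (2 ^ (k + 1)) (by omega))
    calc _ ≤ vb k b r * sw (Irr r) (fun _ => 1) := by
          gcongr
          · exact min_le_left _ _
          · refine sw_mono subset_rfl fun I _ => ?_
            calc min 1 (f I) * min 1 (g I) ≤ 1 * 1 := by gcongr <;> exact min_le_left _ _
              _ = 1 := one_mul 1
      _ = _ := by rw [sw_one]
  have hS1 : S ≤ ENNReal.ofReal (L1 / UU (2 ^ k) * (2 ^ k / m0 * GA δ c X k a b)) := by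
    rw [hS]
    refine le_trans (Finset.sum_le_sum fun r _ => ?_) (hf2 (2 ^ (k + 1)))
    gcongr
    · exact min_le_left _ _
    · refine sw_mono subset_rfl fun I _ => ?_
      calc min 1 (f I) * min 1 (g I) ≤ f I * 1 := by
            gcongr
            · exact min_le_right _ _
            · exact min_le_left _ _
        _ = f I := mul_one _
  have hS2 : S ≤ ENNReal.ofReal (L2 / UU (2 ^ k) * GA δ c X k a' b') := by
    rw [hS]
    refine le_trans (Finset.sum_le_sum fun r _ => ?_) (hg2 (2 ^ (k + 1)))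
    gcongr
    · exact min_le_right _ _
    · refine sw_mono subset_rfl fun I _ => ?_
      calc min 1 (f I) * min 1 (g I) ≤ 1 * g I := by
            gcongr
            · exact min_le_left _ _
            · exact min_le_right _ _
        _ = g I := one_mul _
  obtain ⟨E, hE⟩ : ∃ E : ℝ, E = (L1 + L2 + Cv) / UU (2 ^ k) := ⟨_, rfl⟩
  have hE0 : 0 < E := by rw [hE]; positivity
  have hSx : S ≤ ENNReal.ofReal (E * x) := by
    rcases le_total 1 (2 ^ k / m0 * GA δ c X k a b) with h | h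
    · rw [hx, min_eq_left h, hE]
      refine hS0.trans (ENNReal.ofReal_le_ofReal ?_)
      rw [mul_one]
      gcongr
      linarith
    · rw [hx, min_eq_right h, hE]
      refine hS1.trans (ENNReal.ofReal_le_ofReal ?_)
      gcongr
      linarith
  have hSy : S ≤ ENNReal.ofReal (E * y) := by
    rcases le_total 1 (GA δ c X k a' b') with h | h
    · rw [hy, min_eq_left h, hE]
      refine hS0.trans (ENNReal.ofReal_le_ofReal ?_)
      rw [mul_one]
      gcongr
      linarith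
    · rw [hy, min_eq_right h, hE]
      refine hS2.trans (ENNReal.ofReal_le_ofReal ?_)
      gcongr
      linarith
  have hSxy : S ≤ ENNReal.ofReal (E * (Real.sqrt x * Real.sqrt y)) := by
    rcases le_total x y with h | h
    · refine hSx.trans (ENNReal.ofReal_le_ofReal ?_)
      gcongr
      calc x = Real.sqrt x * Real.sqrt x := (Real.mul_self_sqrt hx0.le).symm
        _ ≤ _ := by gcongr
    · refine hSy.trans (ENNReal.ofReal_le_ofReal ?_)
      gcongr
      calc y = Real.sqrt y * Real.sqrt y := (Real.mul_self_sqrt hy0.le).symm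
        _ ≤ _ := by gcongr
  rw [← hx, ← hy]
  calc _ ≤ ∑ r ∈ Finset.range (2 ^ (k + 1)), (ENNReal.ofReal (L1 * (m0 * (uu (2 ^ k) / UU (2 ^ k))) *
        UU (2 ^ max a b)) * ENNReal.ofReal (L2 * (UU (2 ^ max a' b') / UU (2 ^ k)))) *
        (min (vb k b r) (vb k b' r) * sw (Irr r) (fun I => min 1 (f I) * min 1 (g I))) := by
        apply Finset.sum_le_sum
        intro r _
        rw [mul_left_comm]
        refine mul_le_mul' le_rfl ?_
        rw [← sw_mul_left]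
        refine sw_mono subset_rfl fun I hI => ?_
        calc _ ≤ (ENNReal.ofReal (L1 * (m0 * (uu (2 ^ k) / UU (2 ^ k))) * UU (2 ^ max a b)) * min 1 (f I)) *
              (ENNReal.ofReal (L2 * (UU (2 ^ max a' b') / UU (2 ^ k))) * min 1 (g I)) := by
              gcongr
              · exact hf1 r I hI
              · exact hg1 r I hI
          _ = _ := by ring
    _ = (ENNReal.ofReal (L1 * (m0 * (uu (2 ^ k) / UU (2 ^ k))) *
        UU (2 ^ max a b)) * ENNReal.ofReal (L2 * (UU (2 ^ max a' b') / UU (2 ^ k)))) * S := by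
        rw [← Finset.mul_sum, hS]
    _ ≤ (ENNReal.ofReal (L1 * (m0 * (uu (2 ^ k) / UU (2 ^ k))) *
        UU (2 ^ max a b)) * ENNReal.ofReal (L2 * (UU (2 ^ max a' b') / UU (2 ^ k)))) *
        ENNReal.ofReal (E * (Real.sqrt x * Real.sqrt y)) := by gcongr
    _ = _ := by
        rw [← ENNReal.ofReal_mul (by positivity), ← ENNReal.ofReal_mul (by positivity), hE]
        congr 1
        ring

end HexObs
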