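import Pool.Agent.PHW7.DeepRet1
import Pool.Agent.PHW7.Quad

/-!
PHW, section S7: deep returns (DR), from the fold lemma.
-/

set_option autoImplicit false

namespace HexObs

open Complex Finset ENNReal

/-- R4d -/
theorem block_bound (hF : ∀ A : ℕ, ∃ C δ : ℝ, 0 < C ∧ 0 < δ ∧ FoldGain A C δ) {c : ℝ} (hc : 0 < c) :
    ∃ C : ℝ, 0 < C ∧ ∀ (k m0 s : ℕ) (X : ℝ), 5 ≤ k → 1 ≤ m0 → 8 * (m0 + 2) ≤ 2 ^ k →
      1 ≤ X → RetB X c (4 * s + 1) →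
      SecBlk k m0 s ≤ ENNReal.ofReal (C * UU s * (m0 / 2 ^ k) * (1 + Real.log (2 ^ k / m0) + Real.log X) ^ 2) :=
  block_bound_of hc (quad_le hF hc)

/-- R5b -/
theorem ret_step (hF : ∀ A : ℕ, ∃ C δ : ℝ, 0 < C ∧ 0 < δ ∧ FoldGain A C δ) : ∃ c C : ℝ, 0 < c ∧ 0 < C ∧
    ∀ (X : ℝ) (R : ℕ), 1 ≤ X → RetB X c (4 * R) → RetB (C * (1 + Real.log X) ^ 2) c R :=
  ret_step_of (fun _ _ _ h => section_dec h) (fun _ _ _ h => jump_ret h) (fun _ hc => block_bound hF hc)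

/-- (DR): the weight of the irreducible bridges that come back to the level y after the level τ -/
theorem deep_returns (hF : ∀ A : ℕ, ∃ C δ : ℝ, 0 < C ∧ 0 < δ ∧ FoldGain A C δ) : ∃ C c : ℝ, 0 < C ∧ 0 < c ∧
    ∀ y τ R : ℕ, 1 ≤ y → y ≤ τ → ∑ r ∈ Finset.range R, KR y τ r ≤ ENNReal.ofReal (C / UU τ * ((y : ℝ) / τ) ^ c) :=
  deep_returns_of (ret_step hF)

end HexObs
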