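import Pool.Agent.HexWall.FlatE
import Pool.Agent.PHW.DefsQ

/-!
PHW, section S7 (deep returns of giants): definitions.
-/

set_option autoImplicit false

namespace HexObs

open Complex Finset ENNReal

/-- after a visit of the level 3 τ (or a higher one) the word visits a level at most 3 y -/
def Ret (y τ : ℕ) (t : List Bool) : Prop :=
  ∃ i j, i < j ∧ j ≤ t.length ∧ 3 * (τ : ℤ) ≤ lev t i ∧ lev t j ≤ 3 * (y : ℤ)

/-- weight of the irreducible bridges of height r with the return (y, τ) -/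
noncomputable def KR (y τ r : ℕ) : ℝ≥0∞ := gf {p | p ∈ Irr r ∧ Ret y τ p}

/-- the bound (DR) for the pieces of height less than R, with the constant X -/
def RetB (X c : ℝ) (R : ℕ) : Prop := ∀ y τ : ℕ, 1 ≤ y → y ≤ τ →
  ∑ r ∈ Finset.range R, KR y τ r ≤ ENNReal.ofReal (X / UU τ * ((y : ℝ) / τ) ^ c)

/-- block number a of the bridges: the height has a binary digits -/
def Bk (a : ℕ) : Set (List Bool) := {t | ∃ h, Nat.size h = a ∧ t ∈ Brd h}

/-- the two strands are neighbours (start at adjacent feet, on either side) and disjoint -/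
def Nbr (X Y : List Bool) : Prop := Dj X Y ∨ Dj Y X

/-- X and Y can be continued, by bridges, to disjoint neighbours of heights p ≥ q ≥ t0 -/
def Fold7 (t0 : ℕ) (X Y : List Bool) : Prop := ∃ (X' Y' : List Bool) (p' q' p q : ℕ), X' ∈ Brd p' ∧ Y' ∈ Brd q' ∧
  X ++ X' ∈ Brd p ∧ Y ++ Y' ∈ Brd q ∧ t0 ≤ q ∧ q ≤ p ∧ Nbr (X ++ X') (Y ++ Y')

/-- flat at (at least) a quarter of the scales a + 1, …, b, in one of the four forms -/
def Bad (A a b : ℕ) (P : List Bool) : Prop := ∃ u v : Bool, b - a ≤ 4 * Wall.nflat A (Wall.sy u v P) (a + 1) b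

/-- the fold lemma (S6), only the cases where the near part X of the taller strand is lower than 2 ^ (j - 1) and
both strands have at least the height 2 ^ j -/
def FoldGain (A : ℕ) (C δ : ℝ) : Prop := ∀ j a b : ℕ, 3 ≤ j → a < j → b ≤ j + 2 →
  (g2 (Bk a) (Bk b) (Fold7 (2 ^ j)) ≤ ENNReal.ofReal (C * UU (2 ^ max a b))) ∧
  (b ≤ a → ∀ r, ∀ J ∈ Irr r, ¬ Bad A b a J → g2 (Bk a) (Bk b) (fun X Y => Fold7 (2 ^ j) X (Y ++ J)) ≤
    ENNReal.ofReal (C * UU (2 ^ a) * (2 : ℝ) ^ (-(δ * ((a : ℝ) - b))))) ∧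
  (a < b → ∀ r, ∀ I ∈ Irr r, ¬ Bad A a b I → ¬ Ret (2 ^ (b - (b - a) / 4 + 2)) (2 ^ (j - 2)) I →
    g2 (Bk a) (Bk b) (fun X Y => Fold7 (2 ^ j) (X ++ I) Y) ≤
      ENNReal.ofReal (C * UU (2 ^ b) * (2 : ℝ) ^ (-(δ * ((b : ℝ) - a)))))

/-- weighted sum over the words of A -/
noncomputable def sw (A : Set (List Bool)) (Φ : List Bool → ℝ≥0∞) : ℝ≥0∞ := ∑' t : {t : List Bool // t ∈ A}, wE t.1 * Φ t.1

/-- the sections of the bridges of height T: descending strand between the rows e and m + 1 -/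
noncomputable def secW (m e T : ℕ) : ℝ≥0∞ := ∑ c : Bool, ∑ c' : Bool, ENNReal.ofReal (xc ^ 2) *
  sw (Brd (e - m - 2)) (fun r0 => gf {X | X ∈ Brd e ∧ Nbr X (c :: (!c) :: r0)} *
    gf {R | R ∈ Brd (T - m) ∧ Nbr R (rev (r0 ++ [!c', c']))})

/-- fraction of the levels of [2 ^ (k - 3), 2 ^ (k - 2)) which are covered by a piece from n to n + r -/
noncomputable def vk (k n r : ℕ) : ℝ≥0∞ :=
  (((Finset.Ico (2 ^ (k - 3)) (2 ^ (k - 2))).filter (fun l => n ≤ l ∧ l < n + r)).card : ℝ≥0∞) / 2 ^ (k - 3)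

/-- bound for vk if n < 2 ^ b: the piece is a giant if b ≤ k - 4 -/
noncomputable def vb (k b r : ℕ) : ℝ≥0∞ :=
  if b + 4 ≤ k ∧ r ≤ 2 ^ (k - 4) then 0 else min 1 ((r : ℝ≥0∞) / 2 ^ (k - 3))

/-- all sections with 2 ^ k ≤ e < 2 ^ (k + 1), m < m0, s < T ≤ 4 s -/
noncomputable def SecBlk (k m0 s : ℕ) : ℝ≥0∞ := ∑ T ∈ Finset.Ioc s (4 * s), ∑ m ∈ Finset.range m0,
  ∑ e ∈ (Finset.Ico (2 ^ k) (2 ^ (k + 1))).filter (fun e => e ≤ T), secW m e T

/-- upper fold, near parts in the blocks a (X) and b (Y), giant I in Y -/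
noncomputable def UpT (k m0 s a b : ℕ) (I : List Bool) : ℝ≥0∞ :=
  min (ENNReal.ofReal (m0 * (uu (2 ^ k) / UU (2 ^ k))) * g2 (Bk a) (Bk b) (fun X Y => Fold7 (2 ^ (k - 1)) X (Y ++ I)))
    (ENNReal.ofReal (UU m0) * ∑ r ∈ Finset.range (4 * s + 1), vb k a r * sw (Irr r) (fun I1 =>
      g2 (Bk a) (Bk b) (fun X Y => Fold7 (2 ^ (k - 1)) (X ++ I1) (Y ++ I))))

/-- lower fold, near parts in the blocks c (X) and d (Y), giant I in Y -/
noncomputable def LowT (k s c d : ℕ) (I : List Bool) : ℝ≥0∞ :=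
  ∑ r ∈ Finset.range (4 * s + 1), vb k c r * sw (Irr r) (fun I1 =>
      g2 (Bk c) (Bk d) (fun X Y => Fold7 (2 ^ (k - 1)) (X ++ I1) (Y ++ I)))

/-- gain of a fold with near parts in the blocks a and b, strands of height 2 ^ k, averaged over the giants -/
noncomputable def GA (δ c X : ℝ) (k a b : ℕ) : ℝ :=
  (2 : ℝ) ^ (-(δ * |(a : ℝ) - b|)) + (2 : ℝ) ^ ((k : ℝ) - (max a b : ℕ) - 2 * |(a : ℝ) - b|) +
    X * (2 : ℝ) ^ (-(c * ((k : ℝ) - (max a b : ℕ) + |(a : ℝ) - b| / 4)))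

end HexObs
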