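import Pool.Agent.PHW.DefsF
import Pool.Agent.PHW.Rotate
import Pool.Agent.PHW.Mirror
import Pool.Agent.PHW.Num2
import Pool.Agent.PHW7.Defs7

/-!
PHW, section S7: the output of the fold lemma (S6) in the form used for the sections.
-/

set_option autoImplicit false

namespace HexObs

open Complex Finset ENNReal

namespace FoldOf

/-- the equivalence rev -/
def revE : List Bool ≃ List Bool := ⟨rev, rev, rev_rev, rev_rev⟩

theorem g2_rev_le {A B A' B' : Set (List Bool)} {R R' : List Bool → List Bool → Prop}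
    (h : ∀ X Y, X ∈ A → Y ∈ B → R X Y → rev X ∈ A' ∧ Y ∈ B' ∧ R' (rev X) Y) : g2 A B R ≤ g2 A' B' R' := by
  classical
  rw [g2_ind, g2_ind]
  conv_rhs => rw [← revE.tsum_eq]
  refine ENNReal.tsum_le_tsum fun s => ENNReal.tsum_le_tsum fun t => ?_
  by_cases hst : s ∈ A ∧ t ∈ B ∧ R s t
  · have h1 : revE s ∈ A' ∧ t ∈ B' ∧ R' (revE s) t := h s t hst.1 hst.2.1 hst.2.2
    rw [if_pos hst, if_pos h1]
    show wE s * wE t ≤ wE (rev s) * wE t
    rw [wE_rev]
  · rw [if_neg hst]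
    exact zero_le

/-- blocks: the height has a binary digits -/
lemma Bk_sub (a : ℕ) : Bk a ⊆ Fld.BrB (a - 1) := by
  rintro t ⟨h, h1, h2⟩
  refine ⟨h, ?_, h2⟩
  subst h1
  unfold Fld.Bl
  rcases Nat.eq_zero_or_pos h with h0 | h0
  · subst h0
    simp
  · have h3 : 1 ≤ Nat.size h := Nat.size_pos.2 h0
    refine ⟨?_, Or.inl ?_⟩
    · rw [Nat.sub_add_cancel h3]
      exact Nat.lt_size_self h
    · exact Nat.lt_size.1 (by omega)

lemma Bk_rev {a : ℕ} {t : List Bool} (h : t ∈ Bk a) : rev t ∈ Bk a := by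
  obtain ⟨n, h1, h2⟩ := h
  exact ⟨n, h1, Brd_rev h2⟩

/-- the layers up to y are visited only by the prefix -/
lemma clr_take {P : List Bool} {n y : ℕ} {w : ℤ} (h : ∀ i, n < i → i ≤ P.length → 3 * (y : ℤ) < lev P i)
    (hc : Wall.Clr (P.take n) y w) : Wall.Clr P y w := by
  intro i hi hl
  by_cases hin : i ≤ n
  · have h1 : i ≤ (P.take n).length := by
      rw [List.length_take]
      omega
    have h2 : lev (P.take n) i = lev P i := by
      have := lev_append (s := P.take n) (t := P.drop n) (i := i) (by omega)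
      rw [List.take_append_drop] at this
      exact this.symm
    have h3 : lat (P.take n) i = lat P i := by
      have := lat_append (s := P.take n) (t := P.drop n) (i := i) (by omega)
      rw [List.take_append_drop] at this
      exact this.symm
    rw [← h3]
    exact hc i h1 (by rw [h2]; exact hl)
  · have := h i (by omega) hi
    omega

lemma nvis_take {P : List Bool} {n k : ℕ} {w : ℤ} (h : ∀ i, n < i → i ≤ P.length → 3 * (2 ^ k : ℤ) < lev P i) :
    Wall.nvis P k w ≤ Wall.nvis (P.take n) k w := by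
  classical
  unfold Wall.nvis
  apply Finset.card_le_card
  intro y hy
  rw [Finset.mem_filter] at hy ⊢
  refine ⟨hy.1, fun hc => hy.2 (clr_take ?_ hc)⟩
  intro i h1 h2
  have h3 := h i h1 h2
  have h4 : (y : ℤ) ≤ 2 ^ k := by exact_mod_cast (Finset.mem_Ioc.1 hy.1).2
  omega

lemma flat_take {N A : ℕ} {P : List Bool} {n k : ℕ} (h : ∀ i, n < i → i ≤ P.length → 3 * (2 ^ k : ℤ) < lev P i)
    (hf : Wall.Flat N A (P.take n) k) : Wall.Flat N A P k := by
  unfold Wall.Flat at hf ⊢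
  exact lt_of_le_of_lt (Nat.mul_le_mul_left N (nvis_take h)) hf

lemma lev_step (t : List Bool) (i : ℕ) : lev t (i + 1) ≤ lev t i + 2 := by
  rw [lev_succ]
  have h : ∀ d ∈ dirs, ip d up ≤ 2 := by decide
  have := h _ (dx_mem upd t i)
  omega

/-- the vertices which are not in the prefix are high -/
lemma high_of_pre {P : List Bool} {y τ m : ℕ} (hτ : 1 ≤ τ) (hm : 2 * τ ≤ m) (h : ¬ Ret y τ P) :
    ∀ i, Fld.fv m P - 1 < i → i ≤ P.length → 3 * (y : ℤ) < lev P i := by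
  intro i h1 h2
  by_contra hcon
  have hmem : Fld.fv m P ∈ {i | P.length < i ∨ 3 * (m : ℤ) ≤ lev P i} :=
    Nat.sInf_mem ⟨P.length + 1, Or.inl (by omega)⟩
  have h3 : Fld.fv m P ≤ i := by omega
  have h4 : 3 * (m : ℤ) ≤ lev P (Fld.fv m P) := by
    rcases hmem with h5 | h5
    · omega
    · exact h5
  have h6 : 1 ≤ Fld.fv m P := by
    by_contra h7
    have h8 : Fld.fv m P = 0 := by omega
    rw [h8, lev_zero] at h4
    omega
  have h9 := lev_step P (Fld.fv m P - 1)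
  rw [Nat.sub_add_cancel h6] at h9
  exact h ⟨Fld.fv m P - 1, i, h1, h2, by omega, by omega⟩

/-- the prefix has (up to the scale k) no more flat scales -/
lemma flat_pre {N A τ m k k0 : ℕ} {P : List Bool} (hτ : 1 ≤ τ) (hm : 2 * τ ≤ m) (hk : k ≤ k0)
    (h : ¬ Ret (2 ^ k0) τ P) (hf : Wall.Flat N A (Fld.pre m P) k) : Wall.Flat N A P k := by
  refine flat_take ?_ hf
  intro i h1 h2
  have h3 := high_of_pre hτ hm h i h1 h2
  have h4 : (2 : ℤ) ^ k ≤ 2 ^ k0 := pow_le_pow_right₀ (by norm_num) hk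
  push_cast at h3
  omega

lemma flat_pre_not {N A τ m k k0 : ℕ} {P : List Bool} (hτ : 1 ≤ τ) (hm : 2 * τ ≤ m) (hk : k ≤ k0)
    (h : ¬ Ret (2 ^ k0) τ P) (hf : Wall.Flat N A ((Fld.pre m P).map not) k) : Wall.Flat N A (P.map not) k := by
  unfold Fld.pre at hf
  rw [List.map_take] at hf
  refine flat_take ?_ hf
  intro i h1 h2
  rw [List.length_map] at h2
  have h3 := high_of_pre hτ hm h i h1 h2
  have h4 : (2 : ℤ) ^ k ≤ 2 ^ k0 := pow_le_pow_right₀ (by norm_num) hk
  rw [lev_not P (by omega)]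
  push_cast at h3
  omega

/-- counting: P is flat at fewer than a quarter of the scales of (a, b], the word Q is flat at the scales k ≤ k0 only
if P is flat -/
lemma nfl_ge {A a b k0 : ℕ} {P Q : List Bool} (h : 4 * Wall.nflat A P (a + 1) b < b - a)
    (hk0 : b - (b - a) / 4 ≤ k0) (hQ : ∀ k, k ≤ k0 → Wall.Flat 8 A Q k → Wall.Flat 8 A P k) :
    b - a ≤ 2 * Fld.nfl A Q (a - 1) (b - 1) + 2 := by
  classical
  have h1 : (Finset.Ioc a (min (b - 1) k0)) \ ((Finset.Icc (a + 1) b).filter (fun k => Wall.Flat 8 A P k)) ⊆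
      (Finset.Ioc (a - 1) (b - 1)).filter (fun k => ¬ Wall.Flat 8 A Q k) := by
    intro k hk
    rw [Finset.mem_sdiff, Finset.mem_Ioc, Finset.mem_filter, Finset.mem_Icc] at hk
    rw [Finset.mem_filter, Finset.mem_Ioc]
    obtain ⟨⟨h2, h3⟩, h4⟩ := hk
    have h5 : k ≤ b - 1 := h3.trans (min_le_left _ _)
    have h6 : k ≤ k0 := h3.trans (min_le_right _ _)
    refine ⟨⟨by omega, h5⟩, fun hc => h4 ⟨⟨by omega, by omega⟩, hQ k h6 hc⟩⟩
  have h2 := Finset.card_le_card h1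
  have h3 := Finset.le_card_sdiff ((Finset.Icc (a + 1) b).filter (fun k => Wall.Flat 8 A P k))
    (Finset.Ioc a (min (b - 1) k0))
  have h4 : ((Finset.Icc (a + 1) b).filter (fun k => Wall.Flat 8 A P k)).card = Wall.nflat A P (a + 1) b := by
    unfold Wall.nflat
    congr 1
  have h5 : ((Finset.Ioc (a - 1) (b - 1)).filter (fun k => ¬ Wall.Flat 8 A Q k)).card =
      Fld.nfl A Q (a - 1) (b - 1) := by
    unfold Fld.nfl
    congr 1
  rw [h4, Nat.card_Ioc] at h3
  rw [h5] at h2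
  omega

/-- the gain as a power of two -/
lemma gain_le {ε : ℝ} (h0 : 0 < ε) (h1 : ε < 1) {n D : ℕ} (h : D ≤ 2 * n + 2) :
    (1 - ε) ^ n ≤ (1 - ε)⁻¹ * (2 : ℝ) ^ (-((-(Real.logb 2 (1 - ε)) / 2) * (D : ℝ))) := by
  have hp : 0 < 1 - ε := by linarith
  have e1 : (2 : ℝ) ^ (Real.logb 2 (1 - ε)) = 1 - ε := Real.rpow_logb (by norm_num) (by norm_num) hp
  have e2 : (2 : ℝ) ^ (-((-(Real.logb 2 (1 - ε)) / 2) * (D : ℝ))) = (1 - ε) ^ ((D : ℝ) / 2) := by
    rw [← e1, ← Real.rpow_mul (by norm_num), e1]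
    congr 1
    ring
  have e3 : (1 - ε) ^ n = (1 - ε)⁻¹ * (1 - ε) ^ ((n : ℝ) + 1) := by
    rw [Real.rpow_add hp, Real.rpow_natCast, Real.rpow_one]
    field_simp
  rw [e2, e3]
  refine mul_le_mul_of_nonneg_left ?_ (inv_nonneg.2 hp.le)
  refine Real.rpow_le_rpow_of_exponent_ge hp (by linarith) ?_
  have : (D : ℝ) ≤ 2 * n + 2 := by exact_mod_cast h
  linarith

/-- from the fold of S7 to the fold of S6 -/
lemma foldH_of {T x y i j : ℕ} {X Y I J : List Bool} (hX : X ∈ Brd x) (hY : Y ∈ Brd y) (hI : I ∈ Brd i) (hJ : J ∈ Brd j)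
    (h : Fold7 T (X ++ I) (Y ++ J)) : Fld.FoldH T (rev I) J (rev X) Y := by
  obtain ⟨X', Y', p', q', p, q, h1, h2, h3, h4, h5, h6, h7⟩ := h
  have e3 := Brd_height h3 (Brd_append (Brd_append hX hI) h1)
  have e4 := Brd_height h4 (Brd_append (Brd_append hY hJ) h2)
  refine ⟨x, y, i + p', j + q', rev X', Y', Brd_rev hX, hY, ?_, Brd_append hJ h2, ?_, ?_, ?_⟩
  · rw [← rev_append]
    exact Brd_rev (Brd_append hI h1)
  · omega
  · omega
  · unfold Nb
    have e5 : rev (rev X' ++ (rev I ++ rev X)) = X ++ I ++ X' := by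
      rw [← rev_append, ← rev_append, rev_rev]
    have e6 : Y ++ (J ++ Y') = Y ++ J ++ Y' := by rw [List.append_assoc]
    rw [e5, e6]
    exact h7

end FoldOf

open FoldOf Num2Aux in
/-- (H6) gives FoldGain -/
theorem foldGain_of (h6 : ∀ A : ℕ, ∃ ε C : ℝ, 0 < ε ∧ ε < 1 ∧ 0 < C ∧ ∀ (T a b : ℕ) (I P : List Bool),
      2 ^ (b + 2) ≤ T → g2 (Fld.BrB b) (Fld.BrB a) (Fld.FoldH T I P) ≤
        ENNReal.ofReal (C * UU (2 ^ max a b) * (if a ≤ b then Fld.fin ε A b a P else Fld.fout ε A T b a I))) :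
    ∀ A : ℕ, ∃ C δ : ℝ, 0 < C ∧ 0 < δ ∧ FoldGain A C δ := by
  intro A
  obtain ⟨ε, C, hε, hε1, hC, h⟩ := h6 A
  have hp : 0 < 1 - ε := by linarith
  have hinv : 1 ≤ (1 - ε)⁻¹ := (one_le_inv₀ hp).2 (by linarith)
  have hlog : Real.logb 2 (1 - ε) < 0 := Real.logb_neg (by norm_num) hp (by linarith)
  set δ : ℝ := -(Real.logb 2 (1 - ε)) / 2 with hδ
  have hδ0 : 0 < δ := by rw [hδ]; linarith
  refine ⟨C * (1 - ε)⁻¹, δ, mul_pos hC (inv_pos.2 hp), hδ0, ?_⟩
  intro j a b hj haj hbj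
  -- the bound without gain
  have hT : 2 ^ (a - 1 + 2) ≤ 2 ^ j := Nat.pow_le_pow_right (by norm_num) (by omega)
  have hU : UU (2 ^ max (b - 1) (a - 1)) ≤ UU (2 ^ max a b) := by
    apply UU_mono
    exact Nat.pow_le_pow_right (by norm_num) (by omega)
  have hfin1 : ∀ n : ℕ, (1 - ε) ^ n ≤ 1 := fun n => pow_le_one₀ hp.le (by linarith)
  have hfin0 : ∀ n : ℕ, 0 ≤ (1 - ε) ^ n := fun n => pow_nonneg hp.le n
  have key : ∀ (I J : List Bool) (i l : ℕ), I ∈ Brd i → J ∈ Brd l → ∀ g : ℝ, 0 ≤ g →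
      ((if b - 1 ≤ a - 1 then Fld.fin ε A (a - 1) (b - 1) J else Fld.fout ε A (2 ^ j) (a - 1) (b - 1) (rev I)) ≤
        (1 - ε)⁻¹ * g) →
      g2 (Bk a) (Bk b) (fun X Y => Fold7 (2 ^ j) (X ++ I) (Y ++ J)) ≤
        ENNReal.ofReal (C * (1 - ε)⁻¹ * UU (2 ^ max a b) * g) := by
    intro I J i l hI hJ g hg hle
    refine (g2_rev_le (A' := Fld.BrB (a - 1)) (B' := Fld.BrB (b - 1)) (R' := Fld.FoldH (2 ^ j) (rev I) J) ?_).trans
      ((h (2 ^ j) (b - 1) (a - 1) (rev I) J hT).trans (ENNReal.ofReal_le_ofReal ?_))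
    · intro X Y hX hY hXY
      refine ⟨Bk_sub a (Bk_rev hX), Bk_sub b hY, ?_⟩
      obtain ⟨x, _, hx⟩ := hX
      obtain ⟨y, _, hy⟩ := hY
      exact foldH_of hx hy hI hJ hXY
    · have hU0 : 0 ≤ UU (2 ^ max (b - 1) (a - 1)) := (UU_pos _).le
      calc C * UU (2 ^ max (b - 1) (a - 1)) * (if b - 1 ≤ a - 1 then Fld.fin ε A (a - 1) (b - 1) J
            else Fld.fout ε A (2 ^ j) (a - 1) (b - 1) (rev I))
          ≤ C * UU (2 ^ max (b - 1) (a - 1)) * ((1 - ε)⁻¹ * g) :=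
            mul_le_mul_of_nonneg_left hle (mul_nonneg hC.le hU0)
        _ ≤ C * UU (2 ^ max a b) * ((1 - ε)⁻¹ * g) :=
            mul_le_mul_of_nonneg_right (mul_le_mul_of_nonneg_left hU hC.le)
              (mul_nonneg (inv_nonneg.2 hp.le) hg)
        _ = C * (1 - ε)⁻¹ * UU (2 ^ max a b) * g := by ring
  have hle1 : ∀ (I J : List Bool), (if b - 1 ≤ a - 1 then Fld.fin ε A (a - 1) (b - 1) J
      else Fld.fout ε A (2 ^ j) (a - 1) (b - 1) (rev I)) ≤ 1 := by
    intro I J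
    split_ifs
    · exact hfin1 _
    · exact hfin1 _
  refine ⟨?_, ?_, ?_⟩
  · have := key [] [] 0 0 nil_mem_Brd nil_mem_Brd 1 zero_le_one ((hle1 [] []).trans (by rw [mul_one]; exact hinv))
    simp only [List.append_nil, mul_one] at this
    exact this
  · intro hba r J hJ hbad
    have h4 : ∀ u : Bool, 4 * Wall.nflat A (Wall.sy u false J) (b + 1) a < a - b := by
      intro u
      by_contra hcon
      exact hbad ⟨u, false, by omega⟩
    have hab : b < a := by
      have := h4 false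
      omega
    have h5 := nfl_ge (k0 := a) (Q := J) (h4 false) (by omega) (fun k _ hf => hf)
    have h6' := nfl_ge (k0 := a) (Q := J.map not) (h4 true) (by omega) (fun k _ hf => hf)
    have h7 := key [] J 0 r nil_mem_Brd hJ.1 ((2 : ℝ) ^ (-(δ * ((a : ℝ) - b)))) (by positivity) (by
      rw [if_pos (by omega)]
      unfold Fld.fin
      have h8 := gain_le hε hε1 (n := min (Fld.nfl A J (b - 1) (a - 1)) (Fld.nfl A (J.map not) (b - 1) (a - 1)))
        (D := a - b) (by omega)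
      rw [Nat.cast_sub hab.le] at h8
      exact h8)
    simp only [List.append_nil] at h7
    rw [max_eq_left hba] at h7
    exact h7
  · intro hab r I hI hbad hret
    have h4 : ∀ u : Bool, 4 * Wall.nflat A (Wall.sy u false I) (a + 1) b < b - a := by
      intro u
      by_contra hcon
      exact hbad ⟨u, false, by omega⟩
    have hm : 2 * 2 ^ (j - 2) ≤ 2 ^ j / 2 := by
      obtain ⟨j', rfl⟩ : ∃ j', j = j' + 2 := ⟨j - 2, by omega⟩
      rw [Nat.add_sub_cancel, pow_succ, pow_succ]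
      omega
    have hτ : 1 ≤ 2 ^ (j - 2) := Nat.one_le_two_pow
    have h5 := nfl_ge (k0 := b - (b - a) / 4 + 2) (Q := Fld.pre (2 ^ j / 2) I) (h4 false) (by omega)
      (fun k hk hf => flat_pre hτ hm hk hret hf)
    have h6' := nfl_ge (k0 := b - (b - a) / 4 + 2) (Q := (Fld.pre (2 ^ j / 2) I).map not) (h4 true) (by omega)
      (fun k hk hf => flat_pre_not hτ hm hk hret hf)
    have h7 := key I [] r 0 hI.1 nil_mem_Brd ((2 : ℝ) ^ (-(δ * ((b : ℝ) - a)))) (by positivity) (by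
      by_cases hcase : b - 1 ≤ a - 1
      · have h9 := gain_le hε hε1 (n := 0) (D := b - a) (by omega)
        rw [Nat.cast_sub hab.le, pow_zero] at h9
        exact (hle1 I []).trans h9
      · rw [if_neg hcase]
        unfold Fld.fout
        rw [rev_rev]
        have h8 := gain_le hε hε1 (n := min (Fld.nfl A (Fld.pre (2 ^ j / 2) I) (a - 1) (b - 1))
          (Fld.nfl A ((Fld.pre (2 ^ j / 2) I).map not) (a - 1) (b - 1))) (D := b - a) (by omega)
        rw [Nat.cast_sub hab.le] at h8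
        exact h8)
    simp only [List.append_nil] at h7
    rw [max_eq_right hab.le] at h7
    exact h7

end HexObs
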