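import Pool.Agent.PHW7.CutSum
import Pool.Agent.PHW.HangA
import Pool.Agent.PHW.Rotate
import Pool.Agent.PHW.Num2

/-!
PHW, section S7, R4a: cutting the two outer strands of a section.
-/

set_option autoImplicit false

namespace HexObs

open Complex Finset ENNReal

namespace SecAux

/-- bridges of different heights are different words -/
theorem sum_sw_le {S : Finset ℕ} {B : Set (List Bool)} {Φ : List Bool → ℝ≥0∞} (h : ∀ n ∈ S, Brd n ⊆ B) :
    ∑ n ∈ S, sw (Brd n) Φ ≤ sw B Φ := by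
  classical
  have h1 : ∑ n ∈ S, sw (Brd n) Φ = ∑' t : List Bool, ∑ n ∈ S, if t ∈ Brd n then wE t * Φ t else 0 := by
    rw [Summable.tsum_finsetSum fun _ _ => ENNReal.summable]
    exact Finset.sum_congr rfl fun i _ => sw_eq _ _
  rw [h1, sw_eq]
  refine ENNReal.tsum_le_tsum fun t => ?_
  by_cases ht : ∃ n ∈ S, t ∈ Brd n
  · obtain ⟨n, hn, htn⟩ := ht
    rw [if_pos (h n hn htn), Finset.sum_eq_single_of_mem n hn, if_pos htn]
    intro n' _ hne
    rw [if_neg]
    intro h'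
    exact hne (Brd_height h' htn)
  · rw [Finset.sum_eq_zero]
    · exact zero_le
    · intro n hn
      rw [if_neg]
      intro h'
      exact ht ⟨n, hn, h'⟩

/-- indicator of the fold relation -/
noncomputable def fI (k : ℕ) (X Y : List Bool) : ℝ≥0∞ := ind (Fold7 (2 ^ (k - 1)) X Y)

lemma step_brd {n : ℕ} {g : List Bool} (c : Bool) (h : g ∈ Brd n) : c :: (!c) :: g ∈ Brd (n + 1) := by
  have := Brd_step (b := !c) h
  rwa [Bool.not_not] at this

lemma brd_step_end {n : ℕ} {g : List Bool} (c : Bool) (h : g ∈ Brd n) : g ++ [!c, c] ∈ Brd (n + 1) :=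
  Brd_append h (step_mem_Brd c)

/-- upper fold -/
theorem up_cut {k e m n r μ : ℕ} {N0 I M0 : List Bool} {c : Bool} (hk : 4 ≤ k) (hN : N0 ∈ Brd n) (hI : I ∈ Irr r)
    (hM : M0 ∈ Brd μ) (he : e = n + r + μ + m + 2) (h2 : 2 ^ (k - 1) ≤ e - m - 1) (h3 : 2 ^ (k - 2) ≤ e) :
    gf {X | X ∈ Brd e ∧ Nbr X (c :: (!c) :: (N0 ++ I ++ M0))} ≤
      ∑ x ∈ Finset.range (2 ^ (k - 2)), ∑ r1 ∈ Finset.range (e + 1 - x), vk k x r1 *
        sw (Brd x) (fun X => sw (Irr r1) (fun I1 =>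
          gf (Brd (e - x - r1)) * fI k (X ++ I1) ((c :: (!c) :: N0) ++ I))) := by
  rw [← sw_ind]
  refine (cut_sum hk h3 _).trans ?_
  refine Finset.sum_le_sum fun x hx => Finset.sum_le_sum fun r1 hr1 => mul_le_mul_right ?_ _
  rw [Finset.mem_range] at hr1
  refine sw_mono subset_rfl fun X hX => sw_mono subset_rfl fun I1 hI1 => ?_
  rw [← sw_const]
  refine sw_mono subset_rfl fun Z hZ => ind_mono fun h => ?_
  refine ⟨Z, M0, _, _, e, e - m - 1, hZ, hM, ?_, ?_, h2, by omega, ?_⟩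
  · have h4 := Brd_append (Brd_append hX hI1.1) hZ
    rwa [show x + r1 + (e - x - r1) = e by omega] at h4
  · have h4 := Brd_append (Brd_append (step_brd c hN) hI.1) hM
    rwa [show n + 1 + r + μ = e - m - 1 by omega] at h4
  · have e1 : c :: (!c) :: (N0 ++ I ++ M0) = (c :: (!c) :: N0) ++ I ++ M0 := by simp
    rw [← e1]
    exact h

/-- lower fold -/
theorem low_cut {k h e m n r μ : ℕ} {N0 I M0 : List Bool} {c : Bool} (hk : 4 ≤ k) (hN : N0 ∈ Brd n) (hI : I ∈ Irr r)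
    (hM : M0 ∈ Brd μ) (he : e = n + r + μ + m + 2) (h2 : 2 ^ (k - 1) ≤ e - m - 1) (h3 : e - m - 1 ≤ h)
    (h4 : 2 ^ (k - 2) ≤ h) :
    gf {R | R ∈ Brd h ∧ Nbr R (rev ((N0 ++ I ++ M0) ++ [!c, c]))} ≤
      ∑ x ∈ Finset.range (2 ^ (k - 2)), ∑ r1 ∈ Finset.range (h + 1 - x), vk k x r1 *
        sw (Brd x) (fun X => sw (Irr r1) (fun I1 =>
          gf (Brd (h - x - r1)) * fI k (X ++ I1) (rev (M0 ++ [!c, c]) ++ rev I))) := by
  rw [← sw_ind]
  refine (cut_sum hk h4 _).trans ?_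
  refine Finset.sum_le_sum fun x hx => Finset.sum_le_sum fun r1 hr1 => mul_le_mul_right ?_ _
  rw [Finset.mem_range] at hr1
  refine sw_mono subset_rfl fun X hX => sw_mono subset_rfl fun I1 hI1 => ?_
  rw [← sw_const]
  refine sw_mono subset_rfl fun Z hZ => ind_mono fun h' => ?_
  have e1 : rev ((N0 ++ I ++ M0) ++ [!c, c]) = rev (M0 ++ [!c, c]) ++ rev I ++ rev N0 := by
    rw [List.append_assoc, rev_append, rev_append N0 I, ← List.append_assoc]
  refine ⟨Z, rev N0, _, _, h, e - m - 1, hZ, Brd_rev hN, ?_, ?_, h2, h3, ?_⟩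
  · have h4 := Brd_append (Brd_append hX hI1.1) hZ
    rwa [show x + r1 + (h - x - r1) = h by omega] at h4
  · have h5 := Brd_append (Brd_append (Brd_rev (brd_step_end c hM)) (Brd_rev hI.1)) (Brd_rev hN)
    rwa [show μ + 1 + r + n = e - m - 1 by omega] at h5
  · rw [← e1]
    exact h'

lemma ofReal_UU (n : ℕ) : ENNReal.ofReal (UU n) = ∑ i ∈ Finset.range (n + 1), gf (Brd i) := by
  unfold UU
  rw [ENNReal.ofReal_sum_of_nonneg (fun i _ => (uu_pos i).le)]
  exact Finset.sum_congr rfl fun i _ => by rw [gf_Brd, Wall.BT_ofReal]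

/-- all lower strands -/
noncomputable def LB (k s : ℕ) (Y : List Bool) : ℝ≥0∞ := ∑ x ∈ Finset.range (2 ^ (k - 2)),
  ∑ r1 ∈ Finset.range (4 * s + 1), vk k x r1 * sw (Brd x) (fun X => sw (Irr r1) (fun I1 => fI k (X ++ I1) Y))

/-- sum over the total height -/
theorem low_sum {k s e m n r μ : ℕ} {N0 I M0 : List Bool} {c : Bool} (hk : 5 ≤ k) (hN : N0 ∈ Brd n) (hI : I ∈ Irr r)
    (hM : M0 ∈ Brd μ) (he : e = n + r + μ + m + 2) (h2 : 2 ^ (k - 1) ≤ e - m - 1) :
    ∑ T ∈ (Finset.Ioc s (4 * s)).filter (fun T => e ≤ T),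
      gf {R | R ∈ Brd (T - m) ∧ Nbr R (rev ((N0 ++ I ++ M0) ++ [!c, c]))} ≤
      ENNReal.ofReal (UU (4 * s)) * LB k s (rev (M0 ++ [!c, c]) ++ rev I) := by
  classical
  have hpow : 2 ^ (k - 2) ≤ 2 ^ (k - 1) := Nat.pow_le_pow_right (by norm_num) (by omega)
  have h5 : ∀ T ∈ (Finset.Ioc s (4 * s)).filter (fun T => e ≤ T),
      gf {R | R ∈ Brd (T - m) ∧ Nbr R (rev ((N0 ++ I ++ M0) ++ [!c, c]))} ≤
      ∑ x ∈ Finset.range (2 ^ (k - 2)), ∑ r1 ∈ Finset.range (4 * s + 1), (if m + x + r1 ≤ T then gf (Brd (T - m - x - r1)) else 0) *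
        (vk k x r1 * sw (Brd x) (fun X => sw (Irr r1) (fun I1 => fI k (X ++ I1) (rev (M0 ++ [!c, c]) ++ rev I)))) := by
    intro T hT
    rw [Finset.mem_filter, Finset.mem_Ioc] at hT
    refine (low_cut (k := k) (h := T - m) (by omega) hN hI hM he h2 (by omega) (by omega)).trans ?_
    refine Finset.sum_le_sum fun x hx => ?_
    have hsub : Finset.range (T - m + 1 - x) ⊆ Finset.range (4 * s + 1) := by
      intro y hy
      rw [Finset.mem_range] at hy ⊢
      omega
    refine le_trans ?_ (Finset.sum_le_sum_of_subset hsub)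
    refine Finset.sum_le_sum fun r1 hr1 => ?_
    rw [Finset.mem_range] at hr1
    rw [if_pos (by rw [Finset.mem_range] at hx; omega)]
    refine le_of_eq ?_
    have e1 : ∀ X, sw (Irr r1) (fun I1 => gf (Brd (T - m - x - r1)) * fI k (X ++ I1) (rev (M0 ++ [!c, c]) ++ rev I)) =
        gf (Brd (T - m - x - r1)) * sw (Irr r1) (fun I1 => fI k (X ++ I1) (rev (M0 ++ [!c, c]) ++ rev I)) :=
      fun X => sw_mul_left _ _ _
    simp only [e1]
    rw [sw_mul_left]
    ring
  refine (Finset.sum_le_sum h5).trans ?_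
  rw [Finset.sum_comm]
  unfold LB
  rw [Finset.mul_sum]
  refine Finset.sum_le_sum fun x _ => ?_
  rw [Finset.sum_comm, Finset.mul_sum]
  refine Finset.sum_le_sum fun r1 _ => ?_
  rw [← Finset.sum_mul]
  refine mul_le_mul_left ?_ _
  rw [← Finset.sum_filter, ofReal_UU]
  calc _ = ∑ i ∈ (((Finset.Ioc s (4 * s)).filter (fun T => e ≤ T)).filter (fun T => m + x + r1 ≤ T)).image
        (fun T => T - m - x - r1), gf (Brd i) := by
        rw [Finset.sum_image]
        intro a ha b hb hab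
        rw [Finset.coe_filter, Set.mem_ofPred_eq, Finset.mem_filter] at ha hb
        simp only at hab
        omega
    _ ≤ _ := by
        apply Finset.sum_le_sum_of_subset
        intro i hi
        rw [Finset.mem_image] at hi
        obtain ⟨T, hT, rfl⟩ := hi
        rw [Finset.mem_filter, Finset.mem_filter, Finset.mem_Ioc] at hT
        rw [Finset.mem_range]
        omega

end SecAux

end HexObs
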