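import Pool.Agent.PHW7.Defs7
import Pool.Agent.PHW.Num2

/-!
PHW, section S7 (deep returns of giants): the sum of the gains over the scales (pure numbers).
-/

set_option autoImplicit false

namespace HexObs

open Complex Finset ENNReal

namespace NumGain

/-- a geometric sum cut at 1 -/
lemma sum_min {q : ℝ} (h0 : 0 < q) (h1 : q < 1) : ∃ C : ℝ, 0 < C ∧ ∀ (B : ℝ) (n : ℕ), 1 ≤ B →
    ∑ d ∈ Finset.range n, min 1 (B * q ^ d) ≤ C * (1 + Real.log B) := by
  have hL : 0 < -Real.log q := by
    have := Real.log_neg h0 h1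
    linarith
  have hq : 0 < 1 - q := by linarith
  refine ⟨1 / (-Real.log q) + 1 + 1 / (1 - q), by positivity, fun B n hB => ?_⟩
  have hlB := Real.log_nonneg hB
  obtain ⟨m, hm⟩ : ∃ m : ℕ, m = ⌈Real.log B / (-Real.log q)⌉₊ := ⟨_, rfl⟩
  have hm1 : Real.log B / (-Real.log q) ≤ m := by rw [hm]; exact Nat.le_ceil _
  have hm2 : (m : ℝ) ≤ Real.log B / (-Real.log q) + 1 := by
    rw [hm]
    exact (Nat.ceil_lt_add_one (by positivity)).le
  have hBq : B * q ^ m ≤ 1 := by
    have e1 : Real.log (B * q ^ m) ≤ 0 := by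
      rw [Real.log_mul (by positivity) (by positivity), Real.log_pow]
      rw [div_le_iff₀ hL] at hm1
      linarith
    by_contra hcon
    push Not at hcon
    have := Real.log_pos hcon
    linarith
  have hB0 : 0 < B := by linarith
  calc ∑ d ∈ Finset.range n, min 1 (B * q ^ d) ≤ ∑ d ∈ Finset.range (m + n), min 1 (B * q ^ d) := by
        apply Finset.sum_le_sum_of_subset_of_nonneg
        · intro d hd
          rw [Finset.mem_range] at hd ⊢
          omega
        · intro d _ _
          positivity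
    _ = ∑ d ∈ Finset.range m, min 1 (B * q ^ d) + ∑ d ∈ Finset.range n, min 1 (B * q ^ (m + d)) :=
        Finset.sum_range_add _ _ _
    _ ≤ ∑ _d ∈ Finset.range m, (1 : ℝ) + ∑ d ∈ Finset.range n, q ^ d := by
        apply add_le_add
        · exact Finset.sum_le_sum fun d _ => min_le_left _ _
        · apply Finset.sum_le_sum
          intro d _
          refine (min_le_right _ _).trans ?_
          calc B * q ^ (m + d) = (B * q ^ m) * q ^ d := by rw [pow_add]; ring
            _ ≤ 1 * q ^ d := by gcongr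
            _ = q ^ d := one_mul _
    _ ≤ m + 1 / (1 - q) := by
        apply add_le_add
        · simp
        · rw [geom_sum_eq h1.ne, ← neg_div_neg_eq, neg_sub, neg_sub]
          gcongr
          have : 0 < q ^ n := by positivity
          linarith
    _ ≤ (1 / (-Real.log q) + 1 + 1 / (1 - q)) * (1 + Real.log B) := by
        have e2 : Real.log B / (-Real.log q) = 1 / (-Real.log q) * Real.log B := by ring
        have e3 : 0 ≤ 1 / (-Real.log q) := by positivity
        have e4 : 0 ≤ 1 / (1 - q) * Real.log B := by positivity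
        nlinarith

/-- sum over the pairs by maximum and difference -/
lemma sum_pairs (k : ℕ) (F : ℕ → ℕ → ℝ) (hF : ∀ h d, 0 ≤ F h d) :
    ∑ a ∈ Finset.range k, ∑ b ∈ Finset.range (k + 2), F (max a b) (max a b - min a b) ≤
      2 * ∑ h ∈ Finset.range (k + 2), ∑ d ∈ Finset.range (k + 2), F h d := by
  have h1 : ∀ a b : ℕ, F (max a b) (max a b - min a b) ≤
      (if a ≤ b then F b (b - a) else 0) + (if b ≤ a then F a (a - b) else 0) := by
    intro a b
    rcases le_total a b with h | h
    · rw [max_eq_right h, min_eq_left h, if_pos h]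
      have : 0 ≤ (if b ≤ a then F a (a - b) else 0) := by
        split_ifs
        · exact hF _ _
        · exact le_rfl
      linarith
    · rw [max_eq_left h, min_eq_right h, if_pos h]
      have : 0 ≤ (if a ≤ b then F b (b - a) else 0) := by
        split_ifs
        · exact hF _ _
        · exact le_rfl
      linarith
  -- one of the two sums
  have h2 : ∀ b : ℕ, ∀ n : ℕ, b < k + 2 → ∑ a ∈ Finset.range n, (if a ≤ b then F b (b - a) else 0) ≤
      ∑ d ∈ Finset.range (k + 2), F b d := by
    intro b n hb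
    calc ∑ a ∈ Finset.range n, (if a ≤ b then F b (b - a) else 0)
        = ∑ a ∈ (Finset.range n).filter (fun a => a ≤ b), F b (b - a) := (Finset.sum_filter _ _).symm
      _ ≤ ∑ a ∈ Finset.range (b + 1), F b (b - a) := by
          apply Finset.sum_le_sum_of_subset_of_nonneg
          · intro a ha
            rw [Finset.mem_filter] at ha
            rw [Finset.mem_range]
            omega
          · intro a _ _
            exact hF _ _
      _ = ∑ d ∈ Finset.range (b + 1), F b d := by
          rw [← Finset.sum_range_reflect]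
          apply Finset.sum_congr rfl
          intro a ha
          rw [Finset.mem_range] at ha
          congr 1
          omega
      _ ≤ ∑ d ∈ Finset.range (k + 2), F b d := by
          apply Finset.sum_le_sum_of_subset_of_nonneg
          · intro a ha
            rw [Finset.mem_range] at ha ⊢
            omega
          · intro a _ _
            exact hF _ _
  calc ∑ a ∈ Finset.range k, ∑ b ∈ Finset.range (k + 2), F (max a b) (max a b - min a b)
      ≤ ∑ a ∈ Finset.range k, ∑ b ∈ Finset.range (k + 2),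
          ((if a ≤ b then F b (b - a) else 0) + (if b ≤ a then F a (a - b) else 0)) :=
        Finset.sum_le_sum fun a _ => Finset.sum_le_sum fun b _ => h1 a b
    _ = ∑ b ∈ Finset.range (k + 2), ∑ a ∈ Finset.range k, (if a ≤ b then F b (b - a) else 0) +
        ∑ a ∈ Finset.range k, ∑ b ∈ Finset.range (k + 2), (if b ≤ a then F a (a - b) else 0) := by
        rw [Finset.sum_comm (s := Finset.range (k + 2)), ← Finset.sum_add_distrib]
        apply Finset.sum_congr rfl
        intro a _
        rw [← Finset.sum_add_distrib]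
    _ ≤ ∑ h ∈ Finset.range (k + 2), ∑ d ∈ Finset.range (k + 2), F h d +
        ∑ h ∈ Finset.range (k + 2), ∑ d ∈ Finset.range (k + 2), F h d := by
        apply add_le_add
        · apply Finset.sum_le_sum
          intro b hb
          exact h2 b k (Finset.mem_range.1 hb)
        · calc ∑ a ∈ Finset.range k, ∑ b ∈ Finset.range (k + 2), (if b ≤ a then F a (a - b) else 0)
              ≤ ∑ a ∈ Finset.range k, ∑ d ∈ Finset.range (k + 2), F a d := by
                apply Finset.sum_le_sum
                intro a ha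
                rw [Finset.mem_range] at ha
                exact h2 a (k + 2) (by omega)
            _ ≤ _ := by
                apply Finset.sum_le_sum_of_subset_of_nonneg
                · intro a ha
                  rw [Finset.mem_range] at ha ⊢
                  omega
                · intro a _ _
                  exact Finset.sum_nonneg fun d _ => hF _ _
    _ = _ := by ring

lemma sqrt_min_add {x y z ρ : ℝ} (hx : 0 ≤ x) (hy : 0 ≤ y) (hz : 0 ≤ z) (hρ : 0 ≤ ρ) :
    Real.sqrt (min 1 (ρ * (x + y + z))) ≤ min 1 (Real.sqrt (ρ * x)) + min 1 (Real.sqrt (ρ * y)) +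
      min 1 (Real.sqrt (ρ * z)) := by
  have key : ∀ u v : ℝ, 0 ≤ u → 0 ≤ v → min 1 (Real.sqrt (u + v)) ≤ min 1 (Real.sqrt u) + min 1 (Real.sqrt v) := by
    intro u v hu hv
    have h1 : Real.sqrt (u + v) ≤ Real.sqrt u + Real.sqrt v := by
      rw [Real.sqrt_le_left (by positivity)]
      nlinarith [Real.sq_sqrt hu, Real.sq_sqrt hv, Real.sqrt_nonneg u, Real.sqrt_nonneg v,
        mul_nonneg (Real.sqrt_nonneg u) (Real.sqrt_nonneg v)]
    rcases le_total 1 (Real.sqrt u) with h | h
    · rw [min_eq_left h]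
      have : 0 ≤ min 1 (Real.sqrt v) := le_min zero_le_one (Real.sqrt_nonneg _)
      linarith [min_le_left 1 (Real.sqrt (u + v))]
    · rcases le_total 1 (Real.sqrt v) with h' | h'
      · rw [min_eq_left h']
        have : 0 ≤ min 1 (Real.sqrt u) := le_min zero_le_one (Real.sqrt_nonneg _)
        linarith [min_le_left 1 (Real.sqrt (u + v))]
      · rw [min_eq_right h, min_eq_right h']
        exact (min_le_right _ _).trans h1
  have h0 : Real.sqrt (min 1 (ρ * (x + y + z))) ≤ min 1 (Real.sqrt (ρ * x + ρ * y + ρ * z)) := by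
    apply le_min
    · rw [Real.sqrt_le_one]
      exact min_le_left _ _
    · apply Real.sqrt_le_sqrt
      refine (min_le_right _ _).trans (le_of_eq (by ring))
  refine h0.trans ((key _ _ (by positivity) (by positivity)).trans ?_)
  gcongr
  exact key _ _ (by positivity) (by positivity)

lemma sum_lin {q : ℝ} (h0 : 0 < q) (h1 : q < 1) : ∃ C : ℝ, 0 < C ∧ ∀ n : ℕ,
    ∑ i ∈ Finset.range n, q ^ i * (1 + i) ≤ C := by
  have hs : Summable (fun i : ℕ => q ^ i * (1 + (i : ℝ))) := by
    have a1 : Summable (fun i : ℕ => q ^ i) := summable_geometric_of_lt_one h0.le h1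
    have a2 : Summable (fun i : ℕ => (i : ℝ) ^ 1 * q ^ i) :=
      summable_pow_mul_geometric_of_norm_lt_one 1 (by rw [Real.norm_eq_abs, abs_of_pos h0]; exact h1)
    refine (a1.add a2).congr fun i => ?_
    ring
  refine ⟨∑' i : ℕ, q ^ i * (1 + (i : ℝ)), ?_, fun n => ?_⟩
  · refine hs.tsum_pos (fun i => by positivity) 0 (by positivity)
  · exact hs.sum_le_tsum _ fun i _ => by positivity

end NumGain

open NumGain

/-- R4c (NumGain.lean): pure numbers -/
theorem num_gain {δ c : ℝ} (hδ : 0 < δ) (hc : 0 < c) : ∃ C : ℝ, 0 < C ∧ ∀ (k : ℕ) (X ρ : ℝ), 1 ≤ X → 1 ≤ ρ →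
    ∑ a ∈ Finset.range k, ∑ b ∈ Finset.range (k + 2),
      UU (2 ^ max a b) / UU (2 ^ k) * Real.sqrt (min 1 (ρ * GA δ c X k a b)) ≤ C * (1 + Real.log ρ + Real.log X) := by
  have hCW := Num2Aux.CW_pos
  obtain ⟨θ, hθ⟩ : ∃ θ : ℝ, θ = 1 / (6 + CW) := ⟨_, rfl⟩
  have hθ0 : 0 < θ := by rw [hθ]; positivity
  have hθ1 : θ ≤ 1 := by
    rw [hθ, div_le_one (by linarith)]
    linarith
  have hlt : ∀ e : ℝ, 0 < e → (2 : ℝ) ^ (-e) < 1 := fun e he =>
    Real.rpow_lt_one_of_one_lt_of_neg (by norm_num) (by linarith)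
  have hpos : ∀ e : ℝ, (0 : ℝ) < (2 : ℝ) ^ e := fun e => by positivity
  obtain ⟨C1, hC1, s1⟩ := sum_min (hpos (-(δ / 2))) (hlt (δ / 2) (by linarith))
  obtain ⟨C2, hC2, s2⟩ := sum_min (hpos (-1)) (hlt 1 (by linarith))
  obtain ⟨C3, hC3, s3⟩ := sum_min (hpos (-(c / 8))) (hlt (c / 8) (by linarith))
  obtain ⟨C4, hC4, s4⟩ := sum_lin (hpos (-θ)) (hlt θ hθ0)
  obtain ⟨D, hD⟩ : ∃ D : ℝ, D = (C1 + C2 + C3) * (1 + c) := ⟨_, rfl⟩
  have hD0 : 0 < D := by rw [hD]; positivity
  refine ⟨2 * (4 * D * C4), by positivity, fun k X ρ hX hρ => ?_⟩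
  have hlX := Real.log_nonneg hX
  have hlρ := Real.log_nonneg hρ
  have hX0 : 0 < X := by linarith
  have hρ0 : 0 < ρ := by linarith
  -- the terms as a function of the maximum and the difference
  set G : ℕ → ℕ → ℝ := fun h d => (2 : ℝ) ^ (-(δ * d)) + (2 : ℝ) ^ ((k : ℝ) - h - 2 * d) +
    X * (2 : ℝ) ^ (-(c * ((k : ℝ) - h + d / 4))) with hG
  set F : ℕ → ℕ → ℝ := fun h d => UU (2 ^ h) / UU (2 ^ k) * Real.sqrt (min 1 (ρ * G h d)) with hF
  have hUk := Num2Aux.UU_pos (2 ^ k)
  have hF0 : ∀ h d, 0 ≤ F h d := by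
    intro h d
    have := Num2Aux.UU_pos (2 ^ h)
    rw [hF]
    positivity
  have e1 : ∑ a ∈ Finset.range k, ∑ b ∈ Finset.range (k + 2),
      UU (2 ^ max a b) / UU (2 ^ k) * Real.sqrt (min 1 (ρ * GA δ c X k a b)) =
      ∑ a ∈ Finset.range k, ∑ b ∈ Finset.range (k + 2), F (max a b) (max a b - min a b) := by
    apply Finset.sum_congr rfl
    intro a _
    apply Finset.sum_congr rfl
    intro b _
    have e2 : |(a : ℝ) - b| = ((max a b - min a b : ℕ) : ℝ) := by
      rcases le_total a b with h | h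
      · rw [max_eq_right h, min_eq_left h, Nat.cast_sub h, abs_of_nonpos]
        · ring
        · have : (a : ℝ) ≤ b := by exact_mod_cast h
          linarith
      · rw [max_eq_left h, min_eq_right h, Nat.cast_sub h, abs_of_nonneg]
        have : (b : ℝ) ≤ a := by exact_mod_cast h
        linarith
    rw [hF, hG]
    unfold GA
    rw [e2]
  rw [e1]
  refine (sum_pairs k F hF0).trans ?_
  -- the ratio of the U
  have hU : ∀ h, h < k + 2 → UU (2 ^ h) / UU (2 ^ k) ≤ 4 * ((2 : ℝ) ^ (-θ)) ^ (k + 1 - h) := by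
    intro h hh
    have hUh := Num2Aux.UU_pos (2 ^ h)
    rw [div_le_iff₀ hUk]
    rcases Nat.lt_or_ge k h with h1 | h1
    · have h2 : h = k + 1 := by omega
      rw [h2, Nat.sub_self, pow_zero, pow_succ, mul_comm (2 ^ k) 2]
      have := UU_double (2 ^ k)
      linarith
    · have g := UU_growth (s := 2 ^ h) (T := 2 ^ k) Nat.one_le_two_pow (Nat.pow_le_pow_right (by norm_num) h1)
      rw [← hθ] at g
      push_cast at g
      have e3 : (2 : ℝ) ^ k / 2 ^ h = 2 ^ (k - h) := by
        rw [div_eq_iff (by positivity), ← pow_add]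
        congr 1
        omega
      rw [e3] at g
      have e4 : ((2 : ℝ) ^ (k - h)) ^ θ * ((2 : ℝ) ^ (-θ)) ^ (k + 1 - h) = (2 : ℝ) ^ (-θ) := by
        rw [show k + 1 - h = (k - h) + 1 by omega, pow_succ, ← mul_assoc, ← Real.rpow_natCast (2 : ℝ) (k - h),
          ← Real.rpow_mul (by norm_num), ← Real.rpow_natCast ((2 : ℝ) ^ (-θ)) (k - h), ← Real.rpow_mul (by norm_num),
          ← Real.rpow_add (by norm_num)]
        have : ((k - h : ℕ) : ℝ) * θ + -θ * ((k - h : ℕ) : ℝ) = 0 := by ring
        rw [this, Real.rpow_zero, one_mul]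
      have e5 : (1 : ℝ) / 2 ≤ (2 : ℝ) ^ (-θ) := by
        calc (1 : ℝ) / 2 = (2 : ℝ) ^ (-1 : ℝ) := by rw [Real.rpow_neg_one]; norm_num
          _ ≤ (2 : ℝ) ^ (-θ) := Real.rpow_le_rpow_of_exponent_le (by norm_num) (by linarith)
      have hq : 0 < ((2 : ℝ) ^ (-θ)) ^ (k + 1 - h) := by positivity
      -- UU h = UU h * (4 * 2^(-θ)) / (...) 
      calc UU (2 ^ h) ≤ UU (2 ^ h) * (2 * (2 : ℝ) ^ (-θ)) := le_mul_of_one_le_right hUh.le (by linarith)
        _ = 2 * (UU (2 ^ h) * ((2 : ℝ) ^ (k - h)) ^ θ) * ((2 : ℝ) ^ (-θ)) ^ (k + 1 - h) := by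
            linear_combination (-2 * UU (2 ^ h)) * e4
        _ ≤ 2 * (2 * UU (2 ^ k)) * ((2 : ℝ) ^ (-θ)) ^ (k + 1 - h) := by gcongr
        _ = _ := by ring
  -- the sum over the differences
  have hd : ∀ h, h < k + 2 → ∑ d ∈ Finset.range (k + 2), Real.sqrt (min 1 (ρ * G h d)) ≤
      D * ((1 + Real.log ρ + Real.log X) * (1 + ((k + 1 - h : ℕ) : ℝ))) := by
    intro h hh
    obtain ⟨i, hi⟩ : ∃ i : ℕ, i = k + 1 - h := ⟨_, rfl⟩
    have hkh : (k : ℝ) - h = (i : ℝ) - 1 := by
      rw [hi, Nat.cast_sub (by omega)]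
      push_cast
      ring
    rw [← hi]
    have t1 : ∀ d : ℕ, min 1 (Real.sqrt (ρ * (2 : ℝ) ^ (-(δ * d)))) ≤
        min 1 (Real.sqrt ρ * ((2 : ℝ) ^ (-(δ / 2))) ^ d) := by
      intro d
      apply min_le_min le_rfl
      rw [Real.sqrt_mul hρ0.le]
      gcongr
      apply le_of_eq
      rw [Real.sqrt_eq_rpow, ← Real.rpow_mul (by norm_num), ← Real.rpow_natCast, ← Real.rpow_mul (by norm_num)]
      congr 1
      ring
    have t2 : ∀ d : ℕ, min 1 (Real.sqrt (ρ * (2 : ℝ) ^ ((k : ℝ) - h - 2 * d))) ≤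
        min 1 (Real.sqrt (ρ * 2 ^ i) * ((2 : ℝ) ^ (-1 : ℝ)) ^ d) := by
      intro d
      apply min_le_min le_rfl
      have e3 : Real.sqrt (ρ * 2 ^ i) * ((2 : ℝ) ^ (-1 : ℝ)) ^ d =
          Real.sqrt (ρ * 2 ^ i * (2 : ℝ) ^ (-(2 * d : ℝ))) := by
        rw [Real.sqrt_mul (show (0 : ℝ) ≤ ρ * 2 ^ i by positivity) ((2 : ℝ) ^ (-(2 * d : ℝ)))]
        congr 1
        rw [Real.sqrt_eq_rpow, ← Real.rpow_mul (by norm_num), ← Real.rpow_natCast, ← Real.rpow_mul (by norm_num)]
        congr 1
        ring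
      rw [e3]
      apply Real.sqrt_le_sqrt
      rw [mul_assoc]
      apply mul_le_mul_of_nonneg_left _ hρ0.le
      rw [← Real.rpow_natCast, ← Real.rpow_add (by norm_num)]
      apply Real.rpow_le_rpow_of_exponent_le (by norm_num)
      linarith
    have t3 : ∀ d : ℕ, min 1 (Real.sqrt (ρ * (X * (2 : ℝ) ^ (-(c * ((k : ℝ) - h + d / 4)))))) ≤
        min 1 (Real.sqrt (ρ * X * (2 : ℝ) ^ c) * ((2 : ℝ) ^ (-(c / 8))) ^ d) := by
      intro d
      apply min_le_min le_rfl
      have e3 : Real.sqrt (ρ * X * (2 : ℝ) ^ c) * ((2 : ℝ) ^ (-(c / 8))) ^ d =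
          Real.sqrt (ρ * X * (2 : ℝ) ^ c * (2 : ℝ) ^ (-(c / 4 * d))) := by
        rw [Real.sqrt_mul (show (0:ℝ) ≤ ρ * X * (2 : ℝ) ^ c by positivity)]
        congr 1
        rw [Real.sqrt_eq_rpow, ← Real.rpow_mul (by norm_num), ← Real.rpow_natCast, ← Real.rpow_mul (by norm_num)]
        congr 1
        ring
      rw [e3]
      apply Real.sqrt_le_sqrt
      have e4 : ρ * X * (2 : ℝ) ^ c * (2 : ℝ) ^ (-(c / 4 * d)) = ρ * (X * (2 : ℝ) ^ (c + -(c / 4 * d))) := by
        rw [Real.rpow_add (by norm_num)]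
        ring
      rw [e4]
      apply mul_le_mul_of_nonneg_left _ hρ0.le
      apply mul_le_mul_of_nonneg_left _ hX0.le
      apply Real.rpow_le_rpow_of_exponent_le (by norm_num)
      rw [hkh]
      have : 0 ≤ c * i := by positivity
      nlinarith
    have hb2 : (1 : ℝ) ≤ 2 ^ i := one_le_pow₀ (by norm_num)
    have hb3 : (1 : ℝ) ≤ (2 : ℝ) ^ c := Real.one_le_rpow (by norm_num) hc.le
    have b1 : 1 ≤ Real.sqrt ρ := Real.one_le_sqrt.2 hρ
    have b2 : 1 ≤ Real.sqrt (ρ * 2 ^ i) := Real.one_le_sqrt.2 (one_le_mul_of_one_le_of_one_le hρ hb2)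
    have b3 : 1 ≤ Real.sqrt (ρ * X * (2 : ℝ) ^ c) :=
      Real.one_le_sqrt.2 (one_le_mul_of_one_le_of_one_le (one_le_mul_of_one_le_of_one_le hρ hX) hb3)
    have hl2 : Real.log 2 ≤ 1 := by
      have := Real.log_two_lt_d9
      linarith
    have hl20 : 0 ≤ Real.log 2 := Real.log_nonneg (by norm_num)
    have l1 : Real.log (Real.sqrt ρ) ≤ Real.log ρ := by
      rw [Real.log_sqrt hρ0.le]
      linarith
    have l2 : Real.log (Real.sqrt (ρ * 2 ^ i)) ≤ Real.log ρ + i := by
      rw [Real.log_sqrt (by positivity), Real.log_mul (by positivity) (by positivity), Real.log_pow]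
      have : (i : ℝ) * Real.log 2 ≤ i * 1 := by gcongr
      have : 0 ≤ (i : ℝ) := Nat.cast_nonneg i
      linarith
    have l3 : Real.log (Real.sqrt (ρ * X * (2 : ℝ) ^ c)) ≤ Real.log ρ + Real.log X + c := by
      rw [Real.log_sqrt (by positivity), Real.log_mul (by positivity) (by positivity),
        Real.log_mul (by positivity) (by positivity), Real.log_rpow (by norm_num)]
      have : c * Real.log 2 ≤ c * 1 := by gcongr
      linarith
    calc ∑ d ∈ Finset.range (k + 2), Real.sqrt (min 1 (ρ * G h d))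
        ≤ ∑ d ∈ Finset.range (k + 2), (min 1 (Real.sqrt ρ * ((2 : ℝ) ^ (-(δ / 2))) ^ d) +
            min 1 (Real.sqrt (ρ * 2 ^ i) * ((2 : ℝ) ^ (-1 : ℝ)) ^ d) +
            min 1 (Real.sqrt (ρ * X * (2 : ℝ) ^ c) * ((2 : ℝ) ^ (-(c / 8))) ^ d)) := by
          apply Finset.sum_le_sum
          intro d _
          rw [hG]
          refine (sqrt_min_add (by positivity) (by positivity) (by positivity) hρ0.le).trans ?_
          exact add_le_add (add_le_add (t1 d) (t2 d)) (t3 d)
      _ ≤ C1 * (1 + Real.log (Real.sqrt ρ)) + C2 * (1 + Real.log (Real.sqrt (ρ * 2 ^ i))) +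
            C3 * (1 + Real.log (Real.sqrt (ρ * X * (2 : ℝ) ^ c))) := by
          rw [Finset.sum_add_distrib, Finset.sum_add_distrib]
          exact add_le_add (add_le_add (s1 _ _ b1) (s2 _ _ b2)) (s3 _ _ b3)
      _ ≤ C1 * (1 + Real.log ρ) + C2 * (1 + (Real.log ρ + i)) + C3 * (1 + (Real.log ρ + Real.log X + c)) := by
          gcongr
      _ ≤ D * ((1 + Real.log ρ + Real.log X) * (1 + (i : ℝ))) := by
          have hi0 : 0 ≤ (i : ℝ) := Nat.cast_nonneg i
          have hL : 1 ≤ 1 + Real.log ρ + Real.log X := by linarith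
          set L := 1 + Real.log ρ + Real.log X with hLdef
          have m1 : 1 + Real.log ρ ≤ (1 + c) * (L * (1 + i)) := by
            have : L ≤ L * (1 + i) := le_mul_of_one_le_right (by linarith) (by linarith)
            have h2 : L * (1 + (i : ℝ)) ≤ (1 + c) * (L * (1 + i)) := le_mul_of_one_le_left (by positivity) (by linarith)
            linarith
          have m2 : 1 + (Real.log ρ + i) ≤ (1 + c) * (L * (1 + i)) := by
            have : L + i ≤ L * (1 + i) := by nlinarith
            have h2 : L * (1 + (i : ℝ)) ≤ (1 + c) * (L * (1 + i)) := le_mul_of_one_le_left (by positivity) (by linarith)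
            linarith
          have m3 : 1 + (Real.log ρ + Real.log X + c) ≤ (1 + c) * (L * (1 + i)) := by
            have : L + c ≤ (1 + c) * L := by nlinarith
            have h2 : (1 + c) * L ≤ (1 + c) * (L * (1 + i)) := by
              apply mul_le_mul_of_nonneg_left _ (by linarith)
              exact le_mul_of_one_le_right (by linarith) (by linarith)
            linarith
          calc _ ≤ C1 * ((1 + c) * (L * (1 + i))) + C2 * ((1 + c) * (L * (1 + i))) + C3 * ((1 + c) * (L * (1 + i))) := by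
                gcongr
            _ = _ := by rw [hD]; ring
  have hL0 : 0 ≤ 1 + Real.log ρ + Real.log X := by linarith
  have hsum : ∑ h ∈ Finset.range (k + 2), ∑ d ∈ Finset.range (k + 2), F h d ≤
      4 * D * C4 * (1 + Real.log ρ + Real.log X) := by
    calc ∑ h ∈ Finset.range (k + 2), ∑ d ∈ Finset.range (k + 2), F h d
        ≤ ∑ h ∈ Finset.range (k + 2), 4 * ((2 : ℝ) ^ (-θ)) ^ (k + 1 - h) *
            (D * ((1 + Real.log ρ + Real.log X) * (1 + ((k + 1 - h : ℕ) : ℝ)))) := by
          apply Finset.sum_le_sum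
          intro h hh
          rw [Finset.mem_range] at hh
          rw [hF]
          simp only
          rw [← Finset.mul_sum]
          have := Num2Aux.UU_pos (2 ^ h)
          apply mul_le_mul (hU h hh) (hd h hh)
          · exact Finset.sum_nonneg fun d _ => Real.sqrt_nonneg _
          · positivity
      _ = 4 * D * (1 + Real.log ρ + Real.log X) *
            ∑ h ∈ Finset.range (k + 2), ((2 : ℝ) ^ (-θ)) ^ (k + 1 - h) * (1 + ((k + 1 - h : ℕ) : ℝ)) := by
          rw [Finset.mul_sum]
          apply Finset.sum_congr rfl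
          intro h _
          ring
      _ = 4 * D * (1 + Real.log ρ + Real.log X) *
            ∑ i ∈ Finset.range (k + 2), ((2 : ℝ) ^ (-θ)) ^ i * (1 + (i : ℝ)) := by
          congr 1
          rw [← Finset.sum_range_reflect]
          apply Finset.sum_congr rfl
          intro h hh
          rw [Finset.mem_range] at hh
          rw [show k + 1 - (k + 2 - 1 - h) = h by omega]
      _ ≤ 4 * D * (1 + Real.log ρ + Real.log X) * C4 := by
          gcongr
          exact s4 (k + 2)
      _ = _ := by ring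
  linarith

end HexObs
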