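import Pool.Agent.PHW7.SecLe5
import Pool.Agent.PHW7.NumV
import Pool.Agent.PHW7.NumGain

/-!
PHW, section S7, R4d: the bound for one block of sections, from the average gains (R4b) as a hypothesis.
-/

set_option autoImplicit false

namespace HexObs

open Complex Finset ENNReal

/-- R4a -/
theorem sec_le : ∃ C : ℝ, 0 < C ∧ ∀ k m0 s : ℕ, 5 ≤ k → 1 ≤ m0 → 8 * (m0 + 2) ≤ 2 ^ k →
    SecBlk k m0 s ≤ ENNReal.ofReal (C * UU s) * ∑ b ∈ Finset.range k, ∑ d ∈ Finset.range (k + 2),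
      ∑ r ∈ Finset.range (2 ^ (k + 1)), min (vb k b r) (vb k d r) * sw (Irr r) (fun I =>
        (∑ a ∈ Finset.range (k - 1), UpT k m0 s a b I) * (∑ c ∈ Finset.range (k - 1), LowT k s c d (rev I))) :=
  SecAux.sec_le_of (fun _ _ _ _ hk hn => vk_le_vb hk hn) sum_vb_u

namespace BlockAux

lemma SecBlk_zero {k m0 s : ℕ} (h : 4 * s < 2 ^ k) : SecBlk k m0 s = 0 := by
  unfold SecBlk
  refine Finset.sum_eq_zero fun T hT => Finset.sum_eq_zero fun m _ => ?_
  rw [Finset.mem_Ioc] at hT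
  apply Finset.sum_eq_zero
  intro e he
  rw [Finset.mem_filter, Finset.mem_Ico] at he
  omega

/-- the fourfold sum -/
lemma four_sum {k m0 s : ℕ} {F G : ℕ → ℕ → ℝ} {K0 : ℝ} (hK0 : 0 ≤ K0) (hF : ∀ a b, 0 ≤ F a b) (hG : ∀ a b, 0 ≤ G a b)
    (h : ∀ a b a' b' : ℕ, a < k - 1 → b < k → a' < k - 1 → b' < k + 2 →
      ∑ r ∈ Finset.range (2 ^ (k + 1)), min (vb k b r) (vb k b' r) * sw (Irr r) (fun I =>
        UpT k m0 s a b I * LowT k s a' b' (rev I)) ≤ ENNReal.ofReal (K0 * F a b * G a' b')) :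
    ∑ b ∈ Finset.range k, ∑ d ∈ Finset.range (k + 2), ∑ r ∈ Finset.range (2 ^ (k + 1)),
      min (vb k b r) (vb k d r) * sw (Irr r) (fun I =>
        (∑ a ∈ Finset.range (k - 1), UpT k m0 s a b I) * (∑ c ∈ Finset.range (k - 1), LowT k s c d (rev I))) ≤
      ENNReal.ofReal (K0 * (∑ a ∈ Finset.range k, ∑ b ∈ Finset.range (k + 2), F a b) *
        (∑ a ∈ Finset.range k, ∑ b ∈ Finset.range (k + 2), G a b)) := by
  classical
  calc _ = ∑ b ∈ Finset.range k, ∑ d ∈ Finset.range (k + 2), ∑ a ∈ Finset.range (k - 1), ∑ c ∈ Finset.range (k - 1),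
        ∑ r ∈ Finset.range (2 ^ (k + 1)), min (vb k b r) (vb k d r) * sw (Irr r) (fun I =>
        UpT k m0 s a b I * LowT k s c d (rev I)) := by
        refine Finset.sum_congr rfl fun b _ => Finset.sum_congr rfl fun d _ => ?_
        have h1 : ∀ r, min (vb k b r) (vb k d r) * sw (Irr r) (fun I =>
            (∑ a ∈ Finset.range (k - 1), UpT k m0 s a b I) * (∑ c ∈ Finset.range (k - 1), LowT k s c d (rev I))) =
            ∑ a ∈ Finset.range (k - 1), ∑ c ∈ Finset.range (k - 1), min (vb k b r) (vb k d r) * sw (Irr r) (fun I =>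
            UpT k m0 s a b I * LowT k s c d (rev I)) := by
          intro r
          have e1 : ∀ I, (∑ a ∈ Finset.range (k - 1), UpT k m0 s a b I) *
              (∑ c ∈ Finset.range (k - 1), LowT k s c d (rev I)) = ∑ a ∈ Finset.range (k - 1),
              ∑ c ∈ Finset.range (k - 1), UpT k m0 s a b I * LowT k s c d (rev I) := fun I => Finset.sum_mul_sum _ _ _ _
          simp only [e1]
          rw [sw_sum, Finset.mul_sum]
          refine Finset.sum_congr rfl fun a _ => ?_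
          rw [sw_sum, Finset.mul_sum]
        simp only [h1]
        rw [Finset.sum_comm]
        refine Finset.sum_congr rfl fun a _ => ?_
        rw [Finset.sum_comm]
    _ ≤ ∑ b ∈ Finset.range k, ∑ d ∈ Finset.range (k + 2), ∑ a ∈ Finset.range (k - 1), ∑ c ∈ Finset.range (k - 1),
        ENNReal.ofReal (K0 * F a b * G c d) := by
        refine Finset.sum_le_sum fun b hb => Finset.sum_le_sum fun d hd => Finset.sum_le_sum fun a ha =>
          Finset.sum_le_sum fun c hc => ?_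
        rw [Finset.mem_range] at hb hd ha hc
        exact h a b c d ha hb hc hd
    _ = ENNReal.ofReal (∑ b ∈ Finset.range k, ∑ d ∈ Finset.range (k + 2), ∑ a ∈ Finset.range (k - 1),
        ∑ c ∈ Finset.range (k - 1), K0 * F a b * G c d) := by
        have h0 : ∀ a b c d, 0 ≤ K0 * F a b * G c d := fun a b c d => mul_nonneg (mul_nonneg hK0 (hF _ _)) (hG _ _)
        rw [ENNReal.ofReal_sum_of_nonneg (fun b _ => Finset.sum_nonneg fun d _ => Finset.sum_nonneg fun a _ =>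
          Finset.sum_nonneg fun c _ => h0 a b c d)]
        refine Finset.sum_congr rfl fun b _ => ?_
        rw [ENNReal.ofReal_sum_of_nonneg (fun d _ => Finset.sum_nonneg fun a _ =>
          Finset.sum_nonneg fun c _ => h0 a b c d)]
        refine Finset.sum_congr rfl fun d _ => ?_
        rw [ENNReal.ofReal_sum_of_nonneg (fun a _ => Finset.sum_nonneg fun c _ => h0 a b c d)]
        refine Finset.sum_congr rfl fun a _ => ?_
        rw [ENNReal.ofReal_sum_of_nonneg (fun c _ => h0 a b c d)]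
    _ ≤ _ := by
        apply ENNReal.ofReal_le_ofReal
        have e1 : ∑ b ∈ Finset.range k, ∑ d ∈ Finset.range (k + 2), ∑ a ∈ Finset.range (k - 1),
            ∑ c ∈ Finset.range (k - 1), K0 * F a b * G c d =
            K0 * (∑ b ∈ Finset.range k, ∑ a ∈ Finset.range (k - 1), F a b) *
            (∑ d ∈ Finset.range (k + 2), ∑ c ∈ Finset.range (k - 1), G c d) := by
          have e0 : ∀ b d : ℕ, ∑ a ∈ Finset.range (k - 1), ∑ c ∈ Finset.range (k - 1), K0 * F a b * G c d =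
              (K0 * ∑ a ∈ Finset.range (k - 1), F a b) * ∑ c ∈ Finset.range (k - 1), G c d := by
            intro b d
            have e2 : (K0 * ∑ a ∈ Finset.range (k - 1), F a b) = ∑ a ∈ Finset.range (k - 1), K0 * F a b :=
              Finset.mul_sum _ _ _
            rw [e2, Finset.sum_mul_sum]
          simp only [e0]
          rw [← Finset.sum_mul_sum, ← Finset.mul_sum]
        rw [e1]
        have hsub : ∀ n : ℕ, Finset.range (k - 1) ⊆ Finset.range k := fun _ => Finset.range_subset_range.2 (by omega)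
        have h1 : ∑ b ∈ Finset.range k, ∑ a ∈ Finset.range (k - 1), F a b ≤
            ∑ a ∈ Finset.range k, ∑ b ∈ Finset.range (k + 2), F a b := by
          rw [Finset.sum_comm]
          refine (Finset.sum_le_sum_of_subset_of_nonneg (hsub 0) fun _ _ _ => Finset.sum_nonneg fun _ _ => hF _ _).trans ?_
          refine Finset.sum_le_sum fun a _ => ?_
          exact Finset.sum_le_sum_of_subset_of_nonneg (Finset.range_subset_range.2 (by omega)) fun _ _ _ => hF _ _
        have h2 : ∑ d ∈ Finset.range (k + 2), ∑ c ∈ Finset.range (k - 1), G c d ≤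
            ∑ a ∈ Finset.range k, ∑ b ∈ Finset.range (k + 2), G a b := by
          rw [Finset.sum_comm]
          exact Finset.sum_le_sum_of_subset_of_nonneg (hsub 0) fun _ _ _ => Finset.sum_nonneg fun _ _ => hG _ _
        have h3 : 0 ≤ ∑ b ∈ Finset.range k, ∑ a ∈ Finset.range (k - 1), F a b :=
          Finset.sum_nonneg fun _ _ => Finset.sum_nonneg fun _ _ => hF _ _
        have h4 : 0 ≤ ∑ d ∈ Finset.range (k + 2), ∑ c ∈ Finset.range (k - 1), G c d :=
          Finset.sum_nonneg fun _ _ => Finset.sum_nonneg fun _ _ => hG _ _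
        exact mul_le_mul (mul_le_mul_of_nonneg_left h1 hK0) h2 h4 (mul_nonneg hK0 (h3.trans h1))

end BlockAux

open BlockAux

/-- R4d: from sec_le, num_gain and the average gains -/
theorem block_bound_of {c : ℝ} (hc : 0 < c)
    (hq : ∃ δ K : ℝ, 0 < δ ∧ 0 < K ∧ ∀ (k m0 s : ℕ) (X : ℝ), 5 ≤ k → 1 ≤ m0 → 8 * (m0 + 2) ≤ 2 ^ k → 2 ^ k ≤ 4 * s →
      1 ≤ X → RetB X c (4 * s + 1) → ∀ a b a' b' : ℕ, a < k - 1 → b < k → a' < k - 1 → b' < k + 2 →
      ∑ r ∈ Finset.range (2 ^ (k + 1)), min (vb k b r) (vb k b' r) * sw (Irr r) (fun I =>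
        UpT k m0 s a b I * LowT k s a' b' (rev I)) ≤
      ENNReal.ofReal (K * (m0 * (uu (2 ^ k) / UU (2 ^ k))) *
        (UU (2 ^ max a b) / UU (2 ^ k) * Real.sqrt (min 1 (2 ^ k / m0 * GA δ c X k a b))) *
        (UU (2 ^ max a' b') / UU (2 ^ k) * Real.sqrt (min 1 (GA δ c X k a' b'))))) :
    ∃ C : ℝ, 0 < C ∧ ∀ (k m0 s : ℕ) (X : ℝ), 5 ≤ k → 1 ≤ m0 → 8 * (m0 + 2) ≤ 2 ^ k →
      1 ≤ X → RetB X c (4 * s + 1) →
      SecBlk k m0 s ≤ ENNReal.ofReal (C * UU s * (m0 / 2 ^ k) * (1 + Real.log (2 ^ k / m0) + Real.log X) ^ 2) := by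
  obtain ⟨C1, hC1, h1⟩ := sec_le
  obtain ⟨δ, K, hδ, hK, h2⟩ := hq
  obtain ⟨C2, hC2, h3⟩ := num_gain hδ hc
  refine ⟨C1 * K * C2 ^ 2, by positivity, ?_⟩
  intro k m0 s X hk hm1 hm0 hX hR
  rcases Nat.lt_or_ge (4 * s) (2 ^ k) with h | h
  · rw [SecBlk_zero h]
    exact zero_le
  have hU := Num2Aux.UU_pos (2 ^ k)
  have hu := uu_pos (2 ^ k)
  have hUs := Num2Aux.UU_pos s
  have hm : (1 : ℝ) ≤ m0 := by exact_mod_cast hm1
  have hρ : (1 : ℝ) ≤ 2 ^ k / m0 := by
    rw [le_div_iff₀ (by linarith), one_mul]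
    have : m0 ≤ 2 ^ k := by omega
    exact_mod_cast this
  have hlρ : 0 ≤ Real.log (2 ^ k / m0) := Real.log_nonneg hρ
  have hlX : 0 ≤ Real.log X := Real.log_nonneg hX
  have h4 := four_sum (k := k) (m0 := m0) (s := s) (K0 := K * (m0 * (uu (2 ^ k) / UU (2 ^ k))))
    (F := fun a b => UU (2 ^ max a b) / UU (2 ^ k) * Real.sqrt (min 1 (2 ^ k / m0 * GA δ c X k a b)))
    (G := fun a b => UU (2 ^ max a b) / UU (2 ^ k) * Real.sqrt (min 1 (GA δ c X k a b))) (by positivity)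
    (fun a b => by have := Num2Aux.UU_pos (2 ^ max a b); positivity)
    (fun a b => by have := Num2Aux.UU_pos (2 ^ max a b); positivity)
    (fun a b a' b' ha hb ha' hb' => h2 k m0 s X hk hm1 hm0 h hX hR a b a' b' ha hb ha' hb')
  have h5 := h3 k X (2 ^ k / m0) hX hρ
  have h6 := h3 k X 1 hX le_rfl
  simp only [one_mul, Real.log_one] at h6
  refine (h1 k m0 s hk hm1 hm0).trans ((mul_le_mul_right h4 _).trans ?_)
  rw [← ENNReal.ofReal_mul (by positivity)]
  apply ENNReal.ofReal_le_ofReal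
  obtain ⟨SF, hSF⟩ : ∃ SF : ℝ, SF = ∑ a ∈ Finset.range k, ∑ b ∈ Finset.range (k + 2),
    UU (2 ^ max a b) / UU (2 ^ k) * Real.sqrt (min 1 (2 ^ k / m0 * GA δ c X k a b)) := ⟨_, rfl⟩
  obtain ⟨SG, hSG⟩ : ∃ SG : ℝ, SG = ∑ a ∈ Finset.range k, ∑ b ∈ Finset.range (k + 2),
    UU (2 ^ max a b) / UU (2 ^ k) * Real.sqrt (min 1 (GA δ c X k a b)) := ⟨_, rfl⟩
  rw [← hSF] at h5 ⊢
  rw [← hSG] at h6 ⊢
  have hSF0 : 0 ≤ SF := by
    rw [hSF]
    exact Finset.sum_nonneg fun a _ => Finset.sum_nonneg fun b _ => by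
      have := Num2Aux.UU_pos (2 ^ max a b); positivity
  have hSG0 : 0 ≤ SG := by
    rw [hSG]
    exact Finset.sum_nonneg fun a _ => Finset.sum_nonneg fun b _ => by
      have := Num2Aux.UU_pos (2 ^ max a b); positivity
  have h7 : uu (2 ^ k) / UU (2 ^ k) ≤ 1 / 2 ^ k := by
    rw [div_le_div_iff₀ hU (by positivity)]
    have := Num2Aux.mul_le_UU (2 ^ k)
    push_cast at this
    linarith
  have h8 : 0 ≤ uu (2 ^ k) / UU (2 ^ k) := by positivity
  have h9 : (1 + 0 + Real.log X) ≤ 1 + Real.log (2 ^ k / m0) + Real.log X := by linarith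
  obtain ⟨L, hL⟩ : ∃ L : ℝ, L = 1 + Real.log (2 ^ k / m0) + Real.log X := ⟨_, rfl⟩
  rw [← hL] at h5 h9 ⊢
  have hL0 : 0 ≤ L := by rw [hL]; linarith
  calc C1 * UU s * (K * (m0 * (uu (2 ^ k) / UU (2 ^ k))) * SF * SG)
      ≤ C1 * UU s * (K * (m0 * (1 / 2 ^ k)) * (C2 * L) * (C2 * L)) := by
        have h10 : SG ≤ C2 * L := h6.trans (mul_le_mul_of_nonneg_left h9 hC2.le)
        gcongr
    _ = C1 * K * C2 ^ 2 * UU s * (m0 / 2 ^ k) * L ^ 2 := by ring

end HexObs
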