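import Pool.Agent.PHW7.Sw
import Pool.Agent.PHW.Jump

/-!
PHW, section S7, R3: cutting a bridge at all levels of a window.
-/

set_option autoImplicit false

namespace HexObs

open Complex Finset ENNReal

namespace CutSumAux

/-- the three parts -/
noncomputable def F3 (h : ℕ) (Φ : List Bool → ℝ≥0∞) (n r : ℕ) : ℝ≥0∞ :=
  sw (Brd n) (fun X => sw (Irr r) (fun I => sw (Brd (h - n - r)) (fun Z => Φ (X ++ I ++ Z))))

/-- one level -/
lemma one_level {l h : ℕ} (hl : l < h) (Φ : List Bool → ℝ≥0∞) : sw (Brd h) Φ ≤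
    ∑ n ∈ Finset.range (l + 1), ∑ r ∈ Finset.Ico (l + 1 - n) (h + 1 - n), F3 h Φ n r := by
  have hsub : Brd h ⊆ ⋃ n ∈ Finset.range (l + 1), ⋃ r ∈ Finset.Ico (l + 1 - n) (h + 1 - n),
      {w | ∃ X ∈ Brd n, ∃ b ∈ {b | ∃ I ∈ Irr r, ∃ Z ∈ Brd (h - n - r), b = I ++ Z}, w = X ++ b} := by
    intro t ht
    obtain ⟨j, r, a, p, u, h1, h2, h3, ha, hp, hu, he⟩ := jump_dec hl ht
    rw [Set.mem_iUnion₂]
    refine ⟨j, Finset.mem_range.2 (by omega), ?_⟩
    rw [Set.mem_iUnion₂]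
    refine ⟨r, Finset.mem_Ico.2 ⟨by omega, by omega⟩, a, ha, p ++ u, ⟨p, hp, u, hu, rfl⟩, ?_⟩
    rw [he, List.append_assoc]
  refine (sw_mono hsub fun t _ => le_refl (Φ t)).trans ((sw_biUnion_le _ _ _).trans ?_)
  refine Finset.sum_le_sum fun n _ => (sw_biUnion_le _ _ _).trans (Finset.sum_le_sum fun r _ => ?_)
  refine (sw_cat_le fun w hw => hw).trans (sw_mono subset_rfl fun X _ => ?_)
  refine (sw_cat_le fun w hw => hw).trans (sw_mono subset_rfl fun I _ => ?_)
  refine sw_mono subset_rfl fun Z _ => ?_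
  rw [List.append_assoc]

end CutSumAux

open CutSumAux

/-- R3: cut a bridge at all the levels of [2 ^ (k - 3), 2 ^ (k - 2)) (jump_dec) -/
theorem cut_sum {k h : ℕ} (hk : 4 ≤ k) (hh : 2 ^ (k - 2) ≤ h) (Φ : List Bool → ℝ≥0∞) : sw (Brd h) Φ ≤
    ∑ n ∈ Finset.range (2 ^ (k - 2)), ∑ r ∈ Finset.range (h + 1 - n), vk k n r *
      sw (Brd n) (fun X => sw (Irr r) (fun I => sw (Brd (h - n - r)) (fun Z => Φ (X ++ I ++ Z)))) := by
  classical
  have hW : (Finset.Ico (2 ^ (k - 3)) (2 ^ (k - 2))).card = 2 ^ (k - 3) := by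
    rw [Nat.card_Ico]
    have e : 2 ^ (k - 2) = 2 * 2 ^ (k - 3) := by
      rw [← pow_succ']
      congr 1
      omega
    omega
  have h1 : (2 ^ (k - 3) : ℝ≥0∞) * sw (Brd h) Φ ≤ ∑ n ∈ Finset.range (2 ^ (k - 2)), ∑ r ∈ Finset.range (h + 1 - n),
      (((Finset.Ico (2 ^ (k - 3)) (2 ^ (k - 2))).filter (fun l => n ≤ l ∧ l < n + r)).card : ℝ≥0∞) * F3 h Φ n r := by
    calc (2 ^ (k - 3) : ℝ≥0∞) * sw (Brd h) Φ = ∑ _l ∈ Finset.Ico (2 ^ (k - 3)) (2 ^ (k - 2)), sw (Brd h) Φ := by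
          rw [Finset.sum_const, hW, nsmul_eq_mul]
          push_cast
          rfl
      _ ≤ ∑ l ∈ Finset.Ico (2 ^ (k - 3)) (2 ^ (k - 2)), ∑ n ∈ Finset.range (2 ^ (k - 2)),
          ∑ r ∈ Finset.range (h + 1 - n), if n ≤ l ∧ l < n + r then F3 h Φ n r else 0 := by
          refine Finset.sum_le_sum fun l hl => ?_
          rw [Finset.mem_Ico] at hl
          refine (one_level (h := h) (l := l) (by omega) Φ).trans ?_
          refine le_trans ?_ (Finset.sum_le_sum_of_subset (s := Finset.range (l + 1)) (by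
            intro x hx
            rw [Finset.mem_range] at hx ⊢
            omega))
          refine Finset.sum_le_sum fun n hn => ?_
          rw [Finset.mem_range] at hn
          rw [← Finset.sum_filter]
          apply Finset.sum_le_sum_of_subset
          intro x hx
          rw [Finset.mem_Ico] at hx
          rw [Finset.mem_filter, Finset.mem_range]
          omega
      _ = _ := by
          rw [Finset.sum_comm]
          refine Finset.sum_congr rfl fun n _ => ?_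
          rw [Finset.sum_comm]
          refine Finset.sum_congr rfl fun r _ => ?_
          rw [← Finset.sum_filter, Finset.sum_const, nsmul_eq_mul]
  have h0 : (2 ^ (k - 3) : ℝ≥0∞) ≠ 0 := by positivity
  have ht : (2 ^ (k - 3) : ℝ≥0∞) ≠ ⊤ := ENNReal.pow_ne_top (by norm_num)
  have h2 : sw (Brd h) Φ = (2 ^ (k - 3) : ℝ≥0∞)⁻¹ * ((2 ^ (k - 3) : ℝ≥0∞) * sw (Brd h) Φ) := by
    rw [← mul_assoc, ENNReal.inv_mul_cancel h0 ht, one_mul]
  rw [h2]
  refine (mul_le_mul_right h1 _).trans (le_of_eq ?_)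
  rw [Finset.mul_sum]
  refine Finset.sum_congr rfl fun n _ => ?_
  rw [Finset.mul_sum]
  refine Finset.sum_congr rfl fun r _ => ?_
  unfold vk
  rw [ENNReal.div_eq_inv_mul, ← mul_assoc]
  rfl

end HexObs
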