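import Pool.Agent.PHW7.Defs7
import Pool.Agent.PHW.Boot
import Pool.Agent.HexWall.FlatF

/-!
PHW, section S7, R6: the bootstrap.
-/

set_option autoImplicit false

namespace HexObs

open Complex Finset ENNReal

namespace DeepAux

/-- a return needs a high piece -/
lemma KR_zero {y τ r : ℕ} (h : r < τ) : KR y τ r = 0 := by
  unfold KR
  have e : {p | p ∈ Irr r ∧ Ret y τ p} = (∅ : Set (List Bool)) := by
    rw [Set.eq_empty_iff_forall_notMem]
    rintro p ⟨hp, i, j, h1, h2, h3, h4⟩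
    rcases Nat.eq_zero_or_pos i with h0 | h0
    · rw [h0, lev_zero] at h3
      omega
    · have h5 := ((mem_Brd.1 hp.1).1 i h0 (by omega)).2
      omega
  rw [e]
  unfold gf
  rw [ENNReal.tsum_eq_zero]
  rintro ⟨t, ht⟩
  exact absurd ht (Set.notMem_empty t)

lemma sum_KR_le_one (y τ R : ℕ) : ∑ r ∈ Finset.range R, KR y τ r ≤ 1 := by
  have h1 : ∀ r, KR y τ r ≤ gf (Irr r) := fun r => gf_mono fun p hp => hp.1
  refine (Finset.sum_le_sum fun r _ => h1 r).trans ?_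
  have h2 : ∑ r ∈ Finset.range R, gf (Irr r) ≤ gf (Irr 0) + ∑ r ∈ Finset.Ico (0 + 1) R, gf (Irr r) := by
    rcases Nat.eq_zero_or_pos R with h | h
    · rw [h, Finset.range_zero, Finset.sum_empty]
      exact zero_le
    · rw [Finset.range_eq_Ico, Finset.sum_eq_sum_Ico_succ_bot h]
  have h3 : gf (Irr 0) = 0 := by
    have e : Irr 0 = (∅ : Set (List Bool)) := by
      rw [Set.eq_empty_iff_forall_notMem]
      intro p hp
      have h4 := hp.1
      rw [Brd_zero] at h4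
      exact hp.2.1 h4
    rw [e]
    unfold gf
    rw [ENNReal.tsum_eq_zero]
    rintro ⟨t, ht⟩
    exact absurd ht (Set.notMem_empty t)
  have h4 := Wall.tail_triv 0 R
  rw [h3, zero_add] at h2
  refine h2.trans (h4.trans ?_)
  have h5 : UU 0 = 1 := by
    unfold UU
    rw [Finset.sum_range_one]
    exact uu_zero
  rw [h5]
  norm_num

lemma RetB_mono {X X' c : ℝ} {R : ℕ} (hX : X ≤ X') (h : RetB X c R) : RetB X' c R := by
  intro y τ hy hτ
  refine (h y τ hy hτ).trans (ENNReal.ofReal_le_ofReal ?_)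
  have h1 := Num2Aux.UU_pos τ
  have h2 : (0 : ℝ) ≤ ((y : ℝ) / τ) ^ c := Real.rpow_nonneg (by positivity) _
  exact mul_le_mul_of_nonneg_right (div_le_div_of_nonneg_right hX h1.le) h2

lemma RetB_triv {c : ℝ} (hc : 0 < c) (R : ℕ) : RetB (((R : ℝ) + 1) ^ (1 + c)) c R := by
  intro y τ hy hτ
  rcases Nat.lt_or_ge τ R with h | h
  · refine (sum_KR_le_one y τ R).trans ?_
    rw [ENNReal.one_le_ofReal]
    have hU := Num2Aux.UU_pos τ
    have hτ1 : (1 : ℝ) ≤ τ := by exact_mod_cast (by omega : 1 ≤ τ)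
    have hy1 : (1 : ℝ) ≤ y := by exact_mod_cast hy
    have h1 : UU τ ≤ (R : ℝ) + 1 := by
      have h2 : UU τ ≤ ∑ _t ∈ Finset.range (τ + 1), (1 : ℝ) := by
        unfold UU
        refine Finset.sum_le_sum fun t _ => ?_
        rw [← uu_zero]
        exact uu_anti (Nat.zero_le t)
      rw [Finset.sum_const, Finset.card_range, nsmul_eq_mul, mul_one] at h2
      push_cast at h2
      have : (τ : ℝ) ≤ R := by exact_mod_cast h.le
      linarith
    have h3 : (1 : ℝ) / ((R : ℝ) + 1) ≤ (y : ℝ) / τ := by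
      rw [div_le_div_iff₀ (by positivity) (by positivity)]
      have : (τ : ℝ) ≤ R := by exact_mod_cast h.le
      nlinarith
    have hR0 : (0 : ℝ) < (R : ℝ) + 1 := by positivity
    have h4 : ((1 : ℝ) / ((R : ℝ) + 1)) ^ c ≤ ((y : ℝ) / τ) ^ c := Real.rpow_le_rpow (by positivity) h3 hc.le
    calc (1 : ℝ) = ((R : ℝ) + 1) ^ (1 + c) / ((R : ℝ) + 1) * ((1 : ℝ) / ((R : ℝ) + 1)) ^ c := by
          rw [Real.rpow_add hR0, Real.rpow_one, Real.div_rpow zero_le_one hR0.le, Real.one_rpow]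
          have := Real.rpow_pos_of_pos hR0 c
          field_simp
      _ ≤ ((R : ℝ) + 1) ^ (1 + c) / UU τ * ((y : ℝ) / τ) ^ c := by
          have h5 : 0 ≤ ((R : ℝ) + 1) ^ (1 + c) := Real.rpow_nonneg hR0.le _
          have h6 : 0 ≤ ((1 : ℝ) / ((R : ℝ) + 1)) ^ c := Real.rpow_nonneg (by positivity) _
          gcongr
  · rw [Finset.sum_eq_zero]
    · exact zero_le
    · intro r hr
      rw [Finset.mem_range] at hr
      exact KR_zero (by omega)

/-- the best constant -/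
noncomputable def XX (c : ℝ) (R : ℕ) : ℝ := sInf {X : ℝ | 1 ≤ X ∧ RetB X c R}

lemma set_nonempty {c : ℝ} (hc : 0 < c) (R : ℕ) : (((R : ℝ) + 1) ^ (1 + c)) ∈ {X : ℝ | 1 ≤ X ∧ RetB X c R} := by
  refine ⟨?_, RetB_triv hc R⟩
  apply Real.one_le_rpow
  · have : (0 : ℝ) ≤ R := Nat.cast_nonneg R
    linarith
  · linarith

lemma set_bdd (c : ℝ) (R : ℕ) : BddBelow {X : ℝ | 1 ≤ X ∧ RetB X c R} := ⟨1, fun _ h => h.1⟩

lemma XX_one_le {c : ℝ} (hc : 0 < c) (R : ℕ) : 1 ≤ XX c R :=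
  le_csInf ⟨_, set_nonempty hc R⟩ fun _ h => h.1

lemma XX_le {c X : ℝ} {R : ℕ} (h1 : 1 ≤ X) (h : RetB X c R) : XX c R ≤ X := csInf_le (set_bdd c R) ⟨h1, h⟩

lemma RetB_XX {c : ℝ} (hc : 0 < c) (R : ℕ) : RetB (XX c R) c R := by
  intro y τ hy hτ
  have hU := Num2Aux.UU_pos τ
  have hτ1 : (0 : ℝ) < τ := by exact_mod_cast (by omega : 0 < τ)
  have hy1 : (0 : ℝ) < y := by exact_mod_cast hy
  have hA : 0 < 1 / UU τ * ((y : ℝ) / τ) ^ c := by
    have := Real.rpow_pos_of_pos (div_pos hy1 hτ1) c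
    positivity
  have hne : ∑ r ∈ Finset.range R, KR y τ r ≠ ⊤ := ne_top_of_le_ne_top ENNReal.one_ne_top (sum_KR_le_one y τ R)
  rw [← ENNReal.ofReal_toReal hne]
  apply ENNReal.ofReal_le_ofReal
  have h1 : (∑ r ∈ Finset.range R, KR y τ r).toReal / (1 / UU τ * ((y : ℝ) / τ) ^ c) ≤ XX c R := by
    refine le_csInf ⟨_, set_nonempty hc R⟩ fun X hX => ?_
    rw [div_le_iff₀ hA]
    have h2 := hX.2 y τ hy hτ
    have h3 := ENNReal.toReal_mono ENNReal.ofReal_ne_top h2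
    have hX1 := hX.1
    have h4 : 0 ≤ X / UU τ * ((y : ℝ) / τ) ^ c := by
      have := Real.rpow_pos_of_pos (div_pos hy1 hτ1) c
      positivity
    rw [ENNReal.toReal_ofReal h4] at h3
    calc _ ≤ X / UU τ * ((y : ℝ) / τ) ^ c := h3
      _ = _ := by ring
  rw [div_le_iff₀ hA] at h1
  calc _ ≤ XX c R * (1 / UU τ * ((y : ℝ) / τ) ^ c) := h1
    _ = _ := by ring

end DeepAux

open DeepAux

/-- R6: bootstrap -/
theorem deep_returns_of (hstep : ∃ c C : ℝ, 0 < c ∧ 0 < C ∧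
    ∀ (X : ℝ) (R : ℕ), 1 ≤ X → RetB X c (4 * R) → RetB (C * (1 + Real.log X) ^ 2) c R) :
    ∃ C c : ℝ, 0 < C ∧ 0 < c ∧ ∀ y τ R : ℕ, 1 ≤ y → y ≤ τ →
      ∑ r ∈ Finset.range R, KR y τ r ≤ ENNReal.ofReal (C / UU τ * ((y : ℝ) / τ) ^ c) := by
  obtain ⟨c, C, hc, hC, h⟩ := hstep
  obtain ⟨z1, hz1, hz⟩ := boot (max C 1) (by positivity) 2
  have h1 : ∀ R, XX c R ≤ max C 1 * (1 + Real.log (XX c (4 * R))) ^ 2 := by
    intro R
    have h2 := XX_one_le hc (4 * R)
    have h3 := h (XX c (4 * R)) R h2 (RetB_XX hc (4 * R))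
    have h4 := Real.log_nonneg h2
    have h5 : (1 : ℝ) ≤ (1 + Real.log (XX c (4 * R))) ^ 2 := by nlinarith
    apply XX_le
    · calc (1 : ℝ) = 1 * 1 := (mul_one 1).symm
        _ ≤ _ := mul_le_mul (le_max_right _ _) h5 zero_le_one (by positivity)
    · exact RetB_mono (mul_le_mul_of_nonneg_right (le_max_left _ _) (by positivity)) h3
  have h2 := hz (XX c) 0 (1 + c) (XX_one_le hc) (fun R => ?_) h1
  · refine ⟨z1, c, by linarith, hc, fun y τ R hy hτ => ?_⟩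
    exact RetB_mono (h2 R) (RetB_XX hc R) y τ hy hτ
  · have h3 : XX c R ≤ ((R : ℝ) + 1) ^ (1 + c) := XX_le (set_nonempty hc R).1 (RetB_triv hc R)
    have h4 := XX_one_le hc R
    have h5 := Real.log_le_log (by linarith) h3
    rw [Real.log_rpow (by positivity)] at h5
    linarith

end HexObs
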