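import Pool.Agent.PHW7.Sw
import Pool.Agent.PHW.Jump

/-!
PHW, section S7, R2: a giant with a return inside a bridge.
-/

set_option autoImplicit false

namespace HexObs

open Complex Finset ENNReal

namespace JumpRetAux

/-- the pieces with the return -/
def RI (y τ r : ℕ) : Set (List Bool) := {p | p ∈ Irr r ∧ Ret y τ p}

lemma ret_mid {y τ j : ℕ} {s p u : List Bool} (hs : s ∈ Brd j) (hjy : j ≤ y)
    (h : Ret y τ p) : Ret (2 * y) τ (s ++ p ++ u) := by
  obtain ⟨i, i', h1, h2, h3, h4⟩ := h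
  refine ⟨s.length + i, s.length + i', by omega, ?_, ?_, ?_⟩
  · rw [List.length_append, List.length_append]
    omega
  · rw [lev_append (by rw [List.length_append]; omega), lev_cat (mem_Brd.1 hs).2.2.1, (mem_Brd.1 hs).2.2.2]
    omega
  · rw [lev_append (by rw [List.length_append]; omega), lev_cat (mem_Brd.1 hs).2.2.1, (mem_Brd.1 hs).2.2.2]
    push_cast
    omega

lemma triple_ret {T s y τ : ℕ} (hy : y ≤ s) :
    ∑ q ∈ (Finset.range (y + 1) ×ˢ Finset.Ioc s (2 * s)).filter (fun q => q.1 + q.2 ≤ T),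
      BT q.1 * gf (RI y τ q.2) * BT (T - q.1 - q.2) ≤ gf {t | t ∈ Brd T ∧ Ret (2 * y) τ t} := by
  classical
  obtain ⟨C, hC⟩ : ∃ C : ℕ × ℕ → Set (List Bool), C = fun q => {w | ∃ s p u, s ∈ Brd q.1 ∧ p ∈ RI y τ q.2 ∧
    u ∈ Brd (T - q.1 - q.2) ∧ w = s ++ p ++ u} := ⟨_, rfl⟩
  have h1 : ∀ q ∈ (Finset.range (y + 1) ×ˢ Finset.Ioc s (2 * s)).filter (fun q => q.1 + q.2 ≤ T),
      BT q.1 * gf (RI y τ q.2) * BT (T - q.1 - q.2) ≤ gf (C q) := by
    rintro ⟨j, r⟩ hq
    rw [Finset.mem_filter, Finset.mem_product, Finset.mem_range, Finset.mem_Ioc] at hq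
    simp only at hq ⊢
    rw [← gf_Brd, ← gf_Brd, hC]
    have e1 : gf (Brd j) * gf (RI y τ r) ≤ gf {w | ∃ s p, s ∈ Brd j ∧ p ∈ RI y τ r ∧ w = s ++ p} := by
      apply mul_le_gf
      · intro s hs p hp
        exact ⟨s, p, hs, hp, rfl⟩
      · intro s' hs p hp s'' hs' p' hp' h
        have := jump_unique (s := s) (b := 0) (b' := 0) (u := []) (u' := []) (by omega) (by omega) (by omega) (by omega)
          hs hp.1 nil_mem_Brd hs' hp'.1 nil_mem_Brd (by rw [List.append_nil, List.append_nil]; exact h)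
        exact this.1
    refine (mul_le_mul_left e1 _).trans ?_
    apply mul_le_gf
    · rintro w ⟨s, p, hs, hp, rfl⟩ u hu
      exact ⟨s, p, u, hs, hp, hu, rfl⟩
    · rintro w ⟨s', p, hs, hp, rfl⟩ u hu w' ⟨s'', p', hs', hp', rfl⟩ u' hu' h
      have := jump_unique (s := s) (by omega) (by omega) (by omega) (by omega)
          hs hp.1 hu hs' hp'.1 hu' h
      rw [this.1, this.2.1]
  refine (Finset.sum_le_sum h1).trans ?_
  rw [← gf_biUnion, hC]
  · apply gf_mono
    intro w hw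
    simp only [Set.mem_iUnion] at hw
    obtain ⟨⟨j, r⟩, hq, s', p, u, hs, hp, hu, rfl⟩ := hw
    rw [Finset.mem_filter, Finset.mem_product, Finset.mem_range, Finset.mem_Ioc] at hq
    simp only at hq hs hp hu
    have h2 := Brd_append (Brd_append hs hp.1.1) hu
    rw [show j + r + (T - j - r) = T by omega] at h2
    exact ⟨h2, ret_mid hs (by omega) hp.2⟩
  · rw [hC]
    rintro ⟨j, r⟩ hq ⟨j', r'⟩ hq' hne
    rw [Finset.mem_filter, Finset.mem_product, Finset.mem_range, Finset.mem_Ioc] at hq hq'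
    simp only at hq hq'
    show Disjoint _ _
    rw [Set.disjoint_left]
    rintro w ⟨s', p, u, hs, hp, hu, rfl⟩ ⟨s'', p', u', hs', hp', hu', h⟩
    simp only at hs hp hu hs' hp' hu'
    have h3 := jump_unique (s := s) (by omega) (by omega) (by omega) (by omega)
          hs hp.1 hu hs' hp'.1 hu' h
    apply hne
    rw [h3.1] at hs
    rw [h3.2.1] at hp
    rw [Brd_height hs hs', Brd_height hp.1.1 hp'.1.1]

end JumpRetAux

open JumpRetAux

/-- R2: a giant with the return inside a bridge (jump_unique at the level s) -/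
theorem jump_ret {y τ s : ℕ} (hy : y ≤ s) : ENNReal.ofReal (UU y * UU s) * ∑ r ∈ Finset.Ioc s (2 * s), KR y τ r ≤
    ∑ T ∈ Finset.Ioc s (4 * s), gf {t | t ∈ Brd T ∧ Ret (2 * y) τ t} := by
  classical
  refine le_trans ?_ (Finset.sum_le_sum fun T _ => triple_ret (T := T) (τ := τ) hy)
  have hU : ∀ n : ℕ, ENNReal.ofReal (UU n) = ∑ i ∈ Finset.range (n + 1), BT i := by
    intro n
    unfold UU
    rw [ENNReal.ofReal_sum_of_nonneg (fun i _ => (uu_pos i).le)]
    exact Finset.sum_congr rfl fun i _ => (Wall.BT_ofReal i).symm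
  have hU0 : 0 ≤ UU y := (Num2Aux.UU_pos y).le
  rw [ENNReal.ofReal_mul hU0, hU, hU]
  have h1 : ∑ T ∈ Finset.Ioc s (4 * s),
      ∑ q ∈ (Finset.range (y + 1) ×ˢ Finset.Ioc s (2 * s)).filter (fun q => q.1 + q.2 ≤ T),
        BT q.1 * gf (RI y τ q.2) * BT (T - q.1 - q.2) =
      ∑ q ∈ Finset.range (y + 1) ×ˢ Finset.Ioc s (2 * s), BT q.1 * gf (RI y τ q.2) *
        ∑ T ∈ (Finset.Ioc s (4 * s)).filter (fun T => q.1 + q.2 ≤ T), BT (T - q.1 - q.2) := by
    calc _ = ∑ T ∈ Finset.Ioc s (4 * s), ∑ q ∈ Finset.range (y + 1) ×ˢ Finset.Ioc s (2 * s),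
          if q.1 + q.2 ≤ T then BT q.1 * gf (RI y τ q.2) * BT (T - q.1 - q.2) else 0 :=
          Finset.sum_congr rfl fun T _ => Finset.sum_filter _ _
      _ = ∑ q ∈ Finset.range (y + 1) ×ˢ Finset.Ioc s (2 * s), ∑ T ∈ Finset.Ioc s (4 * s),
          if q.1 + q.2 ≤ T then BT q.1 * gf (RI y τ q.2) * BT (T - q.1 - q.2) else 0 := Finset.sum_comm
      _ = _ := by
          refine Finset.sum_congr rfl fun q _ => ?_
          rw [← Finset.sum_filter, Finset.mul_sum]
  rw [h1, Finset.sum_product, Finset.sum_mul, Finset.sum_mul]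
  refine Finset.sum_le_sum fun j hj => ?_
  rw [Finset.mem_range] at hj
  rw [Finset.mul_sum]
  refine Finset.sum_le_sum fun r hr => ?_
  rw [Finset.mem_Ioc] at hr
  have h2 : ∑ i ∈ Finset.range (s + 1), BT i ≤ ∑ T ∈ (Finset.Ioc s (4 * s)).filter (fun T => j + r ≤ T), BT (T - j - r) := by
    calc ∑ i ∈ Finset.range (s + 1), BT i = ∑ T ∈ (Finset.range (s + 1)).image (fun i => j + r + i), BT (T - j - r) := by
          rw [Finset.sum_image (by intro a _ b _ hab; simp only at hab; omega)]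
          refine Finset.sum_congr rfl fun i _ => ?_
          congr 1
          omega
      _ ≤ _ := by
          apply Finset.sum_le_sum_of_subset
          intro T hT
          rw [Finset.mem_image] at hT
          obtain ⟨i, hi, rfl⟩ := hT
          rw [Finset.mem_range] at hi
          rw [Finset.mem_filter, Finset.mem_Ioc]
          omega
  calc BT j * (∑ i ∈ Finset.range (s + 1), BT i) * KR y τ r = BT j * gf (RI y τ r) * ∑ i ∈ Finset.range (s + 1), BT i := by
        unfold KR RI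
        ring
    _ ≤ _ := mul_le_mul_right h2 _

end HexObs
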