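import Pool.Agent.PHW7.SecDecB

/-!
PHW, section S7, R1 section_dec: section of a bridge with a return: t = a ++ [c, c] ++ r0 ++ [c', c'] ++ d,
X = rev (a ++ [!c]), R = !c' :: d
-/

set_option autoImplicit false

namespace HexObs

open Complex Finset ENNReal

namespace SecDec

/-- weights can be compared along an injective map into triples -/
lemma gf_le_sw {S A : Set (List Bool)} {B C : List Bool → Set (List Bool)} (k : ℝ≥0∞)
    (f : List Bool → List Bool × List Bool × List Bool) (h1 : ∀ t ∈ S, (f t).1 ∈ A) (h2 : ∀ t ∈ S, (f t).2.1 ∈ B (f t).1)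
    (h3 : ∀ t ∈ S, (f t).2.2 ∈ C (f t).1) (hi : Set.InjOn f S)
    (hw : ∀ t ∈ S, wE t ≤ k * (wE (f t).1 * (wE (f t).2.1 * wE (f t).2.2))) :
    gf S ≤ k * sw A (fun r => gf (B r) * gf (C r)) := by
  have e1 : k * sw A (fun r => gf (B r) * gf (C r)) =
      ∑' q : (Σ r : {t : List Bool // t ∈ A}, (B r.1) × (C r.1)),
        k * (wE q.1.1 * (wE (q.2.1 : List Bool) * wE (q.2.2 : List Bool))) := by
    rw [ENNReal.tsum_sigma' (f := fun q : (Σ r : {t : List Bool // t ∈ A}, (B r.1) × (C r.1)) =>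
        k * (wE q.1.1 * (wE (q.2.1 : List Bool) * wE (q.2.2 : List Bool))))]
    unfold sw
    rw [← ENNReal.tsum_mul_left]
    apply tsum_congr
    intro r
    have e2 : gf (B r.1) * gf (C r.1) = ∑' p : (B r.1) × (C r.1), wE (p.1 : List Bool) * wE (p.2 : List Bool) := by
      rw [ENNReal.tsum_prod (f := fun (x : B r.1) (y : C r.1) => wE (x : List Bool) * wE (y : List Bool))]
      unfold gf
      rw [← ENNReal.tsum_mul_right]
      apply tsum_congr
      intro x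
      rw [ENNReal.tsum_mul_left]
    show k * (wE r.1 * (gf (B r.1) * gf (C r.1))) = _
    rw [e2, ← ENNReal.tsum_mul_left, ← ENNReal.tsum_mul_left]
  rw [e1]
  let ψ : S → (Σ r : {t : List Bool // t ∈ A}, (B r.1) × (C r.1)) := fun t =>
    ⟨⟨(f t).1, h1 t t.2⟩, (⟨(f t).2.1, h2 t t.2⟩, ⟨(f t).2.2, h3 t t.2⟩)⟩
  have hψ : Function.Injective ψ := by
    intro a b hab
    apply Subtype.ext
    apply hi a.2 b.2
    have g1 : (ψ a).1.1 = (ψ b).1.1 := by rw [hab]
    have g2 : ((ψ a).2.1 : List Bool) = ((ψ b).2.1 : List Bool) := by rw [hab]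
    have g3 : ((ψ a).2.2 : List Bool) = ((ψ b).2.2 : List Bool) := by rw [hab]
    exact Prod.ext g1 (Prod.ext g2 g3)
  unfold gf
  calc ∑' t : S, wE t ≤ ∑' t : S, k * (wE (ψ t).1.1 * (wE ((ψ t).2.1 : List Bool) * wE ((ψ t).2.2 : List Bool))) :=
        ENNReal.tsum_le_tsum (fun t => hw t t.2)
    _ ≤ _ := ENNReal.tsum_comp_le_tsum_of_injective hψ
        (fun q : (Σ r : {t : List Bool // t ∈ A}, (B r.1) × (C r.1)) =>
        k * (wE q.1.1 * (wE (q.2.1 : List Bool) * wE (q.2.2 : List Bool))))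

lemma gf_le_sum {ι : Type} (J : Finset ι) (P : ι → Set (List Bool)) {S : Set (List Bool)}
    (h : ∀ t ∈ S, ∃ j ∈ J, t ∈ P j) : gf S ≤ ∑ j ∈ J, gf (P j) := by
  classical
  have h1 : gf S ≤ gf (⋃ j ∈ J, P j) := by
    apply gf_mono
    intro t ht
    obtain ⟨j, hj, hjt⟩ := h t ht
    exact Set.mem_iUnion₂.2 ⟨j, hj, hjt⟩
  refine h1.trans ?_
  clear h h1
  induction J using Finset.induction_on with
  | empty => simp [gf]
  | insert j J hj ih =>
    rw [Finset.sum_insert hj, Finset.set_biUnion_insert]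
    exact (gf_union_le _ _).trans (add_le_add le_rfl ih)

/-- the words with a given section -/
def SS (T m e : ℕ) (c c' : Bool) : Set (List Bool) := {t | ∃ a r0 d : List Bool,
  t = a ++ (c :: c :: (r0 ++ (c' :: c' :: d))) ∧ r0 ∈ Brd (e - m - 2) ∧ rev (a ++ [!c]) ∈ Brd e ∧
      Nbr (rev (a ++ [!c])) (c :: (!c) :: r0) ∧ (!c') :: d ∈ Brd (T - m) ∧
      Nbr ((!c') :: d) (rev (r0 ++ [!c', c']))}

lemma rev_inj {x y : List Bool} (h : rev x = rev y) : x = y := by
  have := congrArg rev h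
  rwa [rev_rev, rev_rev] at this

lemma gf_SS (T m e : ℕ) (c c' : Bool) : gf (SS T m e c c') ≤ ENNReal.ofReal (xc ^ 2) *
    sw (Brd (e - m - 2)) (fun r0 => gf {X | X ∈ Brd e ∧ Nbr X (c :: (!c) :: r0)} *
      gf {R | R ∈ Brd (T - m) ∧ Nbr R (rev (r0 ++ [!c', c']))}) := by
  classical
  have hch : ∀ t : List Bool, ∃ q : List Bool × List Bool × List Bool, t ∈ SS T m e c c' →
      t = q.1 ++ (c :: c :: (q.2.1 ++ (c' :: c' :: q.2.2))) ∧ q.2.1 ∈ Brd (e - m - 2) ∧ rev (q.1 ++ [!c]) ∈ Brd e ∧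
      Nbr (rev (q.1 ++ [!c])) (c :: (!c) :: q.2.1) ∧ (!c') :: q.2.2 ∈ Brd (T - m) ∧
      Nbr ((!c') :: q.2.2) (rev (q.2.1 ++ [!c', c'])) := by
    intro t
    by_cases ht : t ∈ SS T m e c c'
    · obtain ⟨a, r0, d, h⟩ := ht
      exact ⟨(a, r0, d), fun _ => h⟩
    · exact ⟨([], [], []), fun h => absurd h ht⟩
  choose q hq using hch
  apply gf_le_sw (ENNReal.ofReal (xc ^ 2)) (fun t => ((q t).2.1, rev ((q t).1 ++ [!c]), (!c') :: (q t).2.2))
  · intro t ht
    exact (hq t ht).2.1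
  · intro t ht
    exact ⟨(hq t ht).2.2.1, (hq t ht).2.2.2.1⟩
  · intro t ht
    exact ⟨(hq t ht).2.2.2.2.1, (hq t ht).2.2.2.2.2⟩
  · intro t ht s hs hts
    have hts' : ((q t).2.1, rev ((q t).1 ++ [!c]), (!c') :: (q t).2.2) =
      ((q s).2.1, rev ((q s).1 ++ [!c]), (!c') :: (q s).2.2) := hts
    rw [Prod.mk.injEq, Prod.mk.injEq] at hts'
    obtain ⟨g1, g2, g3⟩ := hts'
    have g4 : (q t).1 = (q s).1 := List.append_cancel_right (rev_inj g2)
    have g5 : (q t).2.2 = (q s).2.2 := (List.cons.inj g3).2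
    rw [(hq t ht).1, (hq s hs).1, g1, g4, g5]
  · intro t ht
    have h1 := (hq t ht).1
    show wE t ≤ ENNReal.ofReal (xc ^ 2) * (wE (q t).2.1 * (wE (rev ((q t).1 ++ [!c])) * wE ((!c') :: (q t).2.2)))
    apply le_of_eq
    unfold wE
    rw [← ENNReal.ofReal_mul (pow_nonneg xc_pos.le _), ← ENNReal.ofReal_mul (pow_nonneg xc_pos.le _),
      ← ENNReal.ofReal_mul (pow_nonneg xc_pos.le _)]
    congr 1
    rw [← pow_add, ← pow_add, ← pow_add]
    congr 1
    rw [rev_length]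
    have h2 := congrArg List.length h1
    simp only [List.length_append, List.length_cons, List.length_nil] at h2 ⊢
    omega

end SecDec

open SecDec

/-- R1 (SecDec.lean): section of a bridge with a return: t = a ++ [c, c] ++ r0 ++ [c', c'] ++ d,
X = rev (a ++ [!c]), R = !c' :: d -/
theorem section_dec {m0 τ T : ℕ} (h : m0 < τ) : gf {t | t ∈ Brd T ∧ Ret m0 τ t} ≤
    ∑ m ∈ Finset.range m0, ∑ e ∈ Finset.Icc τ T, secW m e T := by
  have h1 : gf {t | t ∈ Brd T ∧ Ret m0 τ t} ≤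
      ∑ j ∈ Finset.range m0 ×ˢ (Finset.Icc τ T ×ˢ ((Finset.univ : Finset Bool) ×ˢ (Finset.univ : Finset Bool))),
        gf (SS T j.1 j.2.1 j.2.2.1 j.2.2.2) := by
    apply gf_le_sum
    rintro t ⟨ht, hr⟩
    obtain ⟨m, e, c, c', a, r0, d, g1, g2, g3, g4⟩ := section_word h ht hr
    refine ⟨(m, e, c, c'), ?_, ⟨a, r0, d, g4⟩⟩
    simp only [Finset.mem_product, Finset.mem_range, Finset.mem_Icc, Finset.mem_univ, and_true]
    exact ⟨g1, g2, g3⟩
  refine h1.trans ?_
  rw [Finset.sum_product]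
  apply Finset.sum_le_sum
  intro m _
  rw [Finset.sum_product]
  apply Finset.sum_le_sum
  intro e _
  rw [Finset.sum_product]
  unfold secW
  apply Finset.sum_le_sum
  intro c _
  apply Finset.sum_le_sum
  intro c' _
  exact gf_SS T m e c c'

end HexObs
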