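import Pool.Agent.HexSPR.Final
import Pool.Agent.PHW.Num2

/-!
PHW, S7, R5a: the partial sums of the bridge weights grow at most like a power less than one.
-/

set_option autoImplicit false

namespace HexObs

open Complex Finset ENNReal

/-- R5a (Growth2.lean): from the relative decay Ex.relDecay -/
theorem UU_growth2 : ∃ C c : ℝ, 0 < C ∧ 0 < c ∧ c < 1 ∧ ∀ y τ : ℕ, 1 ≤ y → y ≤ τ →
    UU τ ≤ C * ((τ : ℝ) / y) ^ (1 - c) * UU y := by
  obtain ⟨c0, hc0, hrel⟩ := Ex.relDecay
  set c := min c0 (1 / 2) with hc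
  have hcp : 0 < c := lt_min hc0 (by norm_num)
  have hc1 : c ≤ 1 / 2 := min_le_right _ _
  have hcc : c ≤ c0 := min_le_left _ _
  refine ⟨1 + 1 / (1 - c), c, ?_, hcp, by linarith, ?_⟩
  · have : 0 < 1 - c := by linarith
    positivity
  intro y τ hy hyt
  have hd : 0 < 1 - c := by linarith
  have hyp : (1 : ℝ) ≤ y := by exact_mod_cast hy
  have htp : (1 : ℝ) ≤ τ := by exact_mod_cast hy.trans hyt
  have hyt' : (y : ℝ) ≤ τ := by exact_mod_cast hyt
  have hU := Num2Aux.UU_pos y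
  have huy := uu_pos y
  have hpow := fun T hT => Ex.rd_pow (b := bT) (fun _ h => bT_pos h) hcp (by linarith : c ≤ 1) (fun T hT => by
    have h1 := hrel T hT
    have h2 := bT_pos hT
    have h3 : c * bT T ≤ c0 * bT T := mul_le_mul_of_nonneg_right hcc h2.le
    linarith) hy T hT
  have hsplit : UU τ = UU y + ∑ t ∈ Finset.Ico (y + 1) (τ + 1), uu t := by
    unfold UU
    exact (Finset.sum_range_add_sum_Ico _ (by omega)).symm
  have h1 : ∑ t ∈ Finset.Ico (y + 1) (τ + 1), uu t ≤ uu y * (y : ℝ) ^ c * ((τ : ℝ) ^ (1 - c) / (1 - c)) := by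
    have h2 : ∀ t ∈ Finset.Ico (y + 1) (τ + 1), uu t ≤ uu y * (y : ℝ) ^ c * (t : ℝ) ^ (-c) := by
      intro t ht
      rw [Finset.mem_Ico] at ht
      have h3 := hpow t (by omega)
      have htt : (0 : ℝ) < t := by exact_mod_cast (by omega : 0 < t)
      have h4 : 0 < (t : ℝ) ^ c := Real.rpow_pos_of_pos htt _
      rw [Real.rpow_neg htt.le, ← div_eq_mul_inv, le_div_iff₀ h4, uu_eq hy, uu_eq (by omega : 1 ≤ t)]
      exact h3
    refine (Finset.sum_le_sum h2).trans ?_
    rw [← Finset.mul_sum]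
    apply mul_le_mul_of_nonneg_left _ (by positivity)
    have h3 := Ex.sum_rpow_le (c := 1 - c) hd (by linarith) τ
    refine le_trans ?_ h3
    have h4 : ∑ t ∈ Finset.Ico (y + 1) (τ + 1), (t : ℝ) ^ (-c) ≤ ∑ t ∈ Finset.Ico 1 (τ + 1), (t : ℝ) ^ (-c) := by
      apply Finset.sum_le_sum_of_subset_of_nonneg
      · exact Finset.Ico_subset_Ico (by omega) le_rfl
      · intro t _ _
        positivity
    refine h4.trans (le_of_eq ?_)
    rw [Finset.range_eq_Ico, Finset.sum_Ico_add' (fun D : ℕ => ((D : ℝ)) ^ (-c)) 0 τ 1 |>.symm]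
    apply Finset.sum_congr rfl
    intro D _
    push_cast
    congr 1
    ring
  have h2 : uu y * (y : ℝ) ^ c * ((τ : ℝ) ^ (1 - c) / (1 - c)) = (y * uu y) * ((τ : ℝ) / y) ^ (1 - c) * (1 / (1 - c)) := by
    have hy0 : (0 : ℝ) < y := by linarith
    rw [Real.div_rpow (by linarith) hy0.le]
    have h3 : (y : ℝ) ^ c * (y : ℝ) ^ (1 - c) = y := by
      rw [← Real.rpow_add hy0]
      have : c + (1 - c) = 1 := by ring
      rw [this, Real.rpow_one]
    have h4 : 0 < (y : ℝ) ^ (1 - c) := Real.rpow_pos_of_pos hy0 _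
    field_simp
    exact h3
  rw [hsplit]
  have h3 := Num2Aux.mul_le_UU y
  have h4 : 1 ≤ ((τ : ℝ) / y) ^ (1 - c) := by
    apply Real.one_le_rpow _ hd.le
    rw [le_div_iff₀ (by linarith)]
    linarith
  set r := ((τ : ℝ) / y) ^ (1 - c) with hr
  have hr0 : 0 < r := by linarith
  calc UU y + ∑ t ∈ Finset.Ico (y + 1) (τ + 1), uu t ≤ UU y + (y * uu y) * r * (1 / (1 - c)) := by
        rw [h2] at h1
        linarith
    _ ≤ UU y * r + UU y * r * (1 / (1 - c)) := by
        have a1 : UU y ≤ UU y * r := le_mul_of_one_le_right hU.le h4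
        have a2 : (y * uu y) * r * (1 / (1 - c)) ≤ UU y * r * (1 / (1 - c)) := by
          apply mul_le_mul_of_nonneg_right _ (by positivity)
          exact mul_le_mul_of_nonneg_right h3 hr0.le
        linarith
    _ = (1 + 1 / (1 - c)) * r * UU y := by ring

end HexObs
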