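import Pool.Agent.PHW7.Defs7
import Pool.Agent.PHW7.Growth2
import Pool.Agent.PHW.Num3
import Pool.Agent.PHW.Num2

/-!
PHW, S7, R5b: sum over the blocks of the heights e and over the sizes of the giants.
-/

set_option autoImplicit false

namespace HexObs

open Complex Finset ENNReal

namespace StepR

lemma sum_un_le (s t : Finset ℕ) (f : ℕ → ℝ≥0∞) : ∑ r ∈ s ∪ t, f r ≤ ∑ r ∈ s, f r + ∑ r ∈ t, f r := by
  rw [← Finset.sum_union_inter]
  exact le_self_add

lemma sum_bi_le (S : Finset ℕ) (t : ℕ → Finset ℕ) (f : ℕ → ℝ≥0∞) :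
    ∑ r ∈ S.biUnion t, f r ≤ ∑ i ∈ S, ∑ r ∈ t i, f r := by
  classical
  induction S using Finset.induction_on with
  | empty => simp
  | insert a S ha ih =>
    rw [Finset.biUnion_insert, Finset.sum_insert ha]
    exact (sum_un_le _ _ _).trans (add_le_add le_rfl ih)

lemma KR_le (y τ r : ℕ) : KR y τ r ≤ ENNReal.ofReal (kk r) := by
  rw [← Ex.kap_eq]
  exact gf_mono fun p hp => hp.1

lemma KR_zero {y τ r : ℕ} (h : r < τ) : KR y τ r = 0 := by
  have h0 : {p | p ∈ Irr r ∧ Ret y τ p} = ∅ := by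
    ext p
    simp only [Set.mem_empty_iff_false, iff_false, Set.mem_ofPred_eq]
    rintro ⟨hp, i, j, hij, hj, h1, _⟩
    have h2 : lev p i ≤ 3 * r := by
      rcases Nat.eq_zero_or_pos i with h0 | h0
      · rw [h0, lev_zero]
        omega
      · exact ((mem_Brd.1 hp.1).1 i h0 (by omega)).2
    omega
  unfold KR
  rw [h0]
  unfold gf
  simp

/-- all the giants of size at least s + 1. -/
lemma tail_le {y τ s R : ℕ} : ∑ r ∈ (Finset.range R).filter (fun r => s < r), KR y τ r ≤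
    ENNReal.ofReal (1 / UU s) := by
  have h1 : ∑ r ∈ (Finset.range R).filter (fun r => s < r), KR y τ r ≤
      ENNReal.ofReal (∑ r ∈ (Finset.range R).filter (fun r => s < r), kk r) := by
    rw [ENNReal.ofReal_sum_of_nonneg (fun r _ => kk_nonneg r)]
    exact Finset.sum_le_sum fun r _ => KR_le y τ r
  refine h1.trans (ENNReal.ofReal_le_ofReal ?_)
  have hU := Num2Aux.UU_pos s
  have h2 := UU_mul_KK s
  have h3 : ∑ r ∈ (Finset.range R).filter (fun r => s < r), kk r ≤ KK' (s + 1) := by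
    unfold KK'
    have h4 : ∑ r ∈ (Finset.range R).filter (fun r => s < r), kk r + ∑ r ∈ Finset.range (s + 1), kk r ≤
        ∑ r ∈ Finset.range (R + s + 1), kk r := by
      rw [← Finset.sum_union]
      · apply Finset.sum_le_sum_of_subset_of_nonneg
        · intro r hr
          rw [Finset.mem_union, Finset.mem_filter, Finset.mem_range, Finset.mem_range] at hr
          rw [Finset.mem_range]
          omega
        · intro r _ _
          exact kk_nonneg r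
      · rw [Finset.disjoint_left]
        intro r hr hr'
        rw [Finset.mem_filter, Finset.mem_range] at hr
        rw [Finset.mem_range] at hr'
        omega
    have h5 := sum_kk_le (R + s + 1)
    linarith
  rw [le_div_iff₀ hU]
  calc (∑ r ∈ (Finset.range R).filter (fun r => s < r), kk r) * UU s ≤ KK' (s + 1) * UU s :=
        mul_le_mul_of_nonneg_right h3 hU.le
    _ ≤ 1 := by linarith

/-- a convergent series. -/
lemma ser (N : ℕ) : ∑ j ∈ Finset.range N, ((j : ℝ) + 1) ^ 2 / 2 ^ j ≤ 12 := by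
  have h : ∑ j ∈ Finset.range N, ((j : ℝ) + 1) ^ 2 / 2 ^ j = 12 - (2 * (N : ℝ) ^ 2 + 8 * N + 12) / 2 ^ N := by
    induction N with
    | zero =>
      simp
    | succ N ih =>
      rw [Finset.sum_range_succ, ih, pow_succ]
      push_cast
      field_simp
      ring
  rw [h]
  have : 0 ≤ (2 * (N : ℝ) ^ 2 + 8 * N + 12) / 2 ^ N := by positivity
  linarith

/-- sum over the blocks of e. -/
lemma sec_sum {c C : ℝ} (hC : 0 < C)
    (hblk : ∀ (k m0 s : ℕ) (X : ℝ), 5 ≤ k → 1 ≤ m0 → 8 * (m0 + 2) ≤ 2 ^ k → 1 ≤ X → RetB X c (4 * s + 1) →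
      SecBlk k m0 s ≤ ENNReal.ofReal (C * UU s * (m0 / 2 ^ k) * (1 + Real.log (2 ^ k / m0) + Real.log X) ^ 2))
    {y τ s : ℕ} (hy : 1 ≤ y) (hτ : 64 * y ≤ τ) {X : ℝ} (hX : 1 ≤ X) (hR : RetB X c (4 * s + 1)) :
    ∑ T ∈ Finset.Ioc s (4 * s), ∑ m ∈ Finset.range (2 * y), ∑ e ∈ Finset.Icc τ T, secW m e T ≤
      ENNReal.ofReal (48 * C * UU s * ((y : ℝ) / τ) * ((1 + Real.log ((τ : ℝ) / y)) * (1 + Real.log X)) ^ 2) := by
  have hyp : (1 : ℝ) ≤ y := by exact_mod_cast hy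
  have hτp : (64 : ℝ) * y ≤ τ := by exact_mod_cast hτ
  have hτ0 : (0 : ℝ) < τ := by linarith
  have hU := Num2Aux.UU_pos s
  set ρ : ℝ := (τ : ℝ) / y with hρ
  have hρ64 : 64 ≤ ρ := by
    rw [hρ, le_div_iff₀ (by linarith)]
    exact hτp
  have hlρ : 0 ≤ Real.log ρ := Real.log_nonneg (by linarith)
  have hlX : 0 ≤ Real.log X := Real.log_nonneg hX
  set k0 := Nat.log 2 τ with hk0
  have hτ1 : τ ≠ 0 := by omega
  have hk1 : 2 ^ k0 ≤ τ := Nat.pow_log_le_self 2 hτ1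
  have hk2 : τ < 2 ^ (k0 + 1) := Nat.lt_pow_succ_log_self (by norm_num) τ
  have hk1r : (2 : ℝ) ^ k0 ≤ τ := by exact_mod_cast hk1
  have hk2r : (τ : ℝ) < 2 * 2 ^ k0 := by
    have : (τ : ℝ) < 2 ^ (k0 + 1) := by exact_mod_cast hk2
    rw [pow_succ] at this
    linarith
  have hk4 : 5 ≤ k0 := by
    by_contra hcon
    have h1 : 2 ^ (k0 + 1) ≤ 2 ^ 5 := Nat.pow_le_pow_right (by norm_num) (by omega)
    omega
  set J := 4 * s + 1 with hJ
  -- the blocks cover
  have hcover : ∑ T ∈ Finset.Ioc s (4 * s), ∑ m ∈ Finset.range (2 * y), ∑ e ∈ Finset.Icc τ T, secW m e T ≤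
      ∑ j ∈ Finset.range J, SecBlk (k0 + j) (2 * y) s := by
    unfold SecBlk
    rw [Finset.sum_comm (s := Finset.range J)]
    apply Finset.sum_le_sum
    intro T hT
    rw [Finset.mem_Ioc] at hT
    rw [Finset.sum_comm (s := Finset.range J)]
    apply Finset.sum_le_sum
    intro m _
    have hsub : Finset.Icc τ T ⊆ (Finset.range J).biUnion (fun j =>
        (Finset.Ico (2 ^ (k0 + j)) (2 ^ (k0 + j + 1))).filter (fun e => e ≤ T)) := by
      intro e he
      rw [Finset.mem_Icc] at he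
      rw [Finset.mem_biUnion]
      have he0 : e ≠ 0 := by omega
      have h1 : k0 ≤ Nat.log 2 e := Nat.log_mono_right he.1
      have h2 : Nat.log 2 e < e := Nat.log_lt_self 2 he0
      refine ⟨Nat.log 2 e - k0, Finset.mem_range.2 (by omega), ?_⟩
      rw [Finset.mem_filter, Finset.mem_Ico]
      have h3 : k0 + (Nat.log 2 e - k0) = Nat.log 2 e := by omega
      rw [h3]
      exact ⟨⟨Nat.pow_log_le_self 2 he0, Nat.lt_pow_succ_log_self (by norm_num) e⟩, he.2⟩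
    refine (Finset.sum_le_sum_of_subset hsub).trans ?_
    exact sum_bi_le _ _ _
  refine hcover.trans ?_
  have hterm : ∀ j ∈ Finset.range J, SecBlk (k0 + j) (2 * y) s ≤
      ENNReal.ofReal (4 * C * UU s * ((y : ℝ) / τ) * ((1 + Real.log ρ) * (1 + Real.log X)) ^ 2 *
        (((j : ℝ) + 1) ^ 2 / 2 ^ j)) := by
    intro j _
    have hkj : (2 : ℝ) ^ (k0 + j) = 2 ^ k0 * 2 ^ j := pow_add _ _ _
    have h2j : (0 : ℝ) < 2 ^ j := by positivity
    have h2k : (0 : ℝ) < 2 ^ k0 := by positivity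
    have h8 : 8 * (2 * y + 2) ≤ 2 ^ (k0 + j) := by
      have h1 : 2 ^ k0 ≤ 2 ^ (k0 + j) := Nat.pow_le_pow_right (by norm_num) (by omega)
      have h2 : 2 ^ (k0 + 1) = 2 * 2 ^ k0 := by rw [pow_succ]; ring
      omega
    refine (hblk (k0 + j) (2 * y) s X (by omega) (by omega) h8 hX hR).trans (ENNReal.ofReal_le_ofReal ?_)
    push_cast
    rw [hkj]
    have a1 : 2 * (y : ℝ) / (2 ^ k0 * 2 ^ j) ≤ 4 * ((y : ℝ) / τ) * (1 / 2 ^ j) := by
      rw [div_le_iff₀ (by positivity)]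
      have h1 : 4 * ((y : ℝ) / τ) * (1 / 2 ^ j) * (2 ^ k0 * 2 ^ j) = 4 * y * (2 ^ k0 / τ) := by
        field_simp
      rw [h1]
      have h2 : (1 : ℝ) / 2 ≤ 2 ^ k0 / τ := by
        rw [div_le_div_iff₀ (by norm_num) hτ0]
        linarith
      nlinarith
    have a2 : Real.log (2 ^ k0 * 2 ^ j / (2 * (y : ℝ))) ≤ j + Real.log ρ := by
      have h1 : (2 : ℝ) ^ k0 * 2 ^ j / (2 * y) ≤ 2 ^ j * ρ := by
        rw [hρ, div_le_iff₀ (by positivity)]
        have h2 : (2 : ℝ) ^ j * (τ / y) * (2 * y) = 2 * (2 ^ j * τ) := by field_simp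
        rw [h2]
        nlinarith
      have h3 : 0 < (2 : ℝ) ^ k0 * 2 ^ j / (2 * y) := by positivity
      refine (Real.log_le_log h3 h1).trans ?_
      rw [Real.log_mul (by positivity) (by positivity), Real.log_pow]
      have h4 : Real.log 2 ≤ 1 := by
        have := Real.log_two_lt_d9
        linarith
      have h5 : (j : ℝ) * Real.log 2 ≤ j * 1 := mul_le_mul_of_nonneg_left h4 (Nat.cast_nonneg j)
      linarith
    have a3 : 0 ≤ Real.log (2 ^ k0 * 2 ^ j / (2 * (y : ℝ))) := by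
      apply Real.log_nonneg
      rw [le_div_iff₀ (by positivity)]
      have h1 : (8 : ℝ) * (2 * y + 2) ≤ 2 ^ (k0 + j) := by exact_mod_cast h8
      rw [hkj] at h1
      linarith
    have hj0 : (0 : ℝ) ≤ j := Nat.cast_nonneg j
    have a4 : 1 + Real.log (2 ^ k0 * 2 ^ j / (2 * (y : ℝ))) + Real.log X ≤
        ((j : ℝ) + 1) * ((1 + Real.log ρ) * (1 + Real.log X)) := by
      have h1 : 0 ≤ Real.log ρ * Real.log X := mul_nonneg hlρ hlX
      have h2 : 0 ≤ (j : ℝ) * (Real.log ρ + Real.log X + Real.log ρ * Real.log X) := by positivity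
      nlinarith
    have a5 : (1 + Real.log (2 ^ k0 * 2 ^ j / (2 * (y : ℝ))) + Real.log X) ^ 2 ≤
        (((j : ℝ) + 1) * ((1 + Real.log ρ) * (1 + Real.log X))) ^ 2 :=
      pow_le_pow_left₀ (by linarith) a4 2
    have hCU : 0 < C * UU s := by positivity
    calc C * UU s * (2 * (y : ℝ) / (2 ^ k0 * 2 ^ j)) *
          (1 + Real.log (2 ^ k0 * 2 ^ j / (2 * (y : ℝ))) + Real.log X) ^ 2 ≤
        C * UU s * (4 * ((y : ℝ) / τ) * (1 / 2 ^ j)) * (((j : ℝ) + 1) * ((1 + Real.log ρ) * (1 + Real.log X))) ^ 2 := by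
          apply mul_le_mul (mul_le_mul_of_nonneg_left a1 hCU.le) a5 (by positivity) (by positivity)
      _ = _ := by ring
  refine (Finset.sum_le_sum hterm).trans ?_
  have hnn : ∀ j ∈ Finset.range J, 0 ≤ 4 * C * UU s * ((y : ℝ) / τ) * ((1 + Real.log ρ) * (1 + Real.log X)) ^ 2 *
        (((j : ℝ) + 1) ^ 2 / 2 ^ j) := by
    intro j _
    positivity
  rw [← ENNReal.ofReal_sum_of_nonneg hnn, ← Finset.mul_sum]
  apply ENNReal.ofReal_le_ofReal
  have h1 := ser J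
  have h2 : 0 ≤ 4 * C * UU s * ((y : ℝ) / τ) * ((1 + Real.log ρ) * (1 + Real.log X)) ^ 2 := by positivity
  calc _ ≤ 4 * C * UU s * ((y : ℝ) / τ) * ((1 + Real.log ρ) * (1 + Real.log X)) ^ 2 * 12 :=
        mul_le_mul_of_nonneg_left h1 h2
    _ = _ := by ring

/-- one block of sizes of the giants. -/
lemma size_block
    (hsec : ∀ m0 τ T : ℕ, m0 < τ → gf {t | t ∈ Brd T ∧ Ret m0 τ t} ≤
      ∑ m ∈ Finset.range m0, ∑ e ∈ Finset.Icc τ T, secW m e T)
    (hjump : ∀ y τ s : ℕ, y ≤ s → ENNReal.ofReal (UU y * UU s) * ∑ r ∈ Finset.Ioc s (2 * s), KR y τ r ≤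
      ∑ T ∈ Finset.Ioc s (4 * s), gf {t | t ∈ Brd T ∧ Ret (2 * y) τ t})
    {c C : ℝ} (hC : 0 < C)
    (hblk : ∀ (k m0 s : ℕ) (X : ℝ), 5 ≤ k → 1 ≤ m0 → 8 * (m0 + 2) ≤ 2 ^ k → 1 ≤ X → RetB X c (4 * s + 1) →
      SecBlk k m0 s ≤ ENNReal.ofReal (C * UU s * (m0 / 2 ^ k) * (1 + Real.log (2 ^ k / m0) + Real.log X) ^ 2))
    {y τ s : ℕ} (hy : 1 ≤ y) (hτ : 64 * y ≤ τ) (hs : y ≤ s) {X : ℝ} (hX : 1 ≤ X) (hR : RetB X c (4 * s + 1)) :
    ∑ r ∈ Finset.Ioc s (2 * s), KR y τ r ≤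
      ENNReal.ofReal (48 * C / UU y * ((y : ℝ) / τ) * ((1 + Real.log ((τ : ℝ) / y)) * (1 + Real.log X)) ^ 2) := by
  have hUs := Num2Aux.UU_pos s
  have hUy := Num2Aux.UU_pos y
  have hyp : (1 : ℝ) ≤ y := by exact_mod_cast hy
  have hτp : (64 : ℝ) * y ≤ τ := by exact_mod_cast hτ
  have hτ0 : (0 : ℝ) < τ := by linarith
  have h1 := hjump y τ s hs
  have h2 : ∑ T ∈ Finset.Ioc s (4 * s), gf {t | t ∈ Brd T ∧ Ret (2 * y) τ t} ≤
      ∑ T ∈ Finset.Ioc s (4 * s), ∑ m ∈ Finset.range (2 * y), ∑ e ∈ Finset.Icc τ T, secW m e T :=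
    Finset.sum_le_sum fun T _ => hsec (2 * y) τ T (by omega)
  have h3 := (h1.trans h2).trans (sec_sum hC hblk hy hτ hX hR)
  have h4 : 48 * C * UU s * ((y : ℝ) / τ) * ((1 + Real.log ((τ : ℝ) / y)) * (1 + Real.log X)) ^ 2 =
      (UU y * UU s) * (48 * C / UU y * ((y : ℝ) / τ) * ((1 + Real.log ((τ : ℝ) / y)) * (1 + Real.log X)) ^ 2) := by
    field_simp
  have h4' : ENNReal.ofReal ((UU y * UU s) *
      (48 * C / UU y * ((y : ℝ) / τ) * ((1 + Real.log ((τ : ℝ) / y)) * (1 + Real.log X)) ^ 2)) =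
      ENNReal.ofReal (UU y * UU s) * ENNReal.ofReal
        (48 * C / UU y * ((y : ℝ) / τ) * ((1 + Real.log ((τ : ℝ) / y)) * (1 + Real.log X)) ^ 2) :=
    ENNReal.ofReal_mul (by positivity)
  rw [h4, h4'] at h3
  have h5 : ENNReal.ofReal (UU y * UU s) ≠ 0 := by
    rw [Ne, ENNReal.ofReal_eq_zero]
    have : 0 < UU y * UU s := by positivity
    linarith
  exact (ENNReal.mul_le_mul_iff_right h5 ENNReal.ofReal_ne_top).1 h3

end StepR

open StepR

/-- R5b, from R1 (section_dec), R2 (jump_ret) and R4d (block_bound). -/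
theorem ret_step_of
    (hsec : ∀ m0 τ T : ℕ, m0 < τ → gf {t | t ∈ Brd T ∧ Ret m0 τ t} ≤
      ∑ m ∈ Finset.range m0, ∑ e ∈ Finset.Icc τ T, secW m e T)
    (hjump : ∀ y τ s : ℕ, y ≤ s → ENNReal.ofReal (UU y * UU s) * ∑ r ∈ Finset.Ioc s (2 * s), KR y τ r ≤
      ∑ T ∈ Finset.Ioc s (4 * s), gf {t | t ∈ Brd T ∧ Ret (2 * y) τ t})
    (hblock : ∀ c : ℝ, 0 < c → ∃ C : ℝ, 0 < C ∧ ∀ (k m0 s : ℕ) (X : ℝ), 5 ≤ k → 1 ≤ m0 → 8 * (m0 + 2) ≤ 2 ^ k →
      1 ≤ X → RetB X c (4 * s + 1) →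
      SecBlk k m0 s ≤ ENNReal.ofReal (C * UU s * (m0 / 2 ^ k) * (1 + Real.log (2 ^ k / m0) + Real.log X) ^ 2)) :
    ∃ c C : ℝ, 0 < c ∧ 0 < C ∧
      ∀ (X : ℝ) (R : ℕ), 1 ≤ X → RetB X c (4 * R) → RetB (C * (1 + Real.log X) ^ 2) c R := by
  classical
  obtain ⟨C2, c2, hC2, hc2, hc21, hgr⟩ := UU_growth2
  have hCW := Num2Aux.CW_pos
  obtain ⟨κ, hκ⟩ : ∃ κ : ℝ, κ = 1 / (6 + CW) := ⟨_, rfl⟩
  have hκ0 : 0 < κ := by rw [hκ]; positivity
  have hκ1 : κ ≤ 1 := by
    rw [hκ, div_le_one (by linarith)]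
    linarith
  set c := min (c2 / 2) κ with hc
  have hc0 : 0 < c := lt_min (by positivity) hκ0
  have hcc2 : c ≤ c2 / 2 := min_le_left _ _
  have hcκ : c ≤ κ := min_le_right _ _
  obtain ⟨C, hC, hblk⟩ := hblock c hc0
  -- the constants
  set B := (1 + 6 / c2) ^ 3 with hB
  have hB0 : 0 < B := by positivity
  set K := 128 + 96 * C * C2 * B * 2 + 4 with hK
  have hK0 : 0 < K := by positivity
  refine ⟨c, K, hc0, hK0, ?_⟩
  intro X R hX hR y τ hy hyt
  have hyp : (1 : ℝ) ≤ y := by exact_mod_cast hy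
  have hyt' : (y : ℝ) ≤ τ := by exact_mod_cast hyt
  have hτ0 : (0 : ℝ) < τ := by linarith
  have hUτ := Num2Aux.UU_pos τ
  have hUy := Num2Aux.UU_pos y
  have hlX : 0 ≤ Real.log X := Real.log_nonneg hX
  have hL1 : 1 ≤ (1 + Real.log X) ^ 2 := by nlinarith
  obtain ⟨ρ, hρ⟩ : ∃ ρ : ℝ, ρ = (τ : ℝ) / y := ⟨_, rfl⟩
  have hρ1 : 1 ≤ ρ := by
    rw [hρ, le_div_iff₀ (by linarith)]
    linarith
  have hρ0 : 0 < ρ := by linarith
  have hpow : ((y : ℝ) / τ) ^ c = ρ ^ (-c) := by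
    rw [Real.rpow_neg hρ0.le, hρ, ← Real.inv_rpow (by positivity), inv_div]
  rw [hpow]
  have hρc : 0 < ρ ^ (-c) := Real.rpow_pos_of_pos hρ0 _
  -- only the sizes at least τ
  have hrest : ∑ r ∈ Finset.range R, KR y τ r = ∑ r ∈ (Finset.range R).filter (fun r => τ - 1 < r), KR y τ r := by
    rw [Finset.sum_filter]
    apply Finset.sum_congr rfl
    intro r _
    split_ifs with h
    · rfl
    · exact KR_zero (by omega)
  rw [hrest]
  have hUτ1 : UU τ ≤ 2 * UU (τ - 1) := by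
    have h1 : UU τ = UU (τ - 1) + uu τ := by
      have e : τ = (τ - 1) + 1 := by omega
      conv_lhs => rw [e]
      rw [Num2Aux.UU_succ]
      congr 2
      omega
    have h2 : uu τ ≤ 1 := uu_le_one τ
    have h3 : 1 ≤ UU (τ - 1) := by
      have h4 := Num2Aux.UU_mono (Nat.zero_le (τ - 1))
      have h5 : UU 0 = 1 := by
        unfold UU
        rw [zero_add, Finset.sum_range_one, uu_zero]
      rw [h5] at h4
      exact h4
    linarith
  rcases Nat.lt_or_ge τ (64 * y) with hτ | hτ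
  · -- τ < 64 y
    refine (tail_le (y := y) (τ := τ) (s := τ - 1) (R := R)).trans (ENNReal.ofReal_le_ofReal ?_)
    have hU1 := Num2Aux.UU_pos (τ - 1)
    have h1 : 1 / UU (τ - 1) ≤ 2 / UU τ := by
      rw [div_le_div_iff₀ hU1 hUτ]
      linarith
    have h2 : (64 : ℝ)⁻¹ ≤ ρ ^ (-c) := by
      have h3 : ρ ≤ 64 := by
        rw [hρ, div_le_iff₀ (by linarith)]
        have : (τ : ℝ) < 64 * y := by exact_mod_cast hτ
        linarith
      rw [Real.rpow_neg hρ0.le]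
      apply inv_anti₀ (Real.rpow_pos_of_pos hρ0 _)
      calc ρ ^ c ≤ ρ ^ (1 : ℝ) := Real.rpow_le_rpow_of_exponent_le hρ1 (by linarith)
        _ = ρ := Real.rpow_one ρ
        _ ≤ 64 := h3
    refine h1.trans ?_
    have h3 : 2 ≤ K * (1 + Real.log X) ^ 2 * ρ ^ (-c) := by
      have h4 : (128 : ℝ) ≤ K := by
        have : 0 ≤ 96 * C * C2 * B * 2 := by positivity
        linarith
      have h5 : 128 * 1 ≤ K * (1 + Real.log X) ^ 2 := mul_le_mul h4 hL1 (by norm_num) hK0.le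
      calc (2 : ℝ) = 128 * 1 * (64 : ℝ)⁻¹ := by norm_num
        _ ≤ K * (1 + Real.log X) ^ 2 * ρ ^ (-c) := mul_le_mul h5 h2 (by norm_num) (by positivity)
    calc 2 / UU τ ≤ (K * (1 + Real.log X) ^ 2 * ρ ^ (-c)) / UU τ := div_le_div_of_nonneg_right h3 hUτ.le
      _ = _ := by ring
  · -- τ ≥ 64 y
    have hτp : (64 : ℝ) * y ≤ τ := by exact_mod_cast hτ
    have hρ64 : 64 ≤ ρ := by
      rw [hρ, le_div_iff₀ (by linarith)]
      exact hτp
    have hlρ : 0 ≤ Real.log ρ := Real.log_nonneg (by linarith)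
    obtain ⟨l, hl⟩ : ∃ l : ℕ, l = ⌈Real.logb 2 ρ⌉₊ := ⟨_, rfl⟩
    have hl1 : ρ ≤ 2 ^ l := by
      have h1 : Real.logb 2 ρ ≤ l := by
        rw [hl]
        exact Nat.le_ceil _
      have h2 : ρ = (2 : ℝ) ^ (Real.logb 2 ρ) := (Real.rpow_logb (by norm_num) (by norm_num) hρ0).symm
      rw [h2, ← Real.rpow_natCast]
      exact Real.rpow_le_rpow_of_exponent_le (by norm_num) h1
    have hl2 : (l : ℝ) ≤ 2 * (1 + Real.log ρ) := by
      have h1 : (l : ℝ) < Real.logb 2 ρ + 1 := by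
        rw [hl]
        apply Nat.ceil_lt_add_one
        exact Real.logb_nonneg (by norm_num) (by linarith)
      have h2 : Real.logb 2 ρ ≤ 2 * Real.log ρ := by
        unfold Real.logb
        rw [div_le_iff₀ (Real.log_pos (by norm_num))]
        have := Real.log_two_gt_d9
        nlinarith
      linarith
    set D := 48 * C / UU y * ((y : ℝ) / τ) * ((1 + Real.log ρ) * (1 + Real.log X)) ^ 2 with hD
    have hD0 : 0 ≤ D := by positivity
    -- the decomposition of the sizes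
    have hdec : (Finset.range R).filter (fun r => τ - 1 < r) ⊆
        ((Finset.range l).biUnion fun i => (Finset.Ioc (2 ^ i * (τ - 1)) (2 * (2 ^ i * (τ - 1)))).filter (fun r => r < R)) ∪
          (Finset.range R).filter (fun r => 2 ^ l * (τ - 1) < r) := by
      intro r hr
      rw [Finset.mem_filter, Finset.mem_range] at hr
      rw [Finset.mem_union]
      rcases Nat.lt_or_ge (2 ^ l * (τ - 1)) r with h1 | h1
      · right
        rw [Finset.mem_filter, Finset.mem_range]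
        exact ⟨hr.1, h1⟩
      · left
        rw [Finset.mem_biUnion]
        -- the first i with r ≤ 2 ^ (i + 1) (τ - 1)
        have hex : ∃ i, r ≤ 2 ^ i * (τ - 1) := ⟨l, h1⟩
        have hf := Nat.find_spec hex
        have hfm : Nat.find hex ≤ l := Nat.find_min' hex h1
        have hf0 : Nat.find hex ≠ 0 := by
          intro h0
          rw [h0, pow_zero, one_mul] at hf
          omega
        obtain ⟨i, hi⟩ : ∃ i, Nat.find hex = i + 1 := ⟨Nat.find hex - 1, by omega⟩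
        have hmin := Nat.find_min hex (m := i) (by omega)
        rw [hi, pow_succ] at hf
        refine ⟨i, Finset.mem_range.2 (by omega), ?_⟩
        rw [Finset.mem_filter, Finset.mem_Ioc]
        refine ⟨⟨by omega, ?_⟩, hr.1⟩
        calc r ≤ 2 ^ i * 2 * (τ - 1) := hf
          _ = 2 * (2 ^ i * (τ - 1)) := by ring
    refine (Finset.sum_le_sum_of_subset hdec).trans ((sum_un_le _ _ _).trans ?_)
    have hA : ∑ r ∈ (Finset.range l).biUnion (fun i =>
        (Finset.Ioc (2 ^ i * (τ - 1)) (2 * (2 ^ i * (τ - 1)))).filter (fun r => r < R)), KR y τ r ≤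
        ENNReal.ofReal (l * D) := by
      refine (sum_bi_le _ _ _).trans ?_
      have h1 : ∀ i ∈ Finset.range l, ∑ r ∈ (Finset.Ioc (2 ^ i * (τ - 1)) (2 * (2 ^ i * (τ - 1)))).filter
          (fun r => r < R), KR y τ r ≤ ENNReal.ofReal D := by
        intro i _
        rcases Nat.lt_or_ge (2 ^ i * (τ - 1) + 1) R with h2 | h2
        · have h3 : τ - 1 ≤ 2 ^ i * (τ - 1) := Nat.le_mul_of_pos_left _ (by positivity)
          have h4 := size_block hsec hjump hC hblk hy hτ (s := 2 ^ i * (τ - 1)) (by omega) hX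
            (fun y' τ' hy' hyt' => le_trans (Finset.sum_le_sum_of_subset (Finset.range_mono (by omega)))
              (hR y' τ' hy' hyt'))
          rw [← hρ] at h4
          exact (Finset.sum_le_sum_of_subset (Finset.filter_subset _ _)).trans h4
        · have h3 : (Finset.Ioc (2 ^ i * (τ - 1)) (2 * (2 ^ i * (τ - 1)))).filter (fun r => r < R) = ∅ := by
            rw [Finset.filter_eq_empty_iff]
            intro r hr
            rw [Finset.mem_Ioc] at hr
            omega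
          rw [h3, Finset.sum_empty]
          exact zero_le
      refine (Finset.sum_le_sum h1).trans ?_
      rw [Finset.sum_const, Finset.card_range, nsmul_eq_mul, ← ENNReal.ofReal_natCast,
        ← ENNReal.ofReal_mul (Nat.cast_nonneg _)]
    have hBt : ∑ r ∈ (Finset.range R).filter (fun r => 2 ^ l * (τ - 1) < r), KR y τ r ≤
        ENNReal.ofReal (4 * ρ ^ (-κ) / UU τ) := by
      refine (tail_le (y := y) (τ := τ) (s := 2 ^ l * (τ - 1)) (R := R)).trans (ENNReal.ofReal_le_ofReal ?_)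
      obtain ⟨s, hs⟩ : ∃ s : ℕ, s = 2 ^ l * (τ - 1) := ⟨_, rfl⟩
      rw [← hs]
      have hτ64 : 64 ≤ τ := by omega
      have hτ1 : (τ : ℝ) ≤ 2 * ((τ - 1 : ℕ) : ℝ) := by
        have : τ ≤ 2 * (τ - 1) := by omega
        exact_mod_cast this
      have hsr : ρ / 2 * τ ≤ s := by
        rw [hs]
        push_cast
        have h1 : ρ * ((τ - 1 : ℕ) : ℝ) ≤ 2 ^ l * ((τ - 1 : ℕ) : ℝ) :=
          mul_le_mul_of_nonneg_right hl1 (Nat.cast_nonneg _)
        nlinarith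
      have hsτ : τ ≤ s := by
        have : (τ : ℝ) ≤ s := by nlinarith
        exact_mod_cast this
      have h1 := UU_growth (s := τ) (T := s) (by omega) hsτ
      rw [← hκ] at h1
      have h2 : (ρ / 2) ^ κ ≤ ((s : ℝ) / τ) ^ κ := by
        apply Real.rpow_le_rpow (by positivity) _ hκ0.le
        rw [le_div_iff₀ hτ0]
        exact hsr
      have hρκ : 0 < ρ ^ κ := Real.rpow_pos_of_pos hρ0 _
      have h3 : ρ ^ κ / 2 ≤ (ρ / 2) ^ κ := by
        rw [Real.div_rpow hρ0.le (by norm_num)]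
        apply div_le_div_of_nonneg_left hρκ.le (Real.rpow_pos_of_pos (by norm_num) _)
        calc (2 : ℝ) ^ κ ≤ (2 : ℝ) ^ (1 : ℝ) := Real.rpow_le_rpow_of_exponent_le (by norm_num) hκ1
          _ = 2 := Real.rpow_one 2
      have h4 : UU τ * (ρ ^ κ / 2) ≤ 2 * UU s :=
        (mul_le_mul_of_nonneg_left (h3.trans h2) hUτ.le).trans h1
      have hUs := Num2Aux.UU_pos s
      rw [Real.rpow_neg hρ0.le, div_le_div_iff₀ hUs hUτ, one_mul]
      have h5 : UU τ * ρ ^ κ ≤ 4 * UU s := by linarith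
      have h6 : 4 * (ρ ^ κ)⁻¹ * UU s = (4 * UU s) / ρ ^ κ := by
        field_simp
      rw [h6, le_div_iff₀ hρκ]
      exact h5
    refine (add_le_add hA hBt).trans ?_
    have hρκ : 0 < ρ ^ (-κ) := Real.rpow_pos_of_pos hρ0 _
    rw [← ENNReal.ofReal_add (by positivity) (by positivity)]
    apply ENNReal.ofReal_le_ofReal
    -- numbers
    have e1 : ρ ^ (-κ) ≤ ρ ^ (-c) := Real.rpow_le_rpow_of_exponent_le hρ1 (by linarith)
    have e2 : 1 / UU y ≤ C2 * ρ ^ (1 - c2) / UU τ := by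
      have h1 := hgr y τ hy hyt
      rw [← hρ] at h1
      rw [div_le_div_iff₀ hUy hUτ]
      linarith
    have e3 : (1 + Real.log ρ) ≤ (1 + 6 / c2) * ρ ^ (c2 / 6) := by
      have h1 := Real.log_le_rpow_div hρ0.le (by positivity : 0 < c2 / 6)
      have h2 : 1 ≤ ρ ^ (c2 / 6) := Real.one_le_rpow hρ1 (by positivity)
      have h3 : ρ ^ (c2 / 6) / (c2 / 6) = 6 / c2 * ρ ^ (c2 / 6) := by field_simp
      rw [h3] at h1
      linarith
    have e4 : (1 + Real.log ρ) ^ 3 ≤ B * ρ ^ (c2 / 2) := by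
      have h1 : (1 + Real.log ρ) ^ 3 ≤ ((1 + 6 / c2) * ρ ^ (c2 / 6)) ^ 3 := pow_le_pow_left₀ (by linarith) e3 3
      have h2 : (ρ ^ (c2 / 6)) ^ 3 = ρ ^ (c2 / 2) := by
        rw [← Real.rpow_natCast (ρ ^ (c2 / 6)) 3, ← Real.rpow_mul hρ0.le]
        congr 1
        push_cast
        ring
      rw [mul_pow, h2] at h1
      exact h1
    have e5 : (l : ℝ) * D ≤ 96 * C * C2 * B * (ρ ^ (-c) / UU τ) * (1 + Real.log X) ^ 2 := by
      have h1 : D = 48 * C * (1 / UU y) * ρ⁻¹ * (1 + Real.log ρ) ^ 2 * (1 + Real.log X) ^ 2 := by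
        rw [hD, hρ, inv_div]
        ring
      have h2 : (l : ℝ) * D ≤ 2 * (1 + Real.log ρ) * D := mul_le_mul_of_nonneg_right hl2 hD0
      have h3 : 2 * (1 + Real.log ρ) * D = 96 * C * (1 / UU y) * ρ⁻¹ * (1 + Real.log ρ) ^ 3 * (1 + Real.log X) ^ 2 := by
        rw [h1]
        ring
      rw [h3] at h2
      refine h2.trans ?_
      have h4 : 96 * C * (1 / UU y) * ρ⁻¹ * (1 + Real.log ρ) ^ 3 ≤
          96 * C * (C2 * ρ ^ (1 - c2) / UU τ) * ρ⁻¹ * (B * ρ ^ (c2 / 2)) := by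
        gcongr
      have h5 : 96 * C * (C2 * ρ ^ (1 - c2) / UU τ) * ρ⁻¹ * (B * ρ ^ (c2 / 2)) =
          96 * C * C2 * B * (ρ ^ (1 - c2) * ρ⁻¹ * ρ ^ (c2 / 2) / UU τ) := by
        ring
      have h6 : ρ ^ (1 - c2) * ρ⁻¹ * ρ ^ (c2 / 2) = ρ ^ (-(c2 / 2)) := by
        rw [← Real.rpow_neg_one, ← Real.rpow_add hρ0, ← Real.rpow_add hρ0]
        congr 1
        ring
      have h7 : ρ ^ (-(c2 / 2)) ≤ ρ ^ (-c) := Real.rpow_le_rpow_of_exponent_le hρ1 (by linarith)
      rw [h5, h6] at h4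
      have h8 : 96 * C * C2 * B * (ρ ^ (-(c2 / 2)) / UU τ) ≤ 96 * C * C2 * B * (ρ ^ (-c) / UU τ) := by
        gcongr
      exact mul_le_mul_of_nonneg_right (h4.trans h8) (by positivity)
    have e6 : 4 * ρ ^ (-κ) / UU τ ≤ 4 * (ρ ^ (-c) / UU τ) * (1 + Real.log X) ^ 2 := by
      have h1 : 4 * ρ ^ (-κ) / UU τ ≤ 4 * ρ ^ (-c) / UU τ := by gcongr
      have h2 : 4 * ρ ^ (-c) / UU τ = 4 * (ρ ^ (-c) / UU τ) * 1 := by ring
      rw [h2] at h1
      exact h1.trans (mul_le_mul_of_nonneg_left hL1 (by positivity))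
    have e7 : 0 ≤ (ρ ^ (-c) / UU τ) * (1 + Real.log X) ^ 2 := by positivity
    have e8 : 0 ≤ 96 * C * C2 * B := by positivity
    calc (l : ℝ) * D + 4 * ρ ^ (-κ) / UU τ ≤
        96 * C * C2 * B * (ρ ^ (-c) / UU τ) * (1 + Real.log X) ^ 2 + 4 * (ρ ^ (-c) / UU τ) * (1 + Real.log X) ^ 2 :=
          add_le_add e5 e6
      _ = (96 * C * C2 * B + 4) * ((ρ ^ (-c) / UU τ) * (1 + Real.log X) ^ 2) := by ring
      _ ≤ K * ((ρ ^ (-c) / UU τ) * (1 + Real.log X) ^ 2) := by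
          apply mul_le_mul_of_nonneg_right _ e7
          rw [hK]
          linarith
      _ = _ := by ring

end HexObs
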