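import Pool.Agent.PHW7.DeepRet0
import Pool.Agent.PHW7.Block
import Pool.Agent.PHW7.StepR
import Pool.Agent.PHW7.SecDec
import Pool.Agent.PHW7.JumpRet

/-!
PHW, section S7: deep returns, from the average gains (R4b, quad_le) as a hypothesis.
-/

set_option autoImplicit false

namespace HexObs

open Complex Finset ENNReal

/-- (DR) from quad_le -/
theorem deep_returns_quad
    (hq : ∀ c : ℝ, 0 < c → ∃ δ K : ℝ, 0 < δ ∧ 0 < K ∧ ∀ (k m0 s : ℕ) (X : ℝ), 5 ≤ k → 1 ≤ m0 → 8 * (m0 + 2) ≤ 2 ^ k →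
      2 ^ k ≤ 4 * s → 1 ≤ X → RetB X c (4 * s + 1) → ∀ a b a' b' : ℕ, a < k - 1 → b < k → a' < k - 1 → b' < k + 2 →
      ∑ r ∈ Finset.range (2 ^ (k + 1)), min (vb k b r) (vb k b' r) * sw (Irr r) (fun I =>
        UpT k m0 s a b I * LowT k s a' b' (rev I)) ≤
      ENNReal.ofReal (K * (m0 * (uu (2 ^ k) / UU (2 ^ k))) *
        (UU (2 ^ max a b) / UU (2 ^ k) * Real.sqrt (min 1 (2 ^ k / m0 * GA δ c X k a b))) *
        (UU (2 ^ max a' b') / UU (2 ^ k) * Real.sqrt (min 1 (GA δ c X k a' b'))))) :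
    ∃ C c : ℝ, 0 < C ∧ 0 < c ∧ ∀ y τ R : ℕ, 1 ≤ y → y ≤ τ →
      ∑ r ∈ Finset.range R, KR y τ r ≤ ENNReal.ofReal (C / UU τ * ((y : ℝ) / τ) ^ c) :=
  deep_returns_of (ret_step_of (fun _ _ _ h => section_dec h) (fun _ _ _ h => jump_ret h)
    (fun c hc => block_bound_of hc (hq c hc)))

end HexObs
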