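import Mathlib

/-!
PHW, section S7, R1: the section of a sequence of levels.
-/

set_option autoImplicit false

namespace HexObs

namespace SecDec

/-- levels of a walk on the honeycomb lattice: even indices are upper vertices of the rows -/
structure LevSeq (f : ℕ → ℤ) : Prop where
  ev : ∀ i, Even i → f (i + 1) = f i + 2 ∨ f (i + 1) = f i - 1
  od : ∀ i, ¬ Even i → f (i + 1) = f i - 2 ∨ f (i + 1) = f i + 1
  nbe : ∀ i, Even i → f (i + 1) = f i + 2 → f (i + 2) ≠ f (i + 1) - 2
  nbo : ∀ i, ¬ Even i → f (i + 1) = f i - 2 → f (i + 2) ≠ f (i + 1) + 2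
  mde : ∀ i, Even i → (3 : ℤ) ∣ f i
  mdo : ∀ i, ¬ Even i → (3 : ℤ) ∣ f i - 2

/-- section between the last visit of the highest row before the first visit of the lowest row -/
theorem sec_seq {f : ℕ → ℤ} (hf : LevSeq f) {n T m0 τ : ℕ} (h0 : f 0 = 0) (hpos : ∀ k, 1 ≤ k → k ≤ n → 0 < f k)
    (hle : ∀ k, k ≤ n → f k ≤ 3 * T) (hn : f n = 3 * T) (hm : m0 < τ)
    (hret : ∃ i j, i < j ∧ j ≤ n ∧ 3 * (τ : ℤ) ≤ f i ∧ f j ≤ 3 * (m0 : ℤ)) :
    ∃ m e ρ l : ℕ, m < m0 ∧ τ ≤ e ∧ e ≤ T ∧ Even (ρ + 1) ∧ ρ + 4 + l < n ∧ 1 ≤ ρ ∧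
      Even l ∧ f (ρ + 1) = 3 * e ∧ f ρ = 3 * e - 1 ∧ f (ρ + 2) = 3 * e - 1 ∧ f (ρ + 3) = 3 * e - 3 ∧
      f (ρ + 2 + l) = 3 * m + 5 ∧ f (ρ + 3 + l) = 3 * m + 3 ∧ f (ρ + 4 + l) = 3 * m + 2 ∧
      f (ρ + 5 + l) = 3 * m + 3 ∧
      (∀ k, k ≤ ρ + 4 + l → f k ≤ 3 * e) ∧
      (∀ k, ρ + 3 ≤ k → k ≤ ρ + 2 + l → 3 * (m : ℤ) + 5 ≤ f k ∧ f k ≤ 3 * e - 3) ∧
      (∀ k, ρ ≤ k → k ≤ n → 3 * (m : ℤ) + 2 ≤ f k) := by
  classical
  obtain ⟨i, j, hij, hjn, hi, hj⟩ := hret
  -- the first visit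
  have hex : ∃ k, 3 * (τ : ℤ) ≤ f k := ⟨i, hi⟩
  obtain ⟨i0, hi0, hi0min⟩ : ∃ i0, 3 * (τ : ℤ) ≤ f i0 ∧ ∀ k, k < i0 → f k < 3 * (τ : ℤ) :=
    ⟨Nat.find hex, Nat.find_spec hex, fun k hk => not_le.1 (Nat.find_min hex hk)⟩
  have hi0i : i0 ≤ i := by
    by_contra hcon
    have := hi0min i (by omega)
    omega
  -- the lowest level afterwards
  have hex2 : ∃ v : ℕ, ∃ k, i0 < k ∧ k ≤ n ∧ f k = v := by
    have : 0 < f j := hpos j (by omega) hjn
    exact ⟨(f j).toNat, j, by omega, hjn, by omega⟩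
  obtain ⟨L, hL, hLmin⟩ : ∃ L : ℕ, (∃ k, i0 < k ∧ k ≤ n ∧ f k = L) ∧
      ∀ v : ℕ, v < L → ¬ ∃ k, i0 < k ∧ k ≤ n ∧ f k = v :=
    ⟨Nat.find hex2, Nat.find_spec hex2, fun v hv => Nat.find_min hex2 hv⟩
  have hLle : ∀ k, i0 < k → k ≤ n → (L : ℤ) ≤ f k := by
    intro k h1 h2
    by_contra hcon
    have h3 := hpos k (by omega) h2
    exact hLmin (f k).toNat (by omega) ⟨k, h1, h2, by omega⟩
  have hLj : (L : ℤ) ≤ 3 * m0 := (hLle j (by omega) hjn).trans hj
  -- first visit of the level L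
  obtain ⟨σ, ⟨hσ1, hσ2, hσ3⟩, hσmin⟩ : ∃ σ, (i0 < σ ∧ σ ≤ n ∧ f σ = L) ∧
      ∀ k, k < σ → ¬ (i0 < k ∧ k ≤ n ∧ f k = L) :=
    ⟨Nat.find hL, Nat.find_spec hL, fun k hk => Nat.find_min hL hk⟩
  have hm' : (m0 : ℤ) < τ := by exact_mod_cast hm
  have hT1 : (τ : ℤ) ≤ T := by
    have := hle i (by omega)
    omega
  have hσn : σ < n := by
    rcases Nat.lt_or_ge σ n with h | h
    · exact h
    · have : σ = n := by omega
      rw [this, hn] at hσ3
      omega
  have hσo : ¬ Even σ := by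
    intro he
    obtain ⟨s, rfl⟩ : ∃ s, σ = s + 1 := ⟨σ - 1, by omega⟩
    have hs : ¬ Even s := by
      rw [Nat.even_add_one] at he
      exact he
    have h1 : f (s + 1) = f s - 2 := by
      rcases hf.od s hs with h | h
      · exact h
      · exfalso
        rcases Nat.lt_or_ge i0 s with h2 | h2
        · have := hLle s h2 (by omega)
          omega
        · have h3 : s = i0 := by omega
          rw [h3] at h
          rw [h3] at hσ3
          omega
    have h2 : f (s + 2) = f (s + 1) + 2 := by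
      rcases hf.ev (s + 1) he with h | h
      · exact h
      · exfalso
        have := hLle (s + 1 + 1) (by omega) (by omega)
        omega
    exact hf.nbo s hs h1 h2
  obtain ⟨m, hmL⟩ : ∃ m : ℕ, L = 3 * m + 2 := by
    have h1 := hf.mdo σ hσo
    rw [hσ3] at h1
    have h2 : 0 < f σ := hpos σ (by omega) (by omega)
    refine ⟨(L - 2) / 3, ?_⟩
    omega
  have hmm0 : m < m0 := by omega
  -- before σ
  have hbef : ∀ k, i0 < k → k < σ → 3 * (m : ℤ) + 3 ≤ f k := by
    intro k h1 h2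
    have h3 := hLle k h1 (by omega)
    have h4 := hσmin k h2
    have h5 : f k ≠ L := fun h => h4 ⟨h1, by omega, h⟩
    omega
  have hσ3' : f σ = 3 * m + 2 := by rw [hσ3, hmL]; push_cast; ring
  have hσpar : σ % 2 = 1 := by
    rw [Nat.even_iff] at hσo
    omega
  have hs1 : f (σ - 1) = 3 * m + 3 := by
    have he : Even (σ - 1) := by rw [Nat.even_iff]; omega
    have h1 := hf.ev (σ - 1) he
    rw [Nat.sub_add_cancel (by omega : 1 ≤ σ)] at h1
    rcases h1 with h1 | h1
    · exfalso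
      rcases Nat.lt_or_ge i0 (σ - 1) with h2 | h2
      · have := hbef (σ - 1) h2 (by omega)
        omega
      · have h3 : σ - 1 = i0 := by omega
        rw [h3] at h1
        omega
    · omega
  have hσ1' : i0 < σ - 1 := by
    rcases Nat.lt_or_ge i0 (σ - 1) with h2 | h2
    · exact h2
    · exfalso
      have h3 : σ - 1 = i0 := by omega
      rw [h3] at hs1
      omega
  have hs2 : f (σ - 2) = 3 * m + 5 := by
    have he : ¬ Even (σ - 2) := by rw [Nat.even_iff]; omega
    have h1 := hf.od (σ - 2) he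
    rw [show σ - 2 + 1 = σ - 1 by omega] at h1
    rcases h1 with h1 | h1
    · omega
    · exfalso
      rcases Nat.lt_or_ge i0 (σ - 2) with h2 | h2
      · have := hbef (σ - 2) h2 (by omega)
        omega
      · have h3 : σ - 2 = i0 := by omega
        rw [h3] at h1
        omega
  have hσ2' : i0 < σ - 2 := by
    rcases Nat.lt_or_ge i0 (σ - 2) with h2 | h2
    · exact h2
    · exfalso
      have h3 : σ - 2 = i0 := by omega
      rw [h3] at hs2
      omega
  -- the highest level before σ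
  obtain ⟨ρ0, hρ0m, hρ0⟩ := Finset.exists_max_image (Finset.range σ) f ⟨0, Finset.mem_range.2 (by omega)⟩
  rw [Finset.mem_range] at hρ0m
  have hρ0' : ∀ k, k < σ → f k ≤ f ρ0 := fun k hk => hρ0 k (Finset.mem_range.2 hk)
  have hτρ : 3 * (τ : ℤ) ≤ f ρ0 := hi0.trans (hρ0' i0 (by omega))
  have hρ0pos : 1 ≤ ρ0 := by
    by_contra hcon
    have : ρ0 = 0 := by omega
    rw [this, h0] at hτρ
    omega
  have hρ0ev : Even ρ0 := by
    by_contra ho
    have hpar : ρ0 % 2 = 1 := by
      rw [Nat.even_iff] at ho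
      omega
    have he : Even (ρ0 - 1) := by rw [Nat.even_iff]; omega
    have h1 := hf.ev (ρ0 - 1) he
    have h2 := hf.od ρ0 ho
    have h3 := hf.nbe (ρ0 - 1) he
    rw [show ρ0 - 1 + 1 = ρ0 by omega] at h1 h3
    rw [show ρ0 - 1 + 2 = ρ0 + 1 by omega] at h3
    have h4 := hρ0' (ρ0 - 1) (by omega)
    have h5 : f (ρ0 + 1) ≤ f ρ0 := by
      rcases Nat.lt_or_ge (ρ0 + 1) σ with h | h
      · exact hρ0' _ h
      · have : ρ0 + 1 = σ := by omega
        rw [this, hσ3']
        omega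
    rcases h1 with h1 | h1
    · rcases h2 with h2 | h2
      · exact h3 h1 h2
      · omega
    · omega
  obtain ⟨e, he⟩ : ∃ e : ℕ, f ρ0 = 3 * e := by
    have h1 := hf.mde ρ0 hρ0ev
    refine ⟨(f ρ0 / 3).toNat, ?_⟩
    omega
  -- the last visit
  obtain ⟨ρ', hρ'⟩ : ∃ ρ', ρ' = Nat.findGreatest (fun k => f k = 3 * e) (σ - 1) := ⟨_, rfl⟩
  have hρ'spec : f ρ' = 3 * e := by
    rw [hρ']
    exact Nat.findGreatest_spec (P := fun k => f k = 3 * e) (by omega : ρ0 ≤ σ - 1) he
  have hρ'le : ρ' ≤ σ - 1 := by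
    rw [hρ']
    exact Nat.findGreatest_le _
  have hρ'max : ∀ k, ρ' < k → k ≤ σ - 1 → f k ≠ 3 * e := by
    intro k hk hl
    rw [hρ'] at hk
    exact Nat.findGreatest_is_greatest hk hl
  have hρ'ev : Even ρ' := by
    by_contra ho
    have := hf.mdo ρ' ho
    rw [hρ'spec] at this
    omega
  have hmax : ∀ k, k ≤ σ → f k ≤ 3 * e := by
    intro k hk
    rcases Nat.lt_or_ge k σ with h | h
    · rw [← he]
      exact hρ0' k h
    · have : k = σ := by omega
      rw [this, hσ3']
      omega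
  have heτ : (τ : ℤ) ≤ e := by omega
  have hi0ρ : i0 ≤ ρ' := by
    by_contra hcon
    have := hi0min ρ' (by omega)
    omega
  have hρ'par : ρ' % 2 = 0 := Nat.even_iff.1 hρ'ev
  have hρ's : ρ' + 3 ≤ σ := by
    have h1 : ρ' ≠ σ - 1 := by
      intro h
      rw [h, hs1] at hρ'spec
      omega
    omega
  have hρ'2 : 2 ≤ ρ' := by
    have : ρ' ≠ 0 := by
      rintro rfl
      rw [h0] at hρ'spec
      omega
    omega
  have hr0 : f (ρ' - 1) = 3 * e - 1 := by
    have ho : ¬ Even (ρ' - 1) := by rw [Nat.even_iff]; omega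
    have h1 := hf.od (ρ' - 1) ho
    rw [show ρ' - 1 + 1 = ρ' by omega] at h1
    have h2 := hmax (ρ' - 1) (by omega)
    rcases h1 with h1 | h1 <;> omega
  have hr1 : f (ρ' + 1) = 3 * e - 1 := by
    have h1 := hf.ev ρ' hρ'ev
    have h2 := hmax (ρ' + 1) (by omega)
    rcases h1 with h1 | h1 <;> omega
  have hr2 : f (ρ' + 2) = 3 * e - 3 := by
    have ho : ¬ Even (ρ' + 1) := by rw [Nat.even_iff]; omega
    have h1 := hf.od (ρ' + 1) ho
    have h2 := hρ'max (ρ' + 1 + 1) (by omega) (by omega)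
    rcases h1 with h1 | h1
    · rw [show ρ' + 2 = ρ' + 1 + 1 from rfl, h1, hr1]
      ring
    · exfalso
      rw [h1, hr1] at h2
      omega
  have hmid : ∀ k, ρ' + 2 ≤ k → k ≤ σ - 2 → 3 * (m : ℤ) + 5 ≤ f k ∧ f k ≤ 3 * e - 3 := by
    intro k h1 h2
    have h3 := hbef k (by omega) (by omega)
    have h4 := hmax k (by omega)
    have h5 := hρ'max k (by omega) (by omega)
    by_cases hk : Even k
    · have hm3 := hf.mde k hk
      have hkpar : k % 2 = 0 := Nat.even_iff.1 hk
      have ho : ¬ Even (k - 1) := by rw [Nat.even_iff]; omega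
      have h6 := hf.od (k - 1) ho
      have h7 := hf.nbo (k - 1) ho
      rw [show k - 1 + 1 = k by omega] at h6 h7
      rw [show k - 1 + 2 = k + 1 by omega] at h7
      have h8 := hf.ev k hk
      have h9 := hbef (k - 1) (by omega) (by omega)
      have h10 := hbef (k + 1) (by omega) (by omega)
      constructor
      · by_contra hcon
        have hk3 : f k = 3 * m + 3 := by omega
        have h11 : f k = f (k - 1) - 2 := by
          rcases h6 with h6 | h6
          · exact h6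
          · exfalso
            omega
        have h12 : f (k + 1) = f k + 2 := by
          rcases h8 with h8 | h8
          · exact h8
          · exfalso
            omega
        exact h7 h11 h12
      · omega
    · have hm3 := hf.mdo k hk
      have hkpar : k % 2 = 1 := by
        rw [Nat.even_iff] at hk
        omega
      have he' : Even (k - 1) := by rw [Nat.even_iff]; omega
      have h6 := hf.ev (k - 1) he'
      have h7 := hf.nbe (k - 1) he'
      rw [show k - 1 + 1 = k by omega] at h6 h7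
      rw [show k - 1 + 2 = k + 1 by omega] at h7
      have h8 := hf.od k hk
      have h9 := hρ'max (k - 1) (by omega) (by omega)
      have h10 := hρ'max (k + 1) (by omega) (by omega)
      have h11 := hmax (k - 1) (by omega)
      have h12 := hmax (k + 1) (by omega)
      constructor
      · omega
      · by_contra hcon
        have hk3 : f k = 3 * e - 1 := by omega
        have h13 : f k = f (k - 1) + 2 := by
          rcases h6 with h6 | h6
          · exact h6
          · exfalso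
            omega
        have h14 : f (k + 1) = f k - 2 := by
          rcases h8 with h8 | h8
          · exact h8
          · exfalso
            omega
        exact h7 h13 h14
  have hs3 : f (σ + 1) = 3 * m + 3 := by
    have h1 := hf.od σ hσo
    have h2 := hLle (σ + 1) (by omega) (by omega)
    rcases h1 with h1 | h1
    · omega
    · rw [h1, hσ3']
      ring
  have heT : e ≤ T := by
    have := hle ρ' (by omega)
    omega
  refine ⟨m, e, ρ' - 1, σ - ρ' - 3, hmm0, by exact_mod_cast heτ, heT, ?_, by omega, by omega, ?_, ?_, ?_, ?_, ?_, ?_,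
    ?_, ?_, ?_, ?_, ?_, ?_⟩
  · rw [show ρ' - 1 + 1 = ρ' by omega]
    exact hρ'ev
  · rw [Nat.even_iff]
    omega
  · rw [show ρ' - 1 + 1 = ρ' by omega]
    exact hρ'spec
  · exact hr0
  · rw [show ρ' - 1 + 2 = ρ' + 1 by omega]
    exact hr1
  · rw [show ρ' - 1 + 3 = ρ' + 2 by omega]
    exact hr2
  · rw [show ρ' - 1 + 2 + (σ - ρ' - 3) = σ - 2 by omega]
    exact hs2
  · rw [show ρ' - 1 + 3 + (σ - ρ' - 3) = σ - 1 by omega]
    exact hs1
  · rw [show ρ' - 1 + 4 + (σ - ρ' - 3) = σ by omega]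
    exact hσ3'
  · rw [show ρ' - 1 + 5 + (σ - ρ' - 3) = σ + 1 by omega]
    exact hs3
  · intro k hk
    exact hmax k (by omega)
  · intro k h1 h2
    exact hmid k (by omega) (by omega)
  · intro k h1 h2
    rcases Nat.lt_or_ge i0 k with h3 | h3
    · have := hLle k h3 h2
      omega
    · have h4 : k = ρ' - 1 ∨ k = ρ' := by omega
      rcases h4 with h4 | h4
      · rw [h4, hr0]
        omega
      · rw [h4, hρ'spec]
        omega

end SecDec

end HexObs
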