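import Pool.Agent.PHW7.SecDecA
import Pool.Agent.PHW7.Defs7
import Pool.Agent.PHW.TopA
import Pool.Agent.PHW.Rotate

/-!
PHW, section S7, R1: the section of a bridge word.
-/

set_option autoImplicit false

namespace HexObs

open Complex Finset ENNReal

namespace SecDec

lemma levSeq (t : List Bool) : LevSeq (lev t) where
  ev := by
    intro i hi
    rw [lev_succ]
    rcases step_even upd t hi with ⟨_, h⟩ | ⟨_, h⟩ | ⟨_, h⟩ <;> rw [h]
    · exact Or.inl rfl
    · exact Or.inr rfl
    · exact Or.inr rfl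
  od := by
    intro i hi
    rw [lev_succ]
    rcases step_odd upd t hi with ⟨_, h⟩ | ⟨_, h⟩ | ⟨_, h⟩ <;> rw [h]
    · exact Or.inl rfl
    · exact Or.inr rfl
    · exact Or.inr rfl
  nbe := by
    intro i hi h1 h2
    have s1 := lev_succ t i
    have s2 : lev t (i + 2) = lev t (i + 1) + ip (dx up t (i + 1)) up := lev_succ t (i + 1)
    have d1 : dx up t i = up := by
      rcases step_even upd t hi with ⟨h, _⟩ | ⟨_, h⟩ | ⟨_, h⟩
      · exact h
      · rw [h] at s1
        omega
      · rw [h] at s1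
        omega
    have d2 : dx up t (i + 1) = turn (tf t i) up := by rw [dx_succ, d1]
    rw [d2] at s2
    have : ∀ b : Bool, ip (turn b up) up = 1 := by decide
    rw [this] at s2
    omega
  nbo := by
    intro i hi h1 h2
    have s1 := lev_succ t i
    have s2 : lev t (i + 2) = lev t (i + 1) + ip (dx up t (i + 1)) up := lev_succ t (i + 1)
    have d1 : dx up t i = -up := by
      rcases step_odd upd t hi with ⟨h, _⟩ | ⟨_, h⟩ | ⟨_, h⟩
      · exact h
      · rw [h] at s1
        omega
      · rw [h] at s1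
        omega
    have d2 : dx up t (i + 1) = turn (tf t i) (-up) := by rw [dx_succ, d1]
    rw [d2] at s2
    have : ∀ b : Bool, ip (turn b (-up)) up = -1 := by decide
    rw [this] at s2
    omega
  mde := by
    intro i hi
    have := lev_mod t i
    rw [if_pos hi, sub_zero] at this
    exact this
  mdo := by
    intro i hi
    have := lev_mod t i
    rw [if_neg hi] at this
    exact this

/-- the beginning of a walk up to its (first) highest vertex, turned into a bridge -/
lemma brd_prefix {t : List Bool} {ρ e : ℕ} {c : Bool} (hρ : ρ + 1 ≤ t.length)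
    (hpos : ∀ k, 1 ≤ k → k ≤ ρ + 1 → 0 < lev t k) (hle : ∀ k, 1 ≤ k → k ≤ ρ + 1 → lev t k ≤ 3 * e)
    (hinj : ∀ i k, i < k → k ≤ ρ + 1 → vx oo up t i ≠ vx oo up t k)
    (hlev : lev t (ρ + 1) = 3 * e) (hd : dx up t ρ = turn c up) : t.take ρ ++ [!c] ∈ Brd e := by
  obtain ⟨a, ha⟩ : ∃ a, a = t.take ρ := ⟨_, rfl⟩
  have hal : a.length = ρ := by
    rw [ha, List.length_take]
    omega
  have hsplit : t = a ++ t.drop ρ := by
    rw [ha]
    exact (List.take_append_drop ρ t).symm
  rw [← ha]
  have hva : ∀ k, k ≤ ρ + 1 → vx oo up (a ++ [!c]) k = vx oo up t k := by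
    intro k hk
    rw [vx_append (by omega), hsplit, vx_append (by omega)]
  have hgl : (a ++ [!c]).length = ρ + 1 := by
    rw [List.length_append, hal]
    rfl
  have hlv : ∀ k, k ≤ ρ + 1 → lev (a ++ [!c]) k = lev t k := by
    intro k hk
    unfold lev
    rw [hva k hk]
  rw [mem_Brd, hgl]
  refine ⟨?_, ?_, ?_, ?_⟩
  · intro k h1 h2
    rw [hlv k h2]
    exact ⟨hpos k h1 h2, hle k h1 h2⟩
  · intro k l hkl hl
    rw [hva k (by omega), hva l hl]
    exact hinj k l hkl hl
  · have h1 := dx_append_one (d0 := up) (t := a) (b := !c)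
    rw [hgl] at h1
    have h2 : dx up a ρ = dx up t ρ := by
      rw [hsplit, dx_append (by omega)]
    rw [h1, hal, h2, hd, turn_turn]
  · rw [hlv _ le_rfl, hlev]

lemma drop_eq {t : List Bool} {i : ℕ} (hi : i < t.length) : t.drop i = tf t i :: t.drop (i + 1) := by
  unfold tf
  rw [List.getD_eq_getElem _ _ hi]
  exact List.drop_eq_getElem_cons hi

lemma turn_cases {b c : Bool} {d : Pt} (h : turn b (turn c d) ≠ d) : b = c := by
  by_contra hne
  have : b = !c := by
    cases b <;> cases c <;> simp at hne ⊢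
  apply h
  rw [this, turn_turn]

/-- the section of a bridge word -/
theorem section_word {m0 τ T : ℕ} (hm : m0 < τ) {t : List Bool} (ht : t ∈ Brd T) (hr : Ret m0 τ t) :
    ∃ (m e : ℕ) (c c' : Bool) (a r0 d : List Bool), m < m0 ∧ τ ≤ e ∧ e ≤ T ∧
      t = a ++ (c :: c :: (r0 ++ (c' :: c' :: d))) ∧ r0 ∈ Brd (e - m - 2) ∧ rev (a ++ [!c]) ∈ Brd e ∧
      Nbr (rev (a ++ [!c])) (c :: (!c) :: r0) ∧ (!c') :: d ∈ Brd (T - m) ∧
      Nbr ((!c') :: d) (rev (r0 ++ [!c', c'])) := by
  obtain ⟨b1, b2, b3, b4⟩ := mem_Brd.1 ht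
  obtain ⟨i, j, hij, hjl, hi, hj⟩ := hr
  obtain ⟨m, e, ρ, l, hmm, hτe, heT, hρev, hρn, hρ1, hlev, f1, f0, f2, f3, g0, g1, g2, g3, hmax, hmid, hmin⟩ :=
    sec_seq (levSeq t) (n := t.length) (T := T) (m0 := m0) (τ := τ) (lev_zero t)
      (fun k h1 h2 => (b1 k h1 h2).1)
      (fun k h2 => by
        rcases Nat.eq_zero_or_pos k with h | h
        · rw [h, lev_zero]
          positivity
        · exact (b1 k h h2).2) b4 hm ⟨i, j, hij, hjl, hi, hj⟩
  have hρo : ¬ Even ρ := by
    intro h
    rw [Nat.even_add_one] at hρev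
    exact hρev h
  have hρpar : ρ % 2 = 1 := by
    rw [Nat.even_iff] at hρo
    omega
  have hlpar : l % 2 = 0 := Nat.even_iff.1 hlev
  -- directions
  have s0 := lev_succ t ρ
  have s1 : lev t (ρ + 2) = lev t (ρ + 1) + ip (dx up t (ρ + 1)) up := lev_succ t (ρ + 1)
  have s2 : lev t (ρ + 3) = lev t (ρ + 2) + ip (dx up t (ρ + 2)) up := lev_succ t (ρ + 2)
  obtain ⟨c, hc⟩ : ∃ c : Bool, dx up t ρ = turn c up := by
    rcases step_odd upd t hρo with ⟨hd, hip⟩ | ⟨hd, hip⟩ | ⟨hd, hip⟩
    · exfalso
      rw [hip] at s0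
      omega
    · exact ⟨true, hd⟩
    · exact ⟨false, hd⟩
  have e1 : dx up t (ρ + 1) = turn (tf t ρ) (turn c up) := by rw [dx_succ, hc]
  have hb0 : tf t ρ = c := by
    apply turn_cases (d := up)
    rw [← e1]
    intro h
    rw [h, ip_self_dir upd] at s1
    omega
  rw [hb0] at e1
  have e2 : dx up t (ρ + 2) = turn (tf t (ρ + 1)) (turn c (turn c up)) := by
    rw [show ρ + 2 = ρ + 1 + 1 from rfl, dx_succ, e1]
  have hb1 : tf t (ρ + 1) = c := by
    apply turn_cases (d := turn c up)
    rw [← e2]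
    intro h
    rw [h] at s2
    have : ∀ b : Bool, ip (turn b up) up = 1 := by decide
    rw [this] at s2
    omega
  rw [hb1] at e2
  have e2' : dx up t (ρ + 2) = -up := by
    rw [e2]
    cases c <;> decide
  -- lower end
  have s3 : lev t (ρ + 3 + l) = lev t (ρ + 2 + l) + ip (dx up t (ρ + 2 + l)) up := by
    rw [show ρ + 3 + l = ρ + 2 + l + 1 by omega]
    exact lev_succ t _
  have s4 : lev t (ρ + 5 + l) = lev t (ρ + 4 + l) + ip (dx up t (ρ + 4 + l)) up := by
    rw [show ρ + 5 + l = ρ + 4 + l + 1 by omega]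
    exact lev_succ t _
  have hlo : ¬ Even (ρ + 2 + l) := by rw [Nat.even_iff]; omega
  have e3 : dx up t (ρ + 2 + l) = -up := by
    rcases step_odd upd t hlo with ⟨hd, _⟩ | ⟨_, hip⟩ | ⟨_, hip⟩
    · exact hd
    · exfalso
      rw [hip] at s3
      omega
    · exfalso
      rw [hip] at s3
      omega
  obtain ⟨c', hc'⟩ : ∃ c', c' = tf t (ρ + 2 + l) := ⟨_, rfl⟩
  have e4 : dx up t (ρ + 3 + l) = turn c' (-up) := by
    rw [show ρ + 3 + l = ρ + 2 + l + 1 by omega, dx_succ, e3, hc']
  have e5 : dx up t (ρ + 4 + l) = turn (tf t (ρ + 3 + l)) (turn c' (-up)) := by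
    rw [show ρ + 4 + l = ρ + 3 + l + 1 by omega, dx_succ, e4]
  have hb3 : tf t (ρ + 3 + l) = c' := by
    apply turn_cases (d := -up)
    rw [← e5]
    intro h
    rw [h] at s4
    have : ip (-up) up = -2 := by decide
    rw [this] at s4
    omega
  rw [hb3] at e5
  have e5' : dx up t (ρ + 4 + l) = turn (!c') up := by
    rw [e5]
    cases c' <;> decide
  -- the words
  obtain ⟨a, ha⟩ : ∃ a, a = t.take ρ := ⟨_, rfl⟩
  obtain ⟨r0, hr0⟩ : ∃ r0, r0 = (t.drop (ρ + 2)).take l := ⟨_, rfl⟩
  obtain ⟨d, hd⟩ : ∃ d, d = t.drop (ρ + 4 + l) := ⟨_, rfl⟩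
  have hal : a.length = ρ := by
    rw [ha, List.length_take]
    omega
  have hr0l : r0.length = l := by
    rw [hr0, List.length_take, List.length_drop]
    omega
  have hdl : d.length = t.length - (ρ + 4 + l) := by rw [hd, List.length_drop]
  have hq : t.drop (ρ + 2) = r0 ++ (c' :: c' :: d) := by
    have h1 : t.drop (ρ + 2) = r0 ++ (t.drop (ρ + 2)).drop l := by
      rw [hr0]
      exact (List.take_append_drop l _).symm
    rw [h1, List.drop_drop]
    congr 1
    rw [drop_eq (show ρ + 2 + l < t.length by omega), ← hc', show ρ + 2 + l + 1 = ρ + 3 + l by omega,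
      drop_eq (show ρ + 3 + l < t.length by omega), hb3, show ρ + 3 + l + 1 = ρ + 4 + l by omega, hd]
  have hsplit : t = a ++ (c :: c :: (r0 ++ (c' :: c' :: d))) := by
    rw [← hq, ha]
    have h1 : t.drop ρ = c :: c :: t.drop (ρ + 2) := by
      rw [drop_eq (show ρ < t.length by omega), hb0, drop_eq (show ρ + 1 < t.length by omega), hb1]
    rw [← h1]
    exact (List.take_append_drop ρ t).symm
  -- the middle strand
  have hvr : ∀ k, k ≤ l + 1 → vx oo up r0 k = vx oo up t (ρ + 2) - vx oo up t (ρ + 2 + k) := by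
    intro k hk
    have h1 : vx oo up t (ρ + 2 + k) = vx (vx oo up t (ρ + 2)) (dx up t (ρ + 2)) (t.drop (ρ + 2)) k := by
      unfold vx dx
      rw [vs_shift]
      apply vs_congr
      intro q _
      have h2 := tf_append_right (t := t.take (ρ + 2)) (s := t.drop (ρ + 2)) q
      rw [List.take_append_drop, List.length_take, min_eq_left (by omega)] at h2
      exact h2
    rw [h1, e2', vx_turned, hq, vx_append (by omega)]
    abel
  have hdr : ∀ k, k ≤ l → dx up r0 k = -dx up t (ρ + 2 + k) := by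
    intro k hk
    have h1 := hvr k (by omega)
    have h2 := hvr (k + 1) (by omega)
    have h3 := vx_succ oo up r0 k
    have h4 := vx_succ oo up t (ρ + 2 + k)
    rw [show ρ + 2 + (k + 1) = ρ + 2 + k + 1 by omega, h4] at h2
    rw [h3, h1] at h2
    have : vx oo up t (ρ + 2) - vx oo up t (ρ + 2 + k) + dx up r0 k =
      vx oo up t (ρ + 2) - vx oo up t (ρ + 2 + k) + -dx up t (ρ + 2 + k) := by
      rw [h2]
      abel
    exact add_left_cancel this
  have hlr : ∀ k, k ≤ l + 1 → lev r0 k = lev t (ρ + 2) - lev t (ρ + 2 + k) := by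
    intro k hk
    unfold lev
    rw [hvr k hk, ip_sub_left]
  have hme : m + 2 ≤ e := by omega
  have hr0B : r0 ∈ Brd (e - m - 2) := by
    have hcast : ((e - m - 2 : ℕ) : ℤ) = e - m - 2 := by omega
    rw [mem_Brd, hr0l, hcast]
    refine ⟨?_, ?_, ?_, ?_⟩
    · intro k h1 h2
      rw [hlr k (by omega), f2]
      have := hmid (ρ + 2 + k) (by omega) (by omega)
      constructor <;> linarith [this.1, this.2]
    · intro k q hkq hql heq
      rw [hvr k (by omega), hvr q (by omega)] at heq
      exact b2 (ρ + 2 + k) (ρ + 2 + q) (by omega) (by omega) (sub_right_injective heq)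
    · rw [hdr l le_rfl, e3]
      exact neg_neg up
    · rw [hlr l (by omega), f2, g0]
      ring
  -- upper strand
  have hEB : a ++ [!c] ∈ Brd e := by
    rw [ha]
    exact brd_prefix (by omega) (fun k h1 h2 => (b1 k h1 (by omega)).1) (fun k _ h2 => hmax k (by omega))
      (fun i k h1 h2 => b2 i k h1 (by omega)) f1 hc
  -- upper fold
  have hupper : Nbr (rev (a ++ [!c])) (c :: (!c) :: r0) := by
    obtain ⟨t1, ht1⟩ : ∃ t1, t1 = t.take (ρ + 2 + l) := ⟨_, rfl⟩
    have ht1l : t1.length = ρ + 2 + l := by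
      rw [ht1, List.length_take]
      omega
    have hts : t = t1 ++ t.drop (ρ + 2 + l) := by
      rw [ht1]
      exact (List.take_append_drop _ t).symm
    have hv1 : ∀ k, k ≤ ρ + 3 + l → vx oo up t1 k = vx oo up t k := by
      intro k hk
      conv_rhs => rw [hts]
      rw [vx_append (by omega)]
    have hd1 : ∀ k, k ≤ ρ + 2 + l → dx up t1 k = dx up t k := by
      intro k hk
      conv_rhs => rw [hts]
      rw [dx_append (by omega)]
    have hl1 : ∀ k, k ≤ ρ + 3 + l → lev t1 k = lev t k := by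
      intro k hk
      unfold lev
      rw [hv1 k hk]
    have h1 := hang_cut (T := e) (t := t1) (by omega) (c := c) (m := ρ) (by omega)
      (fun k h1 h2 => by rw [hl1 k (by omega)]; exact (b1 k h1 (by omega)).1)
      (fun k h1 h2 => by rw [hl1 k (by omega)]; exact hmax k (by omega))
      (fun i k h1 h2 => by rw [hv1 i (by omega), hv1 k (by omega)]; exact b2 i k h1 (by omega))
      (by rw [hl1 _ (by omega)]; exact f1)
      (by rw [hd1 _ (by omega)]; exact hc)
      (by rw [hd1 _ (by omega)]; exact e1)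
      (r := r0) (fun k hk => by
        refine ⟨by omega, ?_⟩
        rw [hv1 _ (by omega), hv1 _ (by omega)]
        exact hvr k (by omega)) (p := []) (Or.inl rfl)
    have h2 : t1.take ρ = a := by
      rw [ht1, ha, List.take_take]
      congr 1
      omega
    rw [List.nil_append, h2] at h1
    cases c with
    | true => exact Or.inl h1
    | false => exact Or.inr h1
  -- the reversed word
  obtain ⟨u, hu⟩ : ∃ u, u = rev t := ⟨_, rfl⟩
  have hul : u.length = t.length := by rw [hu, rev_length]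
  obtain ⟨ρ', hρ'⟩ : ∃ ρ', ρ' + (ρ + 4 + l) = t.length := ⟨t.length - (ρ + 4 + l), by omega⟩
  have hvu : ∀ k, k ≤ t.length + 1 → vx oo up u k = tip oo up t - vx oo up t (t.length + 1 - k) := by
    intro k hk
    rw [hu]
    exact vx_rot b3 hk
  have hdu : ∀ k, k ≤ t.length → dx up u k = dx up t (t.length - k) := by
    intro k hk
    rw [hu]
    exact dx_rot b3 hk
  have hlu : ∀ k, k ≤ t.length + 1 → lev u k = 3 * T + 2 - lev t (t.length + 1 - k) := by
    intro k hk
    rw [hu, lev_rot b3 hk, lev_top ht]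
  have hu1 : ∀ k, 1 ≤ k → k ≤ t.length → 0 < lev u k := by
    intro k h1 h2
    have := ((mem_Brd.1 (Brd_rev ht)).1 k h1 (by rw [rev_length]; exact h2)).1
    rwa [← hu] at this
  have hu2 : ∀ i k, i < k → k ≤ t.length → vx oo up u i ≠ vx oo up u k := by
    intro i k h1 h2
    have := (mem_Brd.1 (Brd_rev ht)).2.1 i k h1 (by rw [rev_length]; exact h2)
    rwa [← hu] at this
  have hTm : ((T - m : ℕ) : ℤ) = T - m := by omega
  have hu3 : ∀ k, 1 ≤ k → k ≤ t.length - ρ → lev u k ≤ 3 * ((T - m : ℕ) : ℤ) := by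
    intro k h1 h2
    rw [hlu k (by omega), hTm]
    have := hmin (t.length + 1 - k) (by omega) (by omega)
    linarith
  have hu4 : lev u (ρ' + 1) = 3 * ((T - m : ℕ) : ℤ) := by
    rw [hlu _ (by omega), hTm, show t.length + 1 - (ρ' + 1) = ρ + 4 + l by omega, g2]
    ring
  have hu5 : dx up u ρ' = turn (!c') up := by
    rw [hdu _ (by omega), show t.length - ρ' = ρ + 4 + l by omega, e5']
  have hu6 : dx up u (ρ' + 1) = turn (!c') (turn (!c') up) := by
    rw [hdu _ (by omega), show t.length - (ρ' + 1) = ρ + 3 + l by omega, e4]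
    cases c' <;> decide
  have htk : u.take ρ' = rev d := by
    have h1 : t = t.take (ρ + 4 + l) ++ d := by
      rw [hd]
      exact (List.take_append_drop _ t).symm
    rw [hu, h1, rev_append, List.take_append_of_le_length (by rw [rev_length, hdl]; omega),
      List.take_of_length_le (by rw [rev_length, hdl]; omega)]
  have hrR : rev ((!c') :: d) = u.take ρ' ++ [!(!c')] := by
    rw [htk]
    unfold rev
    simp
  have hRB : (!c') :: d ∈ Brd (T - m) := by
    have h1 : u.take ρ' ++ [!(!c')] ∈ Brd (T - m) :=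
      brd_prefix (by omega) (fun k h1 h2 => hu1 k h1 (by omega)) (fun k h1 h2 => hu3 k h1 (by omega))
        (fun i k h1 h2 => hu2 i k h1 (by omega)) hu4 hu5
    rw [← hrR] at h1
    exact Brd_rev_iff.1 h1
  -- lower fold
  have hdr0 : dx up r0 r0.length = up := (mem_Brd.1 hr0B).2.2.1
  have hlower : Nbr ((!c') :: d) (rev (r0 ++ [!c', c'])) := by
    obtain ⟨u1, hu1'⟩ : ∃ u1, u1 = u.take (ρ' + 2 + l) := ⟨_, rfl⟩
    have hu1l : u1.length = ρ' + 2 + l := by
      rw [hu1', List.length_take]
      omega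
    have hts : u = u1 ++ u.drop (ρ' + 2 + l) := by
      rw [hu1']
      exact (List.take_append_drop _ u).symm
    have hv1 : ∀ k, k ≤ ρ' + 3 + l → vx oo up u1 k = vx oo up u k := by
      intro k hk
      conv_rhs => rw [hts]
      rw [vx_append (by omega)]
    have hd1 : ∀ k, k ≤ ρ' + 2 + l → dx up u1 k = dx up u k := by
      intro k hk
      conv_rhs => rw [hts]
      rw [dx_append (by omega)]
    have hl1 : ∀ k, k ≤ ρ' + 3 + l → lev u1 k = lev u k := by
      intro k hk
      unfold lev
      rw [hv1 k hk]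
    have h1 := hang_cut (T := T - m) (t := u1) (by omega) (c := !c') (m := ρ') (by omega)
      (fun k h1 h2 => by rw [hl1 k (by omega)]; exact hu1 k h1 (by omega))
      (fun k h1 h2 => by rw [hl1 k (by omega)]; exact hu3 k h1 (by omega))
      (fun i k h1 h2 => by rw [hv1 i (by omega), hv1 k (by omega)]; exact hu2 i k h1 (by omega))
      (by rw [hl1 _ (by omega)]; exact hu4)
      (by rw [hd1 _ (by omega)]; exact hu5)
      (by rw [hd1 _ (by omega)]; exact hu6)
      (r := rev r0) (fun k hk => by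
        rw [rev_length, hr0l] at hk
        refine ⟨by omega, ?_⟩
        rw [hv1 _ (by omega), hv1 _ (by omega), hvu _ (by omega), hvu _ (by omega),
          vx_rot hdr0 (by omega), hr0l]
        have h2 : tip oo up r0 = vx oo up r0 (l + 1) := by
          rw [← hr0l]
          rfl
        rw [h2, hvr (l + 1) le_rfl, hvr (l + 1 - k) (by omega),
          show ρ + 2 + (l + 1 - k) = t.length + 1 - (ρ' + 2 + k) by omega,
          show ρ + 2 + (l + 1) = t.length + 1 - (ρ' + 2) by omega]
        abel) (p := []) (Or.inl rfl)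
    have h2 : u1.take ρ' = u.take ρ' := by
      rw [hu1', List.take_take]
      congr 1
      omega
    rw [List.nil_append, h2, ← hrR] at h1
    have h3 : rev (r0 ++ [!c', c']) = (!c') :: c' :: rev r0 := by
      rw [rev_append]
      unfold rev
      simp
    rw [h3]
    cases c' with
    | true =>
      refine Or.inr ?_
      have h4 : Dj (false :: true :: rev r0) (rev (rev ((!true) :: d))) := h1
      rw [rev_rev] at h4
      exact h4
    | false =>
      refine Or.inl ?_
      have h4 : Dj (rev (rev ((!false) :: d))) (true :: false :: rev r0) := h1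
      rw [rev_rev] at h4
      exact h4
  exact ⟨m, e, c, c', a, r0, d, hmm, hτe, heT, hsplit, hr0B, Brd_rev hEB, hupper, hRB, hlower⟩

end SecDec

end HexObs
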