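import Pool.Agent.PHW7.SecLe0

/-!
PHW, section S7, R4a: sums over the near parts of the two folds.
-/

set_option autoImplicit false

namespace HexObs

open Complex Finset ENNReal

namespace SecAux

theorem sw_comp_le {A B : Set (List Bool)} {Ψ : List Bool → ℝ≥0∞} (f : List Bool → List Bool) (κ : ℝ≥0∞)
    (hf : ∀ a ∈ A, f a ∈ B) (hinj : ∀ a a', f a = f a' → a = a') (hw : ∀ a, wE (f a) = κ * wE a) :
    κ * sw A (fun a => Ψ (f a)) ≤ sw B Ψ := by
  rw [← sw_mul_left]
  unfold sw
  have hi : Function.Injective (fun a : {t : List Bool // t ∈ A} => (⟨f a.1, hf a.1 a.2⟩ : {t : List Bool // t ∈ B})) := by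
    intro a a' h
    exact Subtype.ext (hinj _ _ (congrArg Subtype.val h))
  refine le_trans (le_of_eq (tsum_congr fun a => ?_)) (ENNReal.tsum_comp_le_tsum_of_injective hi
    (fun b : {t : List Bool // t ∈ B} => wE b.1 * Ψ b.1))
  show wE a.1 * (κ * Ψ (f a.1)) = wE (f a.1) * Ψ (f a.1)
  rw [hw]
  ring

lemma wE_two (a b : Bool) : wE [a, b] = ENNReal.ofReal (xc ^ 2) := rfl

theorem lead_le (n : ℕ) (c : Bool) (Ψ : List Bool → ℝ≥0∞) :
    ENNReal.ofReal (xc ^ 2) * sw (Brd n) (fun N => Ψ (c :: (!c) :: N)) ≤ sw (Brd (n + 1)) Ψ := by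
  apply sw_comp_le (fun N => c :: (!c) :: N)
  · intro a ha
    exact step_brd c ha
  · intro a a' h
    simpa using h
  · intro a
    have : c :: (!c) :: a = [c, !c] ++ a := rfl
    rw [this, wE_append, wE_two]

theorem trail_le (n : ℕ) (c : Bool) (Ψ : List Bool → ℝ≥0∞) :
    ENNReal.ofReal (xc ^ 2) * sw (Brd n) (fun M => Ψ (rev (M ++ [!c, c]))) ≤ sw (Brd (n + 1)) Ψ := by
  apply sw_comp_le (fun M => rev (M ++ [!c, c]))
  · intro a ha
    exact Brd_rev (brd_step_end c ha)
  · intro a a' h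
    have h1 : rev (rev (a ++ [!c, c])) = rev (rev (a' ++ [!c, c])) := congrArg rev h
    rw [rev_rev, rev_rev] at h1
    exact List.append_cancel_right h1
  · intro a
    show wE (rev (a ++ [!c, c])) = _
    rw [Wall.wE_rev, wE_append, wE_two, mul_comm]

/-- heights with given size -/
lemma size_pos_of {n b : ℕ} (h : Nat.size (n + 1) = b) : n + 1 < 2 ^ b := by
  rw [← h]
  exact Nat.lt_size_self (n + 1)

lemma mem_Bk {t : List Bool} {h a : ℕ} (ht : t ∈ Brd h) (ha : Nat.size h = a) : t ∈ Bk a := ⟨h, ha, ht⟩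

/-- sum of the near parts of the lower fold -/
theorem low_total {k s : ℕ} (hk : 4 ≤ k) (hvb : ∀ n r b : ℕ, n < 2 ^ b → vk k n r ≤ vb k b r) (d : ℕ) (S : Finset ℕ)
    (hS : ∀ μ ∈ S, Nat.size (μ + 1) = d) (J : List Bool) :
    ∑ μ ∈ S, sw (Brd (μ + 1)) (fun M => LB k s (M ++ J)) ≤ ∑ c ∈ Finset.range (k - 1), LowT k s c d J := by
  classical
  have h1 : ∑ μ ∈ S, sw (Brd (μ + 1)) (fun M => LB k s (M ++ J)) ≤ sw (Bk d) (fun M => LB k s (M ++ J)) := by
    calc _ = ∑ μ' ∈ S.image (fun μ => μ + 1), sw (Brd μ') (fun M => LB k s (M ++ J)) := by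
          rw [Finset.sum_image]
          intro a _ b _ hab
          have : a + 1 = b + 1 := hab
          omega
      _ ≤ _ := by
          apply sum_sw_le
          intro μ' hμ'
          rw [Finset.mem_image] at hμ'
          obtain ⟨μ, hμ, rfl⟩ := hμ'
          exact fun t ht => mem_Bk ht (hS μ hμ)
  refine h1.trans ?_
  unfold LB
  rw [sw_sum]
  have h2 : ∀ x ∈ Finset.range (2 ^ (k - 2)), Nat.size x ∈ Finset.range (k - 1) := by
    intro x hx
    rw [Finset.mem_range] at hx ⊢
    have := Nat.size_le.2 hx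
    omega
  rw [← Finset.sum_fiberwise_of_maps_to h2]
  refine Finset.sum_le_sum fun c _ => ?_
  unfold LowT
  calc ∑ x ∈ (Finset.range (2 ^ (k - 2))).filter (fun x => Nat.size x = c), sw (Bk d) (fun M =>
        ∑ r1 ∈ Finset.range (4 * s + 1), vk k x r1 * sw (Brd x) (fun X => sw (Irr r1) (fun I1 => fI k (X ++ I1) (M ++ J))))
      = ∑ r1 ∈ Finset.range (4 * s + 1), ∑ x ∈ (Finset.range (2 ^ (k - 2))).filter (fun x => Nat.size x = c),
        vk k x r1 * sw (Bk d) (fun M => sw (Brd x) (fun X => sw (Irr r1) (fun I1 => fI k (X ++ I1) (M ++ J)))) := by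
        rw [Finset.sum_comm]
        refine Finset.sum_congr rfl fun x _ => ?_
        rw [sw_sum]
        exact Finset.sum_congr rfl fun r1 _ => sw_mul_left _ _ _
    _ ≤ ∑ r1 ∈ Finset.range (4 * s + 1), vb k c r1 *
        ∑ x ∈ (Finset.range (2 ^ (k - 2))).filter (fun x => Nat.size x = c),
          sw (Brd x) (fun X => sw (Bk d) (fun M => sw (Irr r1) (fun I1 => fI k (X ++ I1) (M ++ J)))) := by
        refine Finset.sum_le_sum fun r1 _ => ?_
        rw [Finset.mul_sum]
        refine Finset.sum_le_sum fun x hx => ?_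
        rw [Finset.mem_filter] at hx
        rw [sw_comm]
        refine mul_le_mul_left (hvb x r1 c ?_) _
        rw [← hx.2]
        exact Nat.lt_size_self x
    _ ≤ _ := by
        refine Finset.sum_le_sum fun r1 _ => mul_le_mul_right ?_ _
        refine (sum_sw_le (B := Bk c) ?_).trans (le_of_eq ?_)
        · intro x hx t ht
          rw [Finset.mem_filter] at hx
          exact mem_Bk ht hx.2
        · have e1 : ∀ X, sw (Bk d) (fun M => sw (Irr r1) (fun I1 => fI k (X ++ I1) (M ++ J))) =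
              sw (Irr r1) (fun I1 => sw (Bk d) (fun M => fI k (X ++ I1) (M ++ J))) := fun X => sw_comm _ _ _
          simp only [e1]
          rw [sw_comm]
          refine sw_congr fun I1 _ => ?_
          rw [g2_eq_sw]
          rfl

/-- all upper strands of height e -/
noncomputable def UP (k e : ℕ) (Y : List Bool) : ℝ≥0∞ := ∑ x ∈ Finset.range (2 ^ (k - 2)),
  ∑ r1 ∈ Finset.range (e + 1 - x), vk k x r1 *
        sw (Brd x) (fun X => sw (Irr r1) (fun I1 => gf (Brd (e - x - r1)) * fI k (X ++ I1) Y))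

/-- the part of UP with near parts of size a -/
noncomputable def UPa (k e a : ℕ) (Y : List Bool) : ℝ≥0∞ :=
  ∑ x ∈ (Finset.range (2 ^ (k - 2))).filter (fun x => Nat.size x = a),
    ∑ r1 ∈ Finset.range (e + 1 - x), vk k x r1 *
        sw (Brd x) (fun X => sw (Irr r1) (fun I1 => gf (Brd (e - x - r1)) * fI k (X ++ I1) Y))

lemma UP_eq {k e : ℕ} (hk : 4 ≤ k) (Y : List Bool) : UP k e Y = ∑ a ∈ Finset.range (k - 1), UPa k e a Y := by
  have h2 : ∀ x ∈ Finset.range (2 ^ (k - 2)), Nat.size x ∈ Finset.range (k - 1) := by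
    intro x hx
    rw [Finset.mem_range] at hx ⊢
    have := Nat.size_le.2 hx
    omega
  unfold UP UPa
  rw [← Finset.sum_fiberwise_of_maps_to h2]

lemma fold_left {t0 z : ℕ} {X Z Y : List Bool} (hZ : Z ∈ Brd z) (h : Fold7 t0 (X ++ Z) Y) : Fold7 t0 X Y := by
  obtain ⟨X', Y', p', q', p, q, h1, h2, h3, h4, h5, h6, h7⟩ := h
  refine ⟨Z ++ X', Y', z + p', q', p, q, Brd_append hZ h1, h2, ?_, h4, h5, h6, ?_⟩
  · rwa [← List.append_assoc]
  · rwa [← List.append_assoc]

lemma fold_right {t0 z : ℕ} {X Z Y : List Bool} (hZ : Z ∈ Brd z) (h : Fold7 t0 X (Y ++ Z)) : Fold7 t0 X Y := by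
  obtain ⟨X', Y', p', q', p, q, h1, h2, h3, h4, h5, h6, h7⟩ := h
  refine ⟨X', Z ++ Y', p', z + q', p, q, h1, Brd_append hZ h2, h3, ?_, h5, h6, ?_⟩
  · rwa [← List.append_assoc]
  · rwa [← List.append_assoc]

/-- first bound: the giant of the upper strand is dropped -/
theorem UPa_le1 {k e a : ℕ} {K : ℝ≥0∞} (hK : ∀ x : ℕ, x < 2 ^ (k - 2) →
      ∑ r ∈ Finset.range (e + 1 - x), vk k x r * gf (Irr r) * gf (Brd (e - x - r)) ≤ K) (Y : List Bool) :
    UPa k e a Y ≤ K * sw (Bk a) (fun X => fI k X Y) := by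
  classical
  unfold UPa
  calc _ ≤ ∑ x ∈ (Finset.range (2 ^ (k - 2))).filter (fun x => Nat.size x = a),
        K * sw (Brd x) (fun X => fI k X Y) := by
        refine Finset.sum_le_sum fun x hx => ?_
        rw [Finset.mem_filter, Finset.mem_range] at hx
        refine le_trans ?_ (mul_le_mul_left (hK x hx.1) _)
        rw [Finset.sum_mul]
        refine Finset.sum_le_sum fun r1 _ => ?_
        rw [mul_assoc, mul_assoc]
        refine mul_le_mul_right ?_ _
        calc sw (Brd x) (fun X => sw (Irr r1) (fun I1 => gf (Brd (e - x - r1)) * fI k (X ++ I1) Y))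
            ≤ sw (Brd x) (fun X => sw (Irr r1) (fun _ => gf (Brd (e - x - r1)) * fI k X Y)) := by
              refine sw_mono subset_rfl fun X _ => sw_mono subset_rfl fun I1 hI1 => mul_le_mul_right ?_ _
              exact ind_mono fun h => fold_left hI1.1 h
          _ = sw (Brd x) (fun X => (gf (Irr r1) * gf (Brd (e - x - r1))) * fI k X Y) := by
              refine sw_congr fun X _ => ?_
              rw [sw_const, mul_assoc]
          _ = _ := by
              rw [sw_mul_left, mul_assoc]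
    _ = K * ∑ x ∈ (Finset.range (2 ^ (k - 2))).filter (fun x => Nat.size x = a), sw (Brd x) (fun X => fI k X Y) := by
        rw [Finset.mul_sum]
    _ ≤ _ := by
        refine mul_le_mul_right (sum_sw_le ?_) _
        intro x hx t ht
        rw [Finset.mem_filter] at hx
        exact mem_Bk ht hx.2

end SecAux

end HexObs
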