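import Pool.Agent.PHW7.SecLe1

/-!
PHW, section S7, R4a: the two bounds for the upper fold.
-/

set_option autoImplicit false

namespace HexObs

open Complex Finset ENNReal

namespace SecAux

lemma gf_Brd_anti {a b : ℕ} (h : a ≤ b) : gf (Brd b) ≤ gf (Brd a) := by
  rw [gf_Brd, gf_Brd, Wall.BT_ofReal, Wall.BT_ofReal]
  exact ENNReal.ofReal_le_ofReal (uu_anti h)

/-- sum over consecutive heights -/
lemma sum_shift (h z m0 : ℕ) : ∑ m ∈ Finset.range m0, (if z ≤ h + m then gf (Brd (h + m - z)) else 0) ≤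
    ENNReal.ofReal (UU m0) := by
  classical
  rw [ofReal_UU, ← Finset.sum_filter]
  calc ∑ m ∈ (Finset.range m0).filter (fun m => z ≤ h + m), gf (Brd (h + m - z))
      ≤ ∑ m ∈ (Finset.range m0).filter (fun m => z ≤ h + m), gf (Brd (m - (z - h))) := by
        refine Finset.sum_le_sum fun m hm => gf_Brd_anti ?_
        rw [Finset.mem_filter] at hm
        omega
    _ = ∑ i ∈ ((Finset.range m0).filter (fun m => z ≤ h + m)).image (fun m => m - (z - h)), gf (Brd i) := by
        rw [Finset.sum_image]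
        intro a ha b hb hab
        rw [Finset.coe_filter, Set.mem_ofPred_eq] at ha hb
        simp only at hab
        omega
    _ ≤ _ := by
        apply Finset.sum_le_sum_of_subset
        intro i hi
        rw [Finset.mem_image] at hi
        obtain ⟨m, hm, rfl⟩ := hi
        rw [Finset.mem_filter, Finset.mem_range] at hm
        rw [Finset.mem_range]
        omega

/-- second bound: the sum over m makes the rest of the upper strand free -/
theorem UPa_le2 {k a h m0 s : ℕ} {P : ℕ → Prop} [DecidablePred P] (hP : ∀ m, P m → h + m ≤ 4 * s)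
    (hvb : ∀ n r b : ℕ, n < 2 ^ b → vk k n r ≤ vb k b r) (Y : List Bool) :
    ∑ m ∈ Finset.range m0, (if P m then UPa k (h + m) a Y else 0) ≤
      ENNReal.ofReal (UU m0) * ∑ r1 ∈ Finset.range (4 * s + 1), vb k a r1 *
        sw (Irr r1) (fun I1 => sw (Bk a) (fun X => fI k (X ++ I1) Y)) := by
  classical
  have h1 : ∀ m ∈ Finset.range m0, (if P m then UPa k (h + m) a Y else 0) ≤
      ∑ x ∈ (Finset.range (2 ^ (k - 2))).filter (fun x => Nat.size x = a), ∑ r1 ∈ Finset.range (4 * s + 1),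
        (if x + r1 ≤ h + m then gf (Brd (h + m - (x + r1))) else 0) *
          (vb k a r1 * sw (Brd x) (fun X => sw (Irr r1) (fun I1 => fI k (X ++ I1) Y))) := by
    intro m _
    split_ifs with hm
    · unfold UPa
      refine Finset.sum_le_sum fun x hx => ?_
      rw [Finset.mem_filter] at hx
      have hsub : Finset.range (h + m + 1 - x) ⊆ Finset.range (4 * s + 1) := by
        intro y hy
        have := hP m hm
        rw [Finset.mem_range] at hy ⊢
        omega
      refine le_trans ?_ (Finset.sum_le_sum_of_subset hsub)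
      refine Finset.sum_le_sum fun r1 hr1 => ?_
      rw [Finset.mem_range] at hr1
      rw [if_pos (by omega)]
      have e1 : ∀ X, sw (Irr r1) (fun I1 => gf (Brd (h + m - x - r1)) * fI k (X ++ I1) Y) =
          gf (Brd (h + m - x - r1)) * sw (Irr r1) (fun I1 => fI k (X ++ I1) Y) := fun X => sw_mul_left _ _ _
      simp only [e1]
      rw [sw_mul_left]
      have h2 : vk k x r1 ≤ vb k a r1 := by
        apply hvb
        rw [← hx.2]
        exact Nat.lt_size_self x
      have e2 : h + m - x - r1 = h + m - (x + r1) := by omega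
      rw [e2]
      calc vk k x r1 * (gf (Brd (h + m - (x + r1))) * sw (Brd x) (fun X => sw (Irr r1) (fun I1 => fI k (X ++ I1) Y)))
          = gf (Brd (h + m - (x + r1))) * (vk k x r1 * sw (Brd x) (fun X => sw (Irr r1) (fun I1 => fI k (X ++ I1) Y))) := by
            ring
        _ ≤ _ := mul_le_mul_right (mul_le_mul_left h2 _) _
    · exact zero_le
  refine (Finset.sum_le_sum h1).trans ?_
  rw [Finset.sum_comm]
  calc _ ≤ ∑ x ∈ (Finset.range (2 ^ (k - 2))).filter (fun x => Nat.size x = a), ∑ r1 ∈ Finset.range (4 * s + 1),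
        ENNReal.ofReal (UU m0) * (vb k a r1 * sw (Brd x) (fun X => sw (Irr r1) (fun I1 => fI k (X ++ I1) Y))) := by
        refine Finset.sum_le_sum fun x _ => ?_
        rw [Finset.sum_comm]
        refine Finset.sum_le_sum fun r1 _ => ?_
        rw [← Finset.sum_mul]
        exact mul_le_mul_left (sum_shift h (x + r1) m0) _
    _ = ENNReal.ofReal (UU m0) * ∑ r1 ∈ Finset.range (4 * s + 1), vb k a r1 *
        ∑ x ∈ (Finset.range (2 ^ (k - 2))).filter (fun x => Nat.size x = a),
          sw (Brd x) (fun X => sw (Irr r1) (fun I1 => fI k (X ++ I1) Y)) := by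
        rw [Finset.sum_comm, Finset.mul_sum]
        refine Finset.sum_congr rfl fun r1 _ => ?_
        rw [Finset.mul_sum, Finset.mul_sum]
    _ ≤ _ := by
        refine mul_le_mul_right (Finset.sum_le_sum fun r1 _ => mul_le_mul_right ?_ _) _
        rw [← sw_comm]
        apply sum_sw_le
        intro x hx t ht
        rw [Finset.mem_filter] at hx
        exact mem_Bk ht hx.2

/-- upper fold, sum over the near part of the middle strand -/
theorem up_total {k m0 s b h : ℕ} {C : ℝ} (hC : 1 ≤ C)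
    (hvb : ∀ n r b : ℕ, n < 2 ^ b → vk k n r ≤ vb k b r)
    (hK : ∀ e x : ℕ, 2 ^ k ≤ e → x < 2 ^ (k - 2) →
      ∑ r ∈ Finset.range (e + 1 - x), vk k x r * gf (Irr r) * gf (Brd (e - x - r)) ≤
        ENNReal.ofReal (C * (uu (2 ^ k) / UU (2 ^ k)))) (S : Finset ℕ)
    (hS : ∀ n ∈ S, Nat.size (n + 1) = b) (a : ℕ) (I : List Bool) :
    ∑ n ∈ S, ∑ m ∈ Finset.range m0, (if 2 ^ k ≤ h + n + m ∧ h + n + m ≤ 4 * s then
      sw (Brd (n + 1)) (fun N => UPa k (h + n + m) a (N ++ I)) else 0) ≤
      ENNReal.ofReal C * UpT k m0 s a b I := by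
  classical
  have hC0 : (0 : ℝ) ≤ C := by linarith
  have hSB : ∀ Φ : List Bool → ℝ≥0∞, ∑ n ∈ S, sw (Brd (n + 1)) Φ ≤ sw (Bk b) Φ := by
    intro Φ
    calc _ = ∑ μ' ∈ S.image (fun μ => μ + 1), sw (Brd μ') Φ := by
          rw [Finset.sum_image]
          intro a _ b _ hab
          have : a + 1 = b + 1 := hab
          omega
      _ ≤ _ := by
          apply sum_sw_le
          intro μ' hμ'
          rw [Finset.mem_image] at hμ'
          obtain ⟨μ, hμ, rfl⟩ := hμ'
          exact fun t ht => mem_Bk ht (hS μ hμ)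
  -- first bound
  have b1 : ∑ n ∈ S, ∑ m ∈ Finset.range m0, (if 2 ^ k ≤ h + n + m ∧ h + n + m ≤ 4 * s then
      sw (Brd (n + 1)) (fun N => UPa k (h + n + m) a (N ++ I)) else 0) ≤
      ENNReal.ofReal C * (ENNReal.ofReal (m0 * (uu (2 ^ k) / UU (2 ^ k))) *
        g2 (Bk a) (Bk b) (fun X Y => Fold7 (2 ^ (k - 1)) X (Y ++ I))) := by
    have h1 : ∀ n ∈ S, ∑ m ∈ Finset.range m0, (if 2 ^ k ≤ h + n + m ∧ h + n + m ≤ 4 * s then
        sw (Brd (n + 1)) (fun N => UPa k (h + n + m) a (N ++ I)) else 0) ≤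
        (m0 : ℝ≥0∞) * (ENNReal.ofReal (C * (uu (2 ^ k) / UU (2 ^ k))) *
          sw (Brd (n + 1)) (fun N => sw (Bk a) (fun X => fI k X (N ++ I)))) := by
      intro n _
      calc _ ≤ ∑ _m ∈ Finset.range m0, ENNReal.ofReal (C * (uu (2 ^ k) / UU (2 ^ k))) *
            sw (Brd (n + 1)) (fun N => sw (Bk a) (fun X => fI k X (N ++ I))) := by
            refine Finset.sum_le_sum fun m _ => ?_
            split_ifs with hm
            · rw [← sw_mul_left]
              refine sw_mono subset_rfl fun N _ => ?_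
              exact UPa_le1 (fun x hx => hK _ x hm.1 hx) (N ++ I)
            · exact zero_le
        _ = _ := by rw [Finset.sum_const, Finset.card_range, nsmul_eq_mul]
    refine (Finset.sum_le_sum h1).trans ?_
    rw [← Finset.mul_sum, ← Finset.mul_sum]
    have e1 : ENNReal.ofReal C * (ENNReal.ofReal (m0 * (uu (2 ^ k) / UU (2 ^ k))) *
        g2 (Bk a) (Bk b) (fun X Y => Fold7 (2 ^ (k - 1)) X (Y ++ I))) =
        (m0 : ℝ≥0∞) * (ENNReal.ofReal (C * (uu (2 ^ k) / UU (2 ^ k))) *
          g2 (Bk a) (Bk b) (fun X Y => Fold7 (2 ^ (k - 1)) X (Y ++ I))) := by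
      rw [ENNReal.ofReal_mul (Nat.cast_nonneg m0), ENNReal.ofReal_natCast, ENNReal.ofReal_mul hC0]
      ring
    rw [e1]
    refine mul_le_mul_right (mul_le_mul_right ?_ _) _
    rw [g2_eq_sw, sw_comm]
    exact hSB _
  -- second bound
  have b2 : ∑ n ∈ S, ∑ m ∈ Finset.range m0, (if 2 ^ k ≤ h + n + m ∧ h + n + m ≤ 4 * s then
      sw (Brd (n + 1)) (fun N => UPa k (h + n + m) a (N ++ I)) else 0) ≤
      ENNReal.ofReal (UU m0) * ∑ r ∈ Finset.range (4 * s + 1), vb k a r * sw (Irr r) (fun I1 =>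
      g2 (Bk a) (Bk b) (fun X Y => Fold7 (2 ^ (k - 1)) (X ++ I1) (Y ++ I))) := by
    have h1 : ∀ n ∈ S, ∑ m ∈ Finset.range m0, (if 2 ^ k ≤ h + n + m ∧ h + n + m ≤ 4 * s then
        sw (Brd (n + 1)) (fun N => UPa k (h + n + m) a (N ++ I)) else 0) ≤
        sw (Brd (n + 1)) (fun N => ENNReal.ofReal (UU m0) * ∑ r1 ∈ Finset.range (4 * s + 1), vb k a r1 *
          sw (Irr r1) (fun I1 => sw (Bk a) (fun X => fI k (X ++ I1) (N ++ I)))) := by
      intro n _
      calc _ = sw (Brd (n + 1)) (fun N => ∑ m ∈ Finset.range m0, if 2 ^ k ≤ h + n + m ∧ h + n + m ≤ 4 * s then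
            UPa k (h + n + m) a (N ++ I) else 0) := by
            rw [sw_sum]
            refine Finset.sum_congr rfl fun m _ => ?_
            split_ifs with hm
            · rfl
            · rw [sw_const, mul_zero]
        _ ≤ _ := by
            refine sw_mono subset_rfl fun N _ => ?_
            exact UPa_le2 (h := h + n) (P := fun m => 2 ^ k ≤ h + n + m ∧ h + n + m ≤ 4 * s) (fun m hm => hm.2) hvb (N ++ I)
    refine (Finset.sum_le_sum h1).trans ((hSB _).trans (le_of_eq ?_))
    rw [sw_mul_left, sw_sum]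
    congr 1
    refine Finset.sum_congr rfl fun r1 _ => ?_
    rw [sw_mul_left]
    congr 1
    rw [sw_comm]
    refine sw_congr fun I1 _ => ?_
    rw [g2_eq_sw, sw_comm]
    rfl
  unfold UpT
  rcases le_total (ENNReal.ofReal (m0 * (uu (2 ^ k) / UU (2 ^ k))) *
      g2 (Bk a) (Bk b) (fun X Y => Fold7 (2 ^ (k - 1)) X (Y ++ I)))
    (ENNReal.ofReal (UU m0) * ∑ r ∈ Finset.range (4 * s + 1), vb k a r * sw (Irr r) (fun I1 =>
      g2 (Bk a) (Bk b) (fun X Y => Fold7 (2 ^ (k - 1)) (X ++ I1) (Y ++ I)))) with h1 | h1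
  · rw [min_eq_left h1]
    exact b1
  · rw [min_eq_right h1]
    refine b2.trans ?_
    have h2 : (1 : ℝ≥0∞) ≤ ENNReal.ofReal C := by
      rw [← ENNReal.ofReal_one]
      exact ENNReal.ofReal_le_ofReal hC
    calc _ = 1 * (ENNReal.ofReal (UU m0) * ∑ r ∈ Finset.range (4 * s + 1), vb k a r * sw (Irr r) (fun I1 =>
          g2 (Bk a) (Bk b) (fun X Y => Fold7 (2 ^ (k - 1)) (X ++ I1) (Y ++ I)))) := (one_mul _).symm
      _ ≤ _ := mul_le_mul_left h2 _

end SecAux

end HexObs
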