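import Pool.Agent.PHW7.SecLe2

/-!
PHW, section S7, R4a: all three strands of a section cut.
-/

set_option autoImplicit false

namespace HexObs

open Complex Finset ENNReal

namespace SecAux

lemma xc2_ne : ENNReal.ofReal (xc ^ 2) ≠ 0 := by
  have := xc_pos
  rw [Ne, ENNReal.ofReal_eq_zero, not_le]
  positivity

/-- the sections after the cuts -/
noncomputable def FS3 (k s m e n r : ℕ) : ℝ≥0∞ := vk k n r * sw (Irr r) (fun I =>
  sw (Brd (n + 1)) (fun N => UP k e (N ++ I)) * sw (Brd (e - m - 2 - n - r + 1)) (fun M => LB k s (M ++ rev I)))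

/-- one section, all heights -/
theorem secT_le {k m0 s m e : ℕ} (hk : 5 ≤ k) (hm0 : 8 * (m0 + 2) ≤ 2 ^ k) (hm : m < m0) (he : 2 ^ k ≤ e) :
    ∑ T ∈ (Finset.Ioc s (4 * s)).filter (fun T => e ≤ T), secW m e T ≤
      4 * (ENNReal.ofReal (UU (4 * s)) * (ENNReal.ofReal (xc ^ 2))⁻¹) *
        ∑ n ∈ Finset.range (2 ^ (k - 2)), ∑ r ∈ Finset.range (e - m - 2 + 1 - n), FS3 k s m e n r := by
  classical
  have hp1 : 2 ^ k = 2 * 2 ^ (k - 1) := by
    rw [← pow_succ']
    congr 1
    omega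
  have hp2 : 2 ^ (k - 1) = 2 * 2 ^ (k - 2) := by
    rw [← pow_succ']
    congr 1
    omega
  have hx := xc2_ne
  have hx' : ENNReal.ofReal (xc ^ 2) ≠ ⊤ := ENNReal.ofReal_ne_top
  -- one pair of letters
  have key : ∀ c c' : Bool, ENNReal.ofReal (xc ^ 2) * sw (Brd (e - m - 2)) (fun r0 =>
      gf {X | X ∈ Brd e ∧ Nbr X (c :: (!c) :: r0)} *
      ∑ T ∈ (Finset.Ioc s (4 * s)).filter (fun T => e ≤ T), gf {R | R ∈ Brd (T - m) ∧ Nbr R (rev (r0 ++ [!c', c']))}) ≤
      (ENNReal.ofReal (UU (4 * s)) * (ENNReal.ofReal (xc ^ 2))⁻¹) *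
        ∑ n ∈ Finset.range (2 ^ (k - 2)), ∑ r ∈ Finset.range (e - m - 2 + 1 - n), FS3 k s m e n r := by
    intro c c'
    refine (mul_le_mul_right (cut_sum (k := k) (h := e - m - 2) (by omega) (by omega) _) _).trans ?_
    rw [Finset.mul_sum, Finset.mul_sum]
    refine Finset.sum_le_sum fun n hn => ?_
    rw [Finset.mem_range] at hn
    rw [Finset.mul_sum, Finset.mul_sum]
    refine Finset.sum_le_sum fun r hr => ?_
    rw [Finset.mem_range] at hr
    have h1 : sw (Brd n) (fun N0 => sw (Irr r) (fun I => sw (Brd (e - m - 2 - n - r)) (fun M0 =>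
        gf {X | X ∈ Brd e ∧ Nbr X (c :: (!c) :: (N0 ++ I ++ M0))} *
        ∑ T ∈ (Finset.Ioc s (4 * s)).filter (fun T => e ≤ T),
          gf {R | R ∈ Brd (T - m) ∧ Nbr R (rev ((N0 ++ I ++ M0) ++ [!c', c']))}))) ≤
        sw (Brd n) (fun N0 => sw (Irr r) (fun I => sw (Brd (e - m - 2 - n - r)) (fun M0 =>
          UP k e ((c :: (!c) :: N0) ++ I) * (ENNReal.ofReal (UU (4 * s)) * LB k s (rev (M0 ++ [!c', c']) ++ rev I))))) := by
      refine sw_mono subset_rfl fun N0 hN => sw_mono subset_rfl fun I hI => sw_mono subset_rfl fun M0 hM => ?_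
      refine mul_le_mul' ?_ ?_
      · exact up_cut (m := m) (by omega) hN hI hM (by omega) (by omega) (by omega)
      · exact low_sum (by omega) hN hI hM (by omega) (by omega)
    have h2 : sw (Brd n) (fun N0 => sw (Irr r) (fun I => sw (Brd (e - m - 2 - n - r)) (fun M0 =>
          UP k e ((c :: (!c) :: N0) ++ I) * (ENNReal.ofReal (UU (4 * s)) * LB k s (rev (M0 ++ [!c', c']) ++ rev I))))) =
        sw (Irr r) (fun I => sw (Brd n) (fun N0 => UP k e ((c :: (!c) :: N0) ++ I)) *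
          (ENNReal.ofReal (UU (4 * s)) * sw (Brd (e - m - 2 - n - r)) (fun M0 => LB k s (rev (M0 ++ [!c', c']) ++ rev I)))) := by
      rw [sw_comm]
      refine sw_congr fun I _ => ?_
      rw [← sw_mul_right]
      refine sw_congr fun N0 _ => ?_
      rw [sw_mul_left, sw_mul_left]
    have h3 : ∀ I, sw (Brd (e - m - 2 - n - r)) (fun M0 => LB k s (rev (M0 ++ [!c', c']) ++ rev I)) ≤
        (ENNReal.ofReal (xc ^ 2))⁻¹ * sw (Brd (e - m - 2 - n - r + 1)) (fun M => LB k s (M ++ rev I)) := by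
      intro I
      have h4 := trail_le (e - m - 2 - n - r) c' (fun M => LB k s (M ++ rev I))
      calc _ = (ENNReal.ofReal (xc ^ 2))⁻¹ * (ENNReal.ofReal (xc ^ 2) *
            sw (Brd (e - m - 2 - n - r)) (fun M0 => LB k s (rev (M0 ++ [!c', c']) ++ rev I))) := by
            rw [← mul_assoc, ENNReal.inv_mul_cancel hx hx', one_mul]
        _ ≤ _ := mul_le_mul_right h4 _
    have h5 : ∀ I, ENNReal.ofReal (xc ^ 2) * sw (Brd n) (fun N0 => UP k e ((c :: (!c) :: N0) ++ I)) ≤
        sw (Brd (n + 1)) (fun N => UP k e (N ++ I)) := fun I => lead_le n c (fun N => UP k e (N ++ I))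
    calc ENNReal.ofReal (xc ^ 2) * (vk k n r * sw (Brd n) (fun N0 => sw (Irr r) (fun I =>
          sw (Brd (e - m - 2 - n - r)) (fun M0 =>
          gf {X | X ∈ Brd e ∧ Nbr X (c :: (!c) :: (N0 ++ I ++ M0))} *
          ∑ T ∈ (Finset.Ioc s (4 * s)).filter (fun T => e ≤ T),
            gf {R | R ∈ Brd (T - m) ∧ Nbr R (rev ((N0 ++ I ++ M0) ++ [!c', c']))}))))
        ≤ ENNReal.ofReal (xc ^ 2) * (vk k n r * sw (Irr r) (fun I =>
          sw (Brd n) (fun N0 => UP k e ((c :: (!c) :: N0) ++ I)) * (ENNReal.ofReal (UU (4 * s)) *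
          ((ENNReal.ofReal (xc ^ 2))⁻¹ * sw (Brd (e - m - 2 - n - r + 1)) (fun M => LB k s (M ++ rev I)))))) := by
          refine mul_le_mul_right (mul_le_mul_right ((h1.trans h2.le).trans ?_) _) _
          exact sw_mono subset_rfl fun I _ => mul_le_mul_right (mul_le_mul_right (h3 I) _) _
      _ = (ENNReal.ofReal (UU (4 * s)) * (ENNReal.ofReal (xc ^ 2))⁻¹) * (vk k n r * sw (Irr r) (fun I =>
          (ENNReal.ofReal (xc ^ 2) * sw (Brd n) (fun N0 => UP k e ((c :: (!c) :: N0) ++ I))) *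
            sw (Brd (e - m - 2 - n - r + 1)) (fun M => LB k s (M ++ rev I)))) := by
          have e1 : ∀ I, sw (Brd n) (fun N0 => UP k e ((c :: (!c) :: N0) ++ I)) * (ENNReal.ofReal (UU (4 * s)) *
              ((ENNReal.ofReal (xc ^ 2))⁻¹ * sw (Brd (e - m - 2 - n - r + 1)) (fun M => LB k s (M ++ rev I)))) =
              (ENNReal.ofReal (UU (4 * s)) * (ENNReal.ofReal (xc ^ 2))⁻¹) *
              (sw (Brd n) (fun N0 => UP k e ((c :: (!c) :: N0) ++ I)) *
              sw (Brd (e - m - 2 - n - r + 1)) (fun M => LB k s (M ++ rev I))) := fun I => by ring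
          have e2 : ∀ I, (ENNReal.ofReal (xc ^ 2) * sw (Brd n) (fun N0 => UP k e ((c :: (!c) :: N0) ++ I))) *
              sw (Brd (e - m - 2 - n - r + 1)) (fun M => LB k s (M ++ rev I)) =
              ENNReal.ofReal (xc ^ 2) * (sw (Brd n) (fun N0 => UP k e ((c :: (!c) :: N0) ++ I)) *
              sw (Brd (e - m - 2 - n - r + 1)) (fun M => LB k s (M ++ rev I))) := fun I => by ring
          simp only [e1, e2]
          rw [sw_mul_left, sw_mul_left]
          ring
      _ ≤ _ := by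
          refine mul_le_mul_right (mul_le_mul_right ?_ _) _
          exact sw_mono subset_rfl fun I _ => mul_le_mul_left (h5 I) _
  have h6 : ∑ T ∈ (Finset.Ioc s (4 * s)).filter (fun T => e ≤ T), secW m e T =
      ∑ c : Bool, ∑ c' : Bool, ENNReal.ofReal (xc ^ 2) * sw (Brd (e - m - 2)) (fun r0 =>
      gf {X | X ∈ Brd e ∧ Nbr X (c :: (!c) :: r0)} *
      ∑ T ∈ (Finset.Ioc s (4 * s)).filter (fun T => e ≤ T), gf {R | R ∈ Brd (T - m) ∧ Nbr R (rev (r0 ++ [!c', c']))}) := by
    unfold secW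
    rw [Finset.sum_comm]
    refine Finset.sum_congr rfl fun c _ => ?_
    rw [Finset.sum_comm]
    refine Finset.sum_congr rfl fun c' _ => ?_
    rw [← Finset.mul_sum, ← sw_sum]
    congr 1
    refine sw_congr fun r0 _ => ?_
    rw [Finset.mul_sum]
  rw [h6]
  refine (Finset.sum_le_sum fun c _ => Finset.sum_le_sum fun c' _ => key c c').trans (le_of_eq ?_)
  rw [Finset.sum_const, Finset.sum_const, Finset.card_univ, Fintype.card_bool, nsmul_eq_mul, nsmul_eq_mul]
  push_cast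
  ring

end SecAux

end HexObs
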