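import Pool.Agent.PHW7.SecLe3

/-!
PHW, section S7, R4a: the sum of all sections of a block.
-/

set_option autoImplicit false

namespace HexObs

open Complex Finset ENNReal

namespace SecAux

/-- change of variables: the sum over the height e of the upper strand becomes the sum over the height μ of the
lower part of the middle strand -/
theorem reindex {k m0 s m n : ℕ} (hm0 : 8 * (m0 + 2) ≤ 2 ^ k) (hk : 5 ≤ k) (hm : m < m0) (hn : n < 2 ^ (k - 2))
    (F : ℕ → ℕ → ℝ≥0∞) :
    ∑ e ∈ (Finset.Ico (2 ^ k) (2 ^ (k + 1))).filter (fun e => e ≤ 4 * s), ∑ r ∈ Finset.range (e - m - 2 + 1 - n), F e r ≤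
      ∑ r ∈ Finset.range (2 ^ (k + 1)), ∑ μ ∈ (Finset.range (2 ^ (k + 1))).filter (fun μ => μ + 1 < 2 ^ (k + 1)),
        if 2 ^ k ≤ n + r + μ + m + 2 ∧ n + r + μ + m + 2 ≤ 4 * s then F (n + r + μ + m + 2) r else 0 := by
  classical
  have hp1 : 2 ^ k = 2 * 2 ^ (k - 1) := by
    rw [← pow_succ']
    congr 1
    omega
  have hp2 : 2 ^ (k - 1) = 2 * 2 ^ (k - 2) := by
    rw [← pow_succ']
    congr 1
    omega
  calc ∑ e ∈ (Finset.Ico (2 ^ k) (2 ^ (k + 1))).filter (fun e => e ≤ 4 * s), ∑ r ∈ Finset.range (e - m - 2 + 1 - n), F e r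
      ≤ ∑ e ∈ (Finset.Ico (2 ^ k) (2 ^ (k + 1))).filter (fun e => e ≤ 4 * s), ∑ r ∈ Finset.range (2 ^ (k + 1)),
        if n + r + m + 2 ≤ e then F e r else 0 := by
        refine Finset.sum_le_sum fun e he => ?_
        rw [Finset.mem_filter, Finset.mem_Ico] at he
        rw [← Finset.sum_filter]
        apply Finset.sum_le_sum_of_subset
        intro r hr
        rw [Finset.mem_range] at hr
        rw [Finset.mem_filter, Finset.mem_range]
        omega
    _ = ∑ r ∈ Finset.range (2 ^ (k + 1)), ∑ e ∈ (Finset.Ico (2 ^ k) (2 ^ (k + 1))).filter (fun e => e ≤ 4 * s),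
        if n + r + m + 2 ≤ e then F e r else 0 := Finset.sum_comm
    _ ≤ _ := by
        refine Finset.sum_le_sum fun r _ => ?_
        rw [← Finset.sum_filter]
        calc _ = ∑ μ ∈ (((Finset.Ico (2 ^ k) (2 ^ (k + 1))).filter (fun e => e ≤ 4 * s)).filter
              (fun e => n + r + m + 2 ≤ e)).image (fun e => e - (n + r + m + 2)),
              F (n + r + μ + m + 2) r := by
              rw [Finset.sum_image]
              · refine Finset.sum_congr rfl fun e he => ?_
                rw [Finset.mem_filter] at he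
                congr 1
                omega
              · intro a ha b hb hab
                rw [Finset.coe_filter, Set.mem_ofPred_eq] at ha hb
                simp only at hab
                omega
          _ ≤ _ := by
              rw [← Finset.sum_filter]
              apply Finset.sum_le_sum_of_subset
              intro μ hμ
              rw [Finset.mem_image] at hμ
              obtain ⟨e, he, rfl⟩ := hμ
              rw [Finset.mem_filter, Finset.mem_filter, Finset.mem_Ico] at he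
              rw [Finset.mem_filter, Finset.mem_filter, Finset.mem_range]
              omega

/-- sizes of the middle giant -/
lemma vk_le_min {k m0 m n r μ : ℕ} (hm0 : 8 * (m0 + 2) ≤ 2 ^ k) (hk : 5 ≤ k) (hm : m < m0) (hn : n < 2 ^ (k - 2))
    (hvb : ∀ n r b : ℕ, n < 2 ^ b → vk k n r ≤ vb k b r) (h : 2 ^ k ≤ n + r + μ + m + 2) :
    vk k n r ≤ min (vb k (Nat.size (n + 1)) r) (vb k (Nat.size (μ + 1)) r) := by
  apply le_min
  · apply hvb
    have := Nat.lt_size_self (n + 1)
    omega
  · have hp1 : 2 ^ k = 2 * 2 ^ (k - 1) := by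
      rw [← pow_succ']
      congr 1
      omega
    have hp2 : 2 ^ (k - 1) = 2 * 2 ^ (k - 2) := by
      rw [← pow_succ']
      congr 1
      omega
    have hp3 : 2 ^ (k - 2) = 2 * 2 ^ (k - 3) := by
      rw [← pow_succ']
      congr 1
      omega
    have hp4 : 2 ^ (k - 3) = 2 * 2 ^ (k - 4) := by
      rw [← pow_succ']
      congr 1
      omega
    have h1 : vk k n r ≤ vb k k r := hvb n r k (by omega)
    refine h1.trans (le_of_eq ?_)
    unfold vb
    rw [if_neg (by omega), if_neg]
    rintro ⟨h2, h3⟩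
    have h4 := Nat.lt_size_self (μ + 1)
    have h5 : 2 ^ Nat.size (μ + 1) ≤ 2 ^ (k - 4) := Nat.pow_le_pow_right (by norm_num) (by omega)
    omega

/-- one pair of blocks for the near parts of the middle strand -/
theorem pair_le {k m0 s b d r : ℕ} {C : ℝ} (hk : 5 ≤ k) (hC : 1 ≤ C)
    (hvb : ∀ n r b : ℕ, n < 2 ^ b → vk k n r ≤ vb k b r)
    (hK : ∀ e x : ℕ, 2 ^ k ≤ e → x < 2 ^ (k - 2) →
      ∑ r ∈ Finset.range (e + 1 - x), vk k x r * gf (Irr r) * gf (Brd (e - x - r)) ≤
        ENNReal.ofReal (C * (uu (2 ^ k) / UU (2 ^ k)))) (S S' : Finset ℕ)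
    (hS : ∀ n ∈ S, Nat.size (n + 1) = b) (hS' : ∀ n ∈ S', Nat.size (n + 1) = d) (I : List Bool) :
    ∑ n ∈ S, ∑ μ ∈ S', ∑ m ∈ Finset.range m0, (if 2 ^ k ≤ n + r + μ + m + 2 ∧ n + r + μ + m + 2 ≤ 4 * s then
      sw (Brd (n + 1)) (fun N => UP k (n + r + μ + m + 2) (N ++ I)) * sw (Brd (μ + 1)) (fun M => LB k s (M ++ rev I))
        else 0) ≤
      ENNReal.ofReal C * ((∑ a ∈ Finset.range (k - 1), UpT k m0 s a b I) *
        (∑ c ∈ Finset.range (k - 1), LowT k s c d (rev I))) := by
  classical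
  rw [Finset.sum_comm]
  have h1 : ∀ μ ∈ S', ∑ n ∈ S, ∑ m ∈ Finset.range m0, (if 2 ^ k ≤ n + r + μ + m + 2 ∧ n + r + μ + m + 2 ≤ 4 * s then
      sw (Brd (n + 1)) (fun N => UP k (n + r + μ + m + 2) (N ++ I)) * sw (Brd (μ + 1)) (fun M => LB k s (M ++ rev I))
        else 0) ≤ (ENNReal.ofReal C * ∑ a ∈ Finset.range (k - 1), UpT k m0 s a b I) *
        sw (Brd (μ + 1)) (fun M => LB k s (M ++ rev I)) := by
    intro μ _
    have e1 : ∀ n m : ℕ, n + r + μ + m + 2 = (r + μ + 2) + n + m := by
      intro n m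
      ring
    have e2 : ∀ n m : ℕ, (if 2 ^ k ≤ n + r + μ + m + 2 ∧ n + r + μ + m + 2 ≤ 4 * s then
        sw (Brd (n + 1)) (fun N => UP k (n + r + μ + m + 2) (N ++ I)) * sw (Brd (μ + 1)) (fun M => LB k s (M ++ rev I))
        else 0) = (∑ a ∈ Finset.range (k - 1), if 2 ^ k ≤ (r + μ + 2) + n + m ∧ (r + μ + 2) + n + m ≤ 4 * s then
        sw (Brd (n + 1)) (fun N => UPa k ((r + μ + 2) + n + m) a (N ++ I)) else 0) *
          sw (Brd (μ + 1)) (fun M => LB k s (M ++ rev I)) := by
      intro n m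
      rw [e1]
      split_ifs with h
      · rw [← sw_sum]
        congr 1
        exact sw_congr fun N _ => UP_eq (by omega) _
      · rw [Finset.sum_const_zero, zero_mul]
    simp only [e2]
    simp only [← Finset.sum_mul]
    refine mul_le_mul_left ?_ _
    rw [Finset.mul_sum]
    calc _ = ∑ a ∈ Finset.range (k - 1), ∑ n ∈ S, ∑ m ∈ Finset.range m0,
          (if 2 ^ k ≤ (r + μ + 2) + n + m ∧ (r + μ + 2) + n + m ≤ 4 * s then
          sw (Brd (n + 1)) (fun N => UPa k ((r + μ + 2) + n + m) a (N ++ I)) else 0) := by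
          refine Eq.trans (Finset.sum_congr rfl fun n _ => Finset.sum_comm) ?_
          exact Finset.sum_comm
      _ ≤ _ := Finset.sum_le_sum fun a _ => up_total hC hvb hK S hS a I
  refine (Finset.sum_le_sum h1).trans ?_
  rw [← Finset.mul_sum, mul_assoc]
  refine mul_le_mul_right (mul_le_mul_right ?_ _) _
  exact low_total (by omega) hvb d S' hS' (rev I)

end SecAux

end HexObs
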