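import Pool.Agent.PHW7.SecLe4

/-!
PHW, section S7, R4a: sec_le from the numbers of NumV.
-/

set_option autoImplicit false

namespace HexObs

open Complex Finset ENNReal

namespace SecAux

/-- order of the sums -/
theorem SecBlk_eq (k m0 s : ℕ) : SecBlk k m0 s = ∑ m ∈ Finset.range m0,
    ∑ e ∈ (Finset.Ico (2 ^ k) (2 ^ (k + 1))).filter (fun e => e ≤ 4 * s),
      ∑ T ∈ (Finset.Ioc s (4 * s)).filter (fun T => e ≤ T), secW m e T := by
  classical
  unfold SecBlk
  rw [Finset.sum_comm]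
  refine Finset.sum_congr rfl fun m _ => ?_
  calc ∑ T ∈ Finset.Ioc s (4 * s), ∑ e ∈ (Finset.Ico (2 ^ k) (2 ^ (k + 1))).filter (fun e => e ≤ T), secW m e T
      = ∑ T ∈ Finset.Ioc s (4 * s), ∑ e ∈ (Finset.Ico (2 ^ k) (2 ^ (k + 1))).filter (fun e => e ≤ 4 * s),
        if e ≤ T then secW m e T else 0 := by
        refine Finset.sum_congr rfl fun T hT => ?_
        rw [Finset.mem_Ioc] at hT
        rw [← Finset.sum_filter]
        apply Finset.sum_congr
        · ext e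
          simp only [Finset.mem_filter]
          constructor
          · rintro ⟨h1, h2⟩
            exact ⟨⟨h1, by omega⟩, h2⟩
          · rintro ⟨⟨h1, _⟩, h3⟩
            exact ⟨h1, h3⟩
        · exact fun _ _ => rfl
    _ = _ := by
        rw [Finset.sum_comm]
        refine Finset.sum_congr rfl fun e _ => ?_
        rw [Finset.sum_filter]

/-- one value of r: blocks of the near parts of the middle strand -/
theorem blocks_le {k m0 s r : ℕ} {C : ℝ} (hk : 5 ≤ k) (hm0 : 8 * (m0 + 2) ≤ 2 ^ k) (hC : 1 ≤ C)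
    (hvb : ∀ n r b : ℕ, n < 2 ^ b → vk k n r ≤ vb k b r)
    (hK : ∀ e x : ℕ, 2 ^ k ≤ e → x < 2 ^ (k - 2) →
      ∑ r ∈ Finset.range (e + 1 - x), vk k x r * gf (Irr r) * gf (Brd (e - x - r)) ≤
        ENNReal.ofReal (C * (uu (2 ^ k) / UU (2 ^ k)))) :
    ∑ n ∈ Finset.range (2 ^ (k - 2)), ∑ μ ∈ (Finset.range (2 ^ (k + 1))).filter (fun μ => μ + 1 < 2 ^ (k + 1)),
      ∑ m ∈ Finset.range m0, (if 2 ^ k ≤ n + r + μ + m + 2 ∧ n + r + μ + m + 2 ≤ 4 * s then
        FS3 k s m (n + r + μ + m + 2) n r else 0) ≤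
      ENNReal.ofReal C * ∑ b ∈ Finset.range k, ∑ d ∈ Finset.range (k + 2),
        min (vb k b r) (vb k d r) * sw (Irr r) (fun I =>
        (∑ a ∈ Finset.range (k - 1), UpT k m0 s a b I) * (∑ c ∈ Finset.range (k - 1), LowT k s c d (rev I))) := by
  classical
  have hb : ∀ n ∈ Finset.range (2 ^ (k - 2)), Nat.size (n + 1) ∈ Finset.range k := by
    intro n hn
    rw [Finset.mem_range] at hn ⊢
    have h1 : n + 1 < 2 ^ (k - 1) := by
      have hp : 2 ^ (k - 1) = 2 * 2 ^ (k - 2) := by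
        rw [← pow_succ']
        congr 1
        omega
      omega
    have := Nat.size_le.2 h1
    omega
  have hd : ∀ μ ∈ (Finset.range (2 ^ (k + 1))).filter (fun μ => μ + 1 < 2 ^ (k + 1)), Nat.size (μ + 1) ∈ Finset.range (k + 2) := by
    intro μ hμ
    rw [Finset.mem_filter] at hμ
    rw [Finset.mem_range]
    have := Nat.size_le.2 hμ.2
    omega
  rw [← Finset.sum_fiberwise_of_maps_to hb, Finset.mul_sum]
  refine Finset.sum_le_sum fun b _ => ?_
  have h1 : ∀ n : ℕ, ∑ μ ∈ (Finset.range (2 ^ (k + 1))).filter (fun μ => μ + 1 < 2 ^ (k + 1)),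
      ∑ m ∈ Finset.range m0, (if 2 ^ k ≤ n + r + μ + m + 2 ∧ n + r + μ + m + 2 ≤ 4 * s then
        FS3 k s m (n + r + μ + m + 2) n r else 0) = ∑ d ∈ Finset.range (k + 2),
        ∑ μ ∈ ((Finset.range (2 ^ (k + 1))).filter (fun μ => μ + 1 < 2 ^ (k + 1))).filter (fun μ => Nat.size (μ + 1) = d),
      ∑ m ∈ Finset.range m0, (if 2 ^ k ≤ n + r + μ + m + 2 ∧ n + r + μ + m + 2 ≤ 4 * s then
        FS3 k s m (n + r + μ + m + 2) n r else 0) := fun n => (Finset.sum_fiberwise_of_maps_to hd _).symm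
  simp only [h1]
  rw [Finset.sum_comm, Finset.mul_sum]
  refine Finset.sum_le_sum fun d _ => ?_
  obtain ⟨S, hS⟩ : ∃ S : Finset ℕ, S = (Finset.range (2 ^ (k - 2))).filter (fun n => Nat.size (n + 1) = b) := ⟨_, rfl⟩
  obtain ⟨S', hS'⟩ : ∃ S' : Finset ℕ, S' = ((Finset.range (2 ^ (k + 1))).filter (fun μ => μ + 1 < 2 ^ (k + 1))).filter
    (fun μ => Nat.size (μ + 1) = d) := ⟨_, rfl⟩
  rw [← hS, ← hS']
  have h2 : ∀ n ∈ S, ∀ μ ∈ S', ∀ m ∈ Finset.range m0, (if 2 ^ k ≤ n + r + μ + m + 2 ∧ n + r + μ + m + 2 ≤ 4 * s then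
        FS3 k s m (n + r + μ + m + 2) n r else 0) ≤ min (vb k b r) (vb k d r) * sw (Irr r) (fun I =>
      if 2 ^ k ≤ n + r + μ + m + 2 ∧ n + r + μ + m + 2 ≤ 4 * s then
      sw (Brd (n + 1)) (fun N => UP k (n + r + μ + m + 2) (N ++ I)) * sw (Brd (μ + 1)) (fun M => LB k s (M ++ rev I))
        else 0) := by
    intro n hn μ hμ m hm
    rw [hS, Finset.mem_filter, Finset.mem_range] at hn
    rw [hS', Finset.mem_filter] at hμ
    rw [Finset.mem_range] at hm
    split_ifs with hc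
    · unfold FS3
      have e1 : n + r + μ + m + 2 - m - 2 - n - r + 1 = μ + 1 := by omega
      rw [e1]
      refine mul_le_mul_left ?_ _
      have h3 := vk_le_min hm0 hk hm hn.1 hvb hc.1
      rwa [hn.2, hμ.2] at h3
    · exact zero_le
  calc _ ≤ ∑ n ∈ S, ∑ μ ∈ S', ∑ m ∈ Finset.range m0, min (vb k b r) (vb k d r) * sw (Irr r) (fun I =>
      if 2 ^ k ≤ n + r + μ + m + 2 ∧ n + r + μ + m + 2 ≤ 4 * s then
      sw (Brd (n + 1)) (fun N => UP k (n + r + μ + m + 2) (N ++ I)) * sw (Brd (μ + 1)) (fun M => LB k s (M ++ rev I))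
        else 0) := Finset.sum_le_sum fun n hn => Finset.sum_le_sum fun μ hμ => Finset.sum_le_sum fun m hm => h2 n hn μ hμ m hm
    _ = min (vb k b r) (vb k d r) * sw (Irr r) (fun I => ∑ n ∈ S, ∑ μ ∈ S', ∑ m ∈ Finset.range m0,
      if 2 ^ k ≤ n + r + μ + m + 2 ∧ n + r + μ + m + 2 ≤ 4 * s then
      sw (Brd (n + 1)) (fun N => UP k (n + r + μ + m + 2) (N ++ I)) * sw (Brd (μ + 1)) (fun M => LB k s (M ++ rev I))
        else 0) := by
        simp only [sw_sum, Finset.mul_sum]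
    _ ≤ min (vb k b r) (vb k d r) * sw (Irr r) (fun I => ENNReal.ofReal C *
        ((∑ a ∈ Finset.range (k - 1), UpT k m0 s a b I) * (∑ c ∈ Finset.range (k - 1), LowT k s c d (rev I)))) := by
        refine mul_le_mul_right (sw_mono subset_rfl fun I _ => ?_) _
        refine pair_le hk hC hvb hK S S' ?_ ?_ I
        · intro n hn
          rw [hS, Finset.mem_filter] at hn
          exact hn.2
        · intro n hn
          rw [hS', Finset.mem_filter] at hn
          exact hn.2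
    _ = _ := by
        rw [sw_mul_left]
        ring

theorem sec_le_of (hvb : ∀ k n r b : ℕ, 4 ≤ k → n < 2 ^ b → vk k n r ≤ vb k b r)
    (hK : ∃ C : ℝ, 0 < C ∧ ∀ k x e : ℕ, 4 ≤ k → x < 2 ^ (k - 2) → 2 ^ k ≤ e →
      ∑ r ∈ Finset.range (e + 1 - x), vk k x r * gf (Irr r) * gf (Brd (e - x - r)) ≤
        ENNReal.ofReal (C * (uu (2 ^ k) / UU (2 ^ k)))) :
    ∃ C : ℝ, 0 < C ∧ ∀ k m0 s : ℕ, 5 ≤ k → 1 ≤ m0 → 8 * (m0 + 2) ≤ 2 ^ k →
    SecBlk k m0 s ≤ ENNReal.ofReal (C * UU s) * ∑ b ∈ Finset.range k, ∑ d ∈ Finset.range (k + 2),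
      ∑ r ∈ Finset.range (2 ^ (k + 1)), min (vb k b r) (vb k d r) * sw (Irr r) (fun I =>
        (∑ a ∈ Finset.range (k - 1), UpT k m0 s a b I) * (∑ c ∈ Finset.range (k - 1), LowT k s c d (rev I))) := by
  classical
  obtain ⟨C, hC, hK⟩ := hK
  obtain ⟨C', hC'⟩ : ∃ C' : ℝ, C' = max C 1 := ⟨_, rfl⟩
  have hC1 : 1 ≤ C' := by rw [hC']; exact le_max_right _ _
  have hCC : C ≤ C' := by rw [hC']; exact le_max_left _ _
  have hxc := xc_pos
  refine ⟨16 * C' / xc ^ 2, by positivity, ?_⟩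
  intro k m0 s hk hm1 hm0
  have hvb' : ∀ n r b : ℕ, n < 2 ^ b → vk k n r ≤ vb k b r := fun n r b h => hvb k n r b (by omega) h
  have hK' : ∀ e x : ℕ, 2 ^ k ≤ e → x < 2 ^ (k - 2) →
      ∑ r ∈ Finset.range (e + 1 - x), vk k x r * gf (Irr r) * gf (Brd (e - x - r)) ≤
        ENNReal.ofReal (C' * (uu (2 ^ k) / UU (2 ^ k))) := by
    intro e x h1 h2
    refine (hK k x e (by omega) h2 h1).trans (ENNReal.ofReal_le_ofReal ?_)
    have := div_pos (uu_pos (2 ^ k)) (Num2Aux.UU_pos (2 ^ k))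
    exact mul_le_mul_of_nonneg_right hCC this.le
  rw [SecBlk_eq]
  calc _ ≤ ∑ m ∈ Finset.range m0, ∑ e ∈ (Finset.Ico (2 ^ k) (2 ^ (k + 1))).filter (fun e => e ≤ 4 * s),
        4 * (ENNReal.ofReal (UU (4 * s)) * (ENNReal.ofReal (xc ^ 2))⁻¹) *
        ∑ n ∈ Finset.range (2 ^ (k - 2)), ∑ r ∈ Finset.range (e - m - 2 + 1 - n), FS3 k s m e n r := by
        refine Finset.sum_le_sum fun m hm => Finset.sum_le_sum fun e he => ?_
        rw [Finset.mem_range] at hm
        rw [Finset.mem_filter, Finset.mem_Ico] at he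
        exact secT_le hk hm0 hm he.1.1
    _ = 4 * (ENNReal.ofReal (UU (4 * s)) * (ENNReal.ofReal (xc ^ 2))⁻¹) * ∑ m ∈ Finset.range m0,
        ∑ n ∈ Finset.range (2 ^ (k - 2)), ∑ e ∈ (Finset.Ico (2 ^ k) (2 ^ (k + 1))).filter (fun e => e ≤ 4 * s),
         ∑ r ∈ Finset.range (e - m - 2 + 1 - n), FS3 k s m e n r := by
        rw [Finset.mul_sum]
        refine Finset.sum_congr rfl fun m _ => ?_
        rw [← Finset.mul_sum]
        congr 1
        exact Finset.sum_comm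
    _ ≤ 4 * (ENNReal.ofReal (UU (4 * s)) * (ENNReal.ofReal (xc ^ 2))⁻¹) * ∑ m ∈ Finset.range m0,
        ∑ n ∈ Finset.range (2 ^ (k - 2)), ∑ r ∈ Finset.range (2 ^ (k + 1)),
          ∑ μ ∈ (Finset.range (2 ^ (k + 1))).filter (fun μ => μ + 1 < 2 ^ (k + 1)),
          if 2 ^ k ≤ n + r + μ + m + 2 ∧ n + r + μ + m + 2 ≤ 4 * s then FS3 k s m (n + r + μ + m + 2) n r else 0 := by
        refine mul_le_mul_right (Finset.sum_le_sum fun m hm => Finset.sum_le_sum fun n hn => ?_) _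
        rw [Finset.mem_range] at hm hn
        exact reindex hm0 hk hm hn (fun e r => FS3 k s m e n r)
    _ = 4 * (ENNReal.ofReal (UU (4 * s)) * (ENNReal.ofReal (xc ^ 2))⁻¹) * ∑ r ∈ Finset.range (2 ^ (k + 1)),
        ∑ n ∈ Finset.range (2 ^ (k - 2)), ∑ μ ∈ (Finset.range (2 ^ (k + 1))).filter (fun μ => μ + 1 < 2 ^ (k + 1)),
        ∑ m ∈ Finset.range m0, 
          if 2 ^ k ≤ n + r + μ + m + 2 ∧ n + r + μ + m + 2 ≤ 4 * s then FS3 k s m (n + r + μ + m + 2) n r else 0 := by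
        congr 1
        rw [Finset.sum_comm]
        refine Eq.trans (Finset.sum_congr rfl fun n _ => Finset.sum_comm) ?_
        rw [Finset.sum_comm]
        refine Finset.sum_congr rfl fun r _ => Finset.sum_congr rfl fun n _ => Finset.sum_comm
    _ ≤ 4 * (ENNReal.ofReal (UU (4 * s)) * (ENNReal.ofReal (xc ^ 2))⁻¹) * ∑ r ∈ Finset.range (2 ^ (k + 1)),
        (ENNReal.ofReal C' * ∑ b ∈ Finset.range k, ∑ d ∈ Finset.range (k + 2),
        min (vb k b r) (vb k d r) * sw (Irr r) (fun I =>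
        (∑ a ∈ Finset.range (k - 1), UpT k m0 s a b I) * (∑ c ∈ Finset.range (k - 1), LowT k s c d (rev I)))) :=
        mul_le_mul_right (Finset.sum_le_sum fun r _ => blocks_le hk hm0 hC1 hvb' hK') _
    _ = (4 * (ENNReal.ofReal (UU (4 * s)) * (ENNReal.ofReal (xc ^ 2))⁻¹) * ENNReal.ofReal C') *
        ∑ b ∈ Finset.range k, ∑ d ∈ Finset.range (k + 2), ∑ r ∈ Finset.range (2 ^ (k + 1)),
        min (vb k b r) (vb k d r) * sw (Irr r) (fun I =>
        (∑ a ∈ Finset.range (k - 1), UpT k m0 s a b I) * (∑ c ∈ Finset.range (k - 1), LowT k s c d (rev I))) := by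
        rw [← Finset.mul_sum, ← mul_assoc]
        congr 1
        rw [Finset.sum_comm]
        exact Finset.sum_congr rfl fun b _ => Finset.sum_comm
    _ ≤ _ := by
        refine mul_le_mul_left ?_ _
        have h1 : UU (4 * s) ≤ 4 * UU s := by
          have h2 := UU_double s
          have h3 := UU_double (2 * s)
          have e : 4 * s = 2 * (2 * s) := by ring
          rw [e]
          linarith
        have hx : (ENNReal.ofReal (xc ^ 2))⁻¹ = ENNReal.ofReal ((xc ^ 2)⁻¹) :=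
          (ENNReal.ofReal_inv_of_pos (by positivity)).symm
        have h4 : (4 : ℝ≥0∞) = ENNReal.ofReal 4 := by norm_num
        rw [hx, h4, ← ENNReal.ofReal_mul (Num2Aux.UU_pos _).le, ← ENNReal.ofReal_mul (by norm_num),
          ← ENNReal.ofReal_mul (by have := Num2Aux.UU_pos (4 * s); positivity)]
        apply ENNReal.ofReal_le_ofReal
        have h5 : 16 * C' / xc ^ 2 * UU s = 4 * (4 * UU s * (xc ^ 2)⁻¹) * C' := by
          field_simp
          ring
        rw [h5]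
        have h6 := Num2Aux.UU_pos s
        gcongr

end SecAux

end HexObs
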