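import Pool.Agent.PHW7.Defs7

/-!
PHW, section S7: rules for weighted sums over sets of words.
-/

set_option autoImplicit false

namespace HexObs

open Complex Finset ENNReal

open Classical in
/-- indicator -/
noncomputable def ind (p : Prop) : ℝ≥0∞ := if p then 1 else 0

lemma ind_le_one (p : Prop) : ind p ≤ 1 := by
  unfold ind
  split_ifs <;> simp

lemma ind_mono {p q : Prop} (h : p → q) : ind p ≤ ind q := by
  unfold ind
  split_ifs with h1 h2
  · exact le_rfl
  · exact absurd (h h1) h2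
  · exact zero_le_one
  · exact le_rfl

lemma ind_true {p : Prop} (h : p) : ind p = 1 := by
  unfold ind
  rw [if_pos h]

lemma ind_false {p : Prop} (h : ¬ p) : ind p = 0 := by
  unfold ind
  rw [if_neg h]

open Classical in
theorem sw_eq (A : Set (List Bool)) (Φ : List Bool → ℝ≥0∞) :
    sw A Φ = ∑' t : List Bool, if t ∈ A then wE t * Φ t else 0 := by
  unfold sw
  rw [tsum_subtype A (fun t => wE t * Φ t)]
  exact tsum_congr fun t => by simp only [Set.indicator_apply]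

theorem sw_mono {A B : Set (List Bool)} {Φ Ψ : List Bool → ℝ≥0∞} (hAB : A ⊆ B) (h : ∀ t ∈ A, Φ t ≤ Ψ t) :
    sw A Φ ≤ sw B Ψ := by
  classical
  rw [sw_eq, sw_eq]
  refine ENNReal.tsum_le_tsum fun t => ?_
  by_cases ht : t ∈ A
  · rw [if_pos ht, if_pos (hAB ht)]
    exact mul_le_mul_right (h t ht) _
  · rw [if_neg ht]
    exact zero_le

theorem sw_congr {A : Set (List Bool)} {Φ Ψ : List Bool → ℝ≥0∞} (h : ∀ t ∈ A, Φ t = Ψ t) : sw A Φ = sw A Ψ :=
  le_antisymm (sw_mono subset_rfl fun t ht => (h t ht).le) (sw_mono subset_rfl fun t ht => (h t ht).ge)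

theorem sw_mul_right (A : Set (List Bool)) (Φ : List Bool → ℝ≥0∞) (c : ℝ≥0∞) :
    sw A (fun t => Φ t * c) = sw A Φ * c := by
  unfold sw
  rw [← ENNReal.tsum_mul_right]
  exact tsum_congr fun t => by rw [mul_assoc]

theorem sw_mul_left (A : Set (List Bool)) (Φ : List Bool → ℝ≥0∞) (c : ℝ≥0∞) :
    sw A (fun t => c * Φ t) = c * sw A Φ := by
  unfold sw
  rw [← ENNReal.tsum_mul_left]
  exact tsum_congr fun t => by ring

theorem sw_one (A : Set (List Bool)) : sw A (fun _ => 1) = gf A := by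
  unfold sw gf
  exact tsum_congr fun t => by rw [mul_one]

theorem sw_const (A : Set (List Bool)) (c : ℝ≥0∞) : sw A (fun _ => c) = gf A * c := by
  rw [← sw_one, ← sw_mul_right]
  exact sw_congr fun t _ => by rw [one_mul]

theorem sw_sum {ι : Type*} (A : Set (List Bool)) (s : Finset ι) (Φ : ι → List Bool → ℝ≥0∞) :
    sw A (fun t => ∑ i ∈ s, Φ i t) = ∑ i ∈ s, sw A (Φ i) := by
  unfold sw
  rw [← Summable.tsum_finsetSum fun _ _ => ENNReal.summable]
  exact tsum_congr fun t => by rw [Finset.mul_sum]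

theorem sw_add (A : Set (List Bool)) (Φ Ψ : List Bool → ℝ≥0∞) :
    sw A (fun t => Φ t + Ψ t) = sw A Φ + sw A Ψ := by
  unfold sw
  rw [← ENNReal.tsum_add]
  exact tsum_congr fun t => by rw [mul_add]

theorem sw_comm (A B : Set (List Bool)) (Φ : List Bool → List Bool → ℝ≥0∞) :
    sw A (fun a => sw B (fun b => Φ a b)) = sw B (fun b => sw A (fun a => Φ a b)) := by
  unfold sw
  have h1 : ∀ a : {t : List Bool // t ∈ A}, wE a.1 * ∑' b : {t : List Bool // t ∈ B}, wE b.1 * Φ a.1 b.1 =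
      ∑' b : {t : List Bool // t ∈ B}, wE a.1 * (wE b.1 * Φ a.1 b.1) := fun a => ENNReal.tsum_mul_left.symm
  have h2 : ∀ b : {t : List Bool // t ∈ B}, wE b.1 * ∑' a : {t : List Bool // t ∈ A}, wE a.1 * Φ a.1 b.1 =
      ∑' a : {t : List Bool // t ∈ A}, wE b.1 * (wE a.1 * Φ a.1 b.1) := fun b => ENNReal.tsum_mul_left.symm
  rw [tsum_congr h1, tsum_congr h2, ENNReal.tsum_comm]
  exact tsum_congr fun b => tsum_congr fun a => by ring

/-- restricted sums -/
theorem sw_ind (A : Set (List Bool)) (P : List Bool → Prop) : sw A (fun t => ind (P t)) = gf {t | t ∈ A ∧ P t} := by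
  classical
  rw [sw_eq, gf_ind]
  refine tsum_congr fun t => ?_
  rw [Set.mem_ofPred_eq]
  by_cases h1 : t ∈ A
  · by_cases h2 : P t
    · rw [if_pos h1, if_pos ⟨h1, h2⟩, ind_true h2, mul_one]
    · rw [if_pos h1, if_neg (fun h => h2 h.2), ind_false h2, mul_zero]
  · rw [if_neg h1, if_neg (fun h => h1 h.1)]

theorem g2_eq_sw (A B : Set (List Bool)) (R : List Bool → List Bool → Prop) :
    g2 A B R = sw A (fun s => sw B (fun t => ind (R s t))) := by
  rw [g2_left]
  unfold sw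
  exact tsum_congr fun s => by rw [← sw_ind]; rfl

/-- finite unions -/
theorem sw_biUnion_le {ι : Type*} (I : Finset ι) (A : ι → Set (List Bool)) (Φ : List Bool → ℝ≥0∞) :
    sw (⋃ i ∈ I, A i) Φ ≤ ∑ i ∈ I, sw (A i) Φ := by
  classical
  rw [sw_eq]
  have h : ∑ i ∈ I, sw (A i) Φ = ∑' t : List Bool, ∑ i ∈ I, if t ∈ A i then wE t * Φ t else 0 := by
    rw [Summable.tsum_finsetSum fun _ _ => ENNReal.summable]
    exact Finset.sum_congr rfl fun i _ => sw_eq _ _
  rw [h]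
  refine ENNReal.tsum_le_tsum fun t => ?_
  by_cases ht : t ∈ ⋃ i ∈ I, A i
  · rw [if_pos ht]
    rw [Set.mem_iUnion₂] at ht
    obtain ⟨i, hi, hti⟩ := ht
    refine le_trans (le_of_eq ?_) (Finset.single_le_sum (fun j _ => zero_le) hi)
    rw [if_pos hti]
  · rw [if_neg ht]
    exact zero_le

theorem sw_union_le (A B : Set (List Bool)) (Φ : List Bool → ℝ≥0∞) : sw (A ∪ B) Φ ≤ sw A Φ + sw B Φ := by
  classical
  rw [sw_eq, sw_eq, sw_eq, ← ENNReal.tsum_add]
  refine ENNReal.tsum_le_tsum fun t => ?_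
  by_cases h1 : t ∈ A
  · rw [if_pos (show t ∈ A ∪ B from Or.inl h1), if_pos h1]
    exact le_self_add
  · by_cases h2 : t ∈ B
    · rw [if_pos (show t ∈ A ∪ B from Or.inr h2), if_neg h1, if_pos h2, zero_add]
    · rw [if_neg (show t ∉ A ∪ B by rintro (h | h); exacts [h1 h, h2 h])]
      exact zero_le

/-- images: every word of C is f a for some a in A, of weight at most κ times that of a -/
theorem sw_image_le {A C : Set (List Bool)} {Φ : List Bool → ℝ≥0∞} (f : List Bool → List Bool) (κ : ℝ≥0∞)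
    (h : ∀ w ∈ C, ∃ a ∈ A, w = f a ∧ wE w ≤ κ * wE a) : sw C Φ ≤ κ * sw A (fun a => Φ (f a)) := by
  classical
  choose! g hg1 hg2 hg3 using h
  rw [← sw_mul_left]
  unfold sw
  have hinj : Function.Injective (fun w : {t : List Bool // t ∈ C} => (⟨g w.1, hg1 w.1 w.2⟩ : {t : List Bool // t ∈ A})) := by
    intro w w' hw
    have h1 : g w.1 = g w'.1 := congrArg Subtype.val hw
    apply Subtype.ext
    rw [hg2 w.1 w.2, hg2 w'.1 w'.2, h1]
  refine le_trans (ENNReal.tsum_le_tsum fun w => ?_) (ENNReal.tsum_comp_le_tsum_of_injective hinj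
    (fun a : {t : List Bool // t ∈ A} => wE a.1 * (κ * Φ (f a.1))))
  show wE w.1 * Φ w.1 ≤ wE (g w.1) * (κ * Φ (f (g w.1)))
  rw [← hg2 w.1 w.2]
  calc wE w.1 * Φ w.1 ≤ (κ * wE (g w.1)) * Φ w.1 := mul_le_mul_left (hg3 w.1 w.2) _
    _ = _ := by ring

/-- concatenations -/
theorem sw_cat_le {A B C : Set (List Bool)} {Φ : List Bool → ℝ≥0∞} (h : ∀ w ∈ C, ∃ a ∈ A, ∃ b ∈ B, w = a ++ b) :
    sw C Φ ≤ sw A (fun a => sw B (fun b => Φ (a ++ b))) := by
  classical
  choose! g hg1 k hg2 hg3 using h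
  unfold sw
  have h1 : ∀ a : {t : List Bool // t ∈ A}, wE a.1 * ∑' b : {t : List Bool // t ∈ B}, wE b.1 * Φ (a.1 ++ b.1) =
      ∑' b : {t : List Bool // t ∈ B}, wE a.1 * (wE b.1 * Φ (a.1 ++ b.1)) := fun a => ENNReal.tsum_mul_left.symm
  rw [tsum_congr h1, ← ENNReal.tsum_prod]
  have hinj : Function.Injective (fun w : {t : List Bool // t ∈ C} =>
      ((⟨g w.1, hg1 w.1 w.2⟩, ⟨k w.1, hg2 w.1 w.2⟩) : {t : List Bool // t ∈ A} × {t : List Bool // t ∈ B})) := by
    intro w w' hw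
    have h1 : g w.1 = g w'.1 := congrArg (fun p => p.1.1) hw
    have h2 : k w.1 = k w'.1 := congrArg (fun p => p.2.1) hw
    apply Subtype.ext
    rw [hg3 w.1 w.2, hg3 w'.1 w'.2, h1, h2]
  refine le_trans (ENNReal.tsum_le_tsum fun w => ?_) (ENNReal.tsum_comp_le_tsum_of_injective hinj
    (fun p : {t : List Bool // t ∈ A} × {t : List Bool // t ∈ B} => wE p.1.1 * (wE p.2.1 * Φ (p.1.1 ++ p.2.1))))
  show wE w.1 * Φ w.1 ≤ wE (g w.1) * (wE (k w.1) * Φ (g w.1 ++ k w.1))
  rw [← hg3 w.1 w.2, ← mul_assoc, ← wE_append, ← hg3 w.1 w.2]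

end HexObs
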